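import Pool.Agent.Lib.MP_0430e4_lc.LPL.Defs

/-!
# Fourier analysis on the cube
-/

set_option autoImplicit false

namespace Pool.Agent.Lib.MP_0430e4_lc.LPL

open Finset
open Tensor (chi flp)
open Impr (wt)

/-- orthogonality of the characters -/
theorem sum_chi_mul {n : ℕ} (x x' : Fin n → Bool) :
    ∑ y, chi x y * chi x' y = if x = x' then (2 : ℝ) ^ n else 0 := by
  have h1 : ∀ y, chi x y * chi x' y = chi (fun i => xor (x i) (x' i)) y := fun y =>
    (Tensor.chi_xor x x' y).symm
  simp only [h1]
  rw [Tensor.sum_chi]
  split_ifs with h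
  · subst h
    simp
  · obtain ⟨i, hi⟩ : ∃ i, x i ≠ x' i := by
      by_contra hc
      push Not at hc
      exact h (funext hc)
    apply Finset.prod_eq_zero (Finset.mem_univ i)
    have : xor (x i) (x' i) = true := by
      revert hi
      cases x i <;> cases x' i <;> simp
    simp only [this, if_true]

/-- Parseval. -/
theorem parseval {n : ℕ} (F G : (Fin n → Bool) → ℝ) :
    ∑ y, hat F y * hat G y = 2 ^ n * ∑ x, F x * G x := by
  unfold hat
  calc ∑ y, (∑ x, F x * chi x y) * ∑ x, G x * chi x y
      = ∑ y, ∑ x, ∑ x', (F x * G x') * (chi x y * chi x' y) := by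
        apply Finset.sum_congr rfl
        intro y _
        rw [Finset.sum_mul_sum]
        apply Finset.sum_congr rfl
        intro x _
        apply Finset.sum_congr rfl
        intro x' _
        ring
    _ = ∑ x, ∑ x', ∑ y, (F x * G x') * (chi x y * chi x' y) := by
        rw [Finset.sum_comm]
        apply Finset.sum_congr rfl
        intro x _
        rw [Finset.sum_comm]
    _ = ∑ x, ∑ x', (F x * G x') * (if x = x' then (2 : ℝ) ^ n else 0) := by
        apply Finset.sum_congr rfl
        intro x _
        apply Finset.sum_congr rfl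
        intro x' _
        rw [← Finset.mul_sum, sum_chi_mul]
    _ = _ := by
        rw [Finset.mul_sum]
        apply Finset.sum_congr rfl
        intro x _
        simp only [mul_ite, mul_zero, Finset.sum_ite_eq, Finset.mem_univ, if_true]
        ring

theorem hat_adj {n : ℕ} (F : (Fin n → Bool) → ℝ) (y : Fin n → Bool) :
    hat (fun x => ∑ i, F (flp x i)) y = ((n : ℝ) - 2 * wt y) * hat F y := by
  have h := Tensor.sum_adj_chi F y
  rw [Fintype.card_fin] at h
  unfold hat
  have e : ∀ G : (Fin n → Bool) → ℝ, ∑ x, G x * chi x y = ∑ x, G x * chi y x := by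
    intro G
    apply Finset.sum_congr rfl
    intro x _
    rw [Tensor.chi_comm x y]
  rw [e, e]
  exact h

theorem hat_mul_h {n : ℕ} (F : (Fin n → Bool) → ℝ) (y : Fin n → Bool) :
    hat (fun x => ((n : ℝ) - 2 * wt x) * F x) y = ∑ i, hat F (flp y i) := by
  unfold hat
  rw [Finset.sum_comm]
  apply Finset.sum_congr rfl
  intro x _
  have h := Tensor.sum_ite_sign x
  rw [Fintype.card_fin] at h
  have e : ((n : ℝ) - 2 * wt x) = ∑ i, (if x i = true then (-1 : ℝ) else 1) := by
    rw [h]
    rfl
  show ((n : ℝ) - 2 * wt x) * F x * chi x y = ∑ i, F x * chi x (flp y i)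
  rw [e, Finset.sum_mul, Finset.sum_mul]
  apply Finset.sum_congr rfl
  intro i _
  rw [Tensor.chi_flp]
  ring

/-- a flip inside the support lowers the weight -/
theorem wt_flp_true {n : ℕ} (y : Fin n → Bool) (i : Fin n) (h : y i = true) :
    wt (flp y i) + 1 = wt y := by
  unfold wt Tensor.flp
  have e : (univ.filter fun j => Function.update y i (!(y i)) j = true)
      = (univ.filter fun j => y j = true).erase i := by
    ext j
    by_cases hj : j = i
    · subst hj
      simp [h]
    · simp [hj]
  rw [e, Finset.card_erase_of_mem (by simp [h])]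
  have : 0 < (univ.filter fun j => y j = true).card := Finset.card_pos.2 ⟨i, by simp [h]⟩
  omega

theorem wt_flp_false {n : ℕ} (y : Fin n → Bool) (i : Fin n) (h : y i = false) :
    wt (flp y i) = wt y + 1 := by
  unfold wt Tensor.flp
  have e : (univ.filter fun j => Function.update y i (!(y i)) j = true)
      = insert i (univ.filter fun j => y j = true) := by
    ext j
    by_cases hj : j = i
    · subst hj
      simp [h]
    · simp [hj]
  rw [e, Finset.card_insert_of_notMem (by simp [h])]

theorem wt_le {n : ℕ} (y : Fin n → Bool) : wt y ≤ n := by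
  unfold wt
  exact (Finset.card_le_univ _).trans (by simp)

theorem card_true {n : ℕ} (y : Fin n → Bool) : (univ.filter fun i => y i = true).card = wt y := by
  rfl

theorem card_false {n : ℕ} (y : Fin n → Bool) :
    ((univ.filter fun i => y i = false).card : ℝ) = (n : ℝ) - wt y := by
  have h := Finset.card_filter_add_card_filter_not (s := (univ : Finset (Fin n)))
    (fun i => y i = true)
  rw [Finset.card_univ, Fintype.card_fin] at h
  have e : (univ.filter fun i => y i = false) = univ.filter fun i => ¬ y i = true := by
    apply Finset.filter_congr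
    intro i _
    simp
  rw [e]
  have h3 : ((univ.filter fun i => y i = true).card : ℝ)
    + ((univ.filter fun i => ¬ y i = true).card : ℝ) = n := by exact_mod_cast h
  unfold wt
  linarith

end Pool.Agent.Lib.MP_0430e4_lc.LPL
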