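import Pool.Agent.Lib.MP_0430e4_lc.LPL.Defs
import Pool.Agent.Lib.MP_0430e4_lc.TensorEntropy

/-!
# Binomial coefficients in the middle
-/

set_option autoImplicit false

namespace Pool.Agent.Lib.MP_0430e4_lc.LPL

open Finset

theorem log_one_add_le_cubic {u : ℝ} (hu : -1 < u) :
    Real.log (1 + u) ≤ u - u ^ 2 / 2 + u ^ 3 / 3 := by
  let f : ℝ → ℝ := fun u => u - u ^ 2 / 2 + u ^ 3 / 3 - Real.log (1 + u)
  have hd : ∀ v : ℝ, -1 < v → HasDerivAt f (v ^ 3 / (1 + v)) v := by
    intro v hv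
    have hv0 : (1 + v) ≠ 0 := by linarith
    have h1 : HasDerivAt (fun u : ℝ => Real.log (1 + u)) (1 / (1 + v)) v := by
      have := ((hasDerivAt_id v).const_add 1).log hv0
      simpa using this
    have h2 : HasDerivAt (fun u : ℝ => u - u ^ 2 / 2 + u ^ 3 / 3) (1 - v + v ^ 2) v := by
      have e1 := ((hasDerivAt_id' v).sub ((hasDerivAt_pow 2 v).div_const 2)).add
        ((hasDerivAt_pow 3 v).div_const 3)
      refine e1.congr_deriv ?_
      push_cast
      ring
    refine (h2.sub h1).congr_deriv ?_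
    field_simp
    ring
  have hc : ∀ s : Set ℝ, (∀ v ∈ s, -1 < v) → ContinuousOn f s := fun s hs v hv =>
    (hd v (hs v hv)).continuousAt.continuousWithinAt
  have f0 : f 0 = 0 := by simp [f]
  have key : 0 ≤ f u := by
    rcases le_total 0 u with h | h
    · have hm : MonotoneOn f (Set.Ici 0) := by
        apply monotoneOn_of_deriv_nonneg (convex_Ici 0)
        · exact hc _ (fun v hv => by have : (0 : ℝ) ≤ v := hv; linarith)
        · intro v hv
          rw [interior_Ici] at hv
          have : (0 : ℝ) < v := hv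
          exact (hd v (by linarith)).differentiableAt.differentiableWithinAt
        · intro v hv
          rw [interior_Ici] at hv
          have : (0 : ℝ) < v := hv
          rw [(hd v (by linarith)).deriv]
          positivity
      rw [← f0]
      exact hm (Set.mem_Ici.2 le_rfl) (Set.mem_Ici.2 h) h
    · have hm : AntitoneOn f (Set.Ioc (-1) 0) := by
        apply antitoneOn_of_deriv_nonpos (convex_Ioc (-1) 0)
        · exact hc _ (fun v hv => hv.1)
        · intro v hv
          rw [interior_Ioc] at hv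
          exact (hd v hv.1).differentiableAt.differentiableWithinAt
        · intro v hv
          rw [interior_Ioc] at hv
          rw [(hd v hv.1).deriv]
          apply div_nonpos_of_nonpos_of_nonneg
          · have h1 := hv.2
            have : v ^ 3 = v * v ^ 2 := by ring
            rw [this]
            exact mul_nonpos_of_nonpos_of_nonneg h1.le (sq_nonneg v)
          · linarith [hv.1]
      rw [← f0]
      exact hm ⟨hu, h⟩ ⟨by norm_num, le_rfl⟩ h
  have : f u = u - u ^ 2 / 2 + u ^ 3 / 3 - Real.log (1 + u) := rfl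
  linarith

/-- `log 2 - h(p) ≤ (1 - 2p)^2 log 2` for `1/4 ≤ p ≤ 3/4` -/
theorem binEntropy_ge {p : ℝ} (h1 : 1 / 4 ≤ p) (h2 : p ≤ 3 / 4) :
    Real.log 2 - Real.binEntropy p ≤ (1 - 2 * p) ^ 2 * Real.log 2 := by
  have hp : 0 < p := by linarith
  have hq : 0 < 1 - p := by linarith
  have e1 : Real.log p = Real.log (1 + (2 * p - 1)) - Real.log 2 := by
    rw [← Real.log_div (by linarith) (by norm_num)]
    congr 1
    ring
  have e2 : Real.log (1 - p) = Real.log (1 + (1 - 2 * p)) - Real.log 2 := by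
    rw [← Real.log_div (by linarith) (by norm_num)]
    congr 1
    ring
  have i1 := log_one_add_le_cubic (u := 2 * p - 1) (by linarith)
  have i2 := log_one_add_le_cubic (u := 1 - 2 * p) (by linarith)
  have hl : (0.69 : ℝ) ≤ Real.log 2 := by
    have := Real.log_two_gt_d9
    linarith
  have e3 : Real.binEntropy p = Real.log 2 - p * Real.log (1 + (2 * p - 1))
      - (1 - p) * Real.log (1 + (1 - 2 * p)) := by
    unfold Real.binEntropy
    rw [Real.log_inv, Real.log_inv, e1, e2]
    ring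
  rw [e3]
  have j1 : p * Real.log (1 + (2 * p - 1)) ≤ p * ((2 * p - 1) - (2 * p - 1) ^ 2 / 2
      + (2 * p - 1) ^ 3 / 3) := mul_le_mul_of_nonneg_left i1 hp.le
  have j2 : (1 - p) * Real.log (1 + (1 - 2 * p)) ≤ (1 - p) * ((1 - 2 * p) - (1 - 2 * p) ^ 2 / 2
      + (1 - 2 * p) ^ 3 / 3) := mul_le_mul_of_nonneg_left i2 hq.le
  have j3 : p * ((2 * p - 1) - (2 * p - 1) ^ 2 / 2 + (2 * p - 1) ^ 3 / 3)
      + (1 - p) * ((1 - 2 * p) - (1 - 2 * p) ^ 2 / 2 + (1 - 2 * p) ^ 3 / 3)
      = (1 - 2 * p) ^ 2 * (1 / 2 + (1 - 2 * p) ^ 2 / 3) := by ring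
  have j4 : (1 - 2 * p) ^ 2 ≤ 1 / 4 := by nlinarith
  have j5 : (1 - 2 * p) ^ 2 * (1 / 2 + (1 - 2 * p) ^ 2 / 3) ≤ (1 - 2 * p) ^ 2 * Real.log 2 :=
    mul_le_mul_of_nonneg_left (by linarith) (sq_nonneg _)
  linarith

/-- from `Tensor.entropy_le_log_choose` and `log 2 - h(p) ≤ (1 - 2p)^2 log 2` for
`1/4 ≤ p ≤ 3/4` (convexity of the difference as a function of `1 - 2p`). -/
theorem choose_ge {n a : ℕ} (h1 : n ≤ 4 * a) (h2 : 4 * a ≤ 3 * n) (hn : 1 ≤ n) :
    (2 : ℝ) ^ n ≤ ((n : ℝ) + 1) * n.choose a * (2 : ℝ) ^ (((n : ℝ) - 2 * a) ^ 2 / n) := by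
  have hn0 : (0 : ℝ) < n := by exact_mod_cast hn
  have ha : 0 < a := by omega
  have han : a < n := by omega
  have k1 := Tensor.entropy_le_log_choose ha han
  have p1 : (1 : ℝ) / 4 ≤ a / n := by
    rw [div_le_div_iff₀ (by norm_num) hn0]
    have : (n : ℝ) ≤ 4 * a := by exact_mod_cast h1
    linarith
  have p2 : (a : ℝ) / n ≤ 3 / 4 := by
    rw [div_le_div_iff₀ hn0 (by norm_num)]
    have : 4 * (a : ℝ) ≤ 3 * n := by exact_mod_cast h2
    linarith
  have k2 := binEntropy_ge p1 p2
  have hch : (0 : ℝ) < n.choose a := by exact_mod_cast Nat.choose_pos han.le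
  rw [← Real.log_le_log_iff (by positivity) (by positivity), Real.log_mul (by positivity)
    (by positivity), Real.log_mul (by positivity) (by positivity), Real.log_pow,
    Real.log_rpow (by norm_num)]
  have k3 : (n : ℝ) * (Real.log 2 - Real.binEntropy (a / n))
      ≤ (n : ℝ) * ((1 - 2 * (a / n)) ^ 2 * Real.log 2) := mul_le_mul_of_nonneg_left k2 hn0.le
  have k4 : (n : ℝ) * ((1 - 2 * (a / n)) ^ 2 * Real.log 2)
      = ((n : ℝ) - 2 * a) ^ 2 / n * Real.log 2 := by
    field_simp
  linarith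

end Pool.Agent.Lib.MP_0430e4_lc.LPL
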