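import Pool.Agent.Lib.MP_0430e4_lc.LPL.Defs

/-!
# The numerical conditions hold for large `n`
-/

set_option autoImplicit false

namespace Pool.Agent.Lib.MP_0430e4_lc.LPL

open Filter Topology

/-- `τ = 1/2 - √(δ(1-δ))` -/
noncomputable def tau (δ : ℝ) : ℝ := 1 / 2 - Real.sqrt (δ * (1 - δ))

/-- `(1 - 2δ)^2 = 4 τ (1 - τ)`, `0 < τ`, and `δ > 1/4` if `4 τ < δ`. -/
theorem tau_facts {δ : ℝ} (h0 : 0 < δ) (h1 : δ < 1 / 2) (h2 : 4 * tau δ < δ) :
    (1 - 2 * δ) ^ 2 = 4 * tau δ * (1 - tau δ) ∧ 0 < tau δ ∧ 1 / 4 < δ := by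
  have h3 : 0 ≤ δ * (1 - δ) := mul_nonneg h0.le (by linarith)
  have h4 := Real.sq_sqrt h3
  have h5 : Real.sqrt (δ * (1 - δ)) = 1 / 2 - tau δ := by rw [tau]; ring
  rw [h5] at h4
  have h6 : (1 - 2 * δ) ^ 2 = 4 * tau δ * (1 - tau δ) := by nlinarith
  have h7 : 0 < tau δ := by
    have h8 : Real.sqrt (δ * (1 - δ)) < 1 / 2 := by
      rw [Real.sqrt_lt' (by norm_num)]
      nlinarith [sq_nonneg (1 - 2 * δ), mul_pos (sub_pos.2 h1) (sub_pos.2 h1)]
    rw [tau]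
    linarith
  refine ⟨h6, h7, ?_⟩
  by_contra hcon
  have h8 : δ ≤ 1 / 4 := not_lt.1 hcon
  nlinarith [sq_nonneg (tau δ), mul_nonneg (sub_nonneg.2 h8) (sub_nonneg.2 h8)]

private theorem nc_of_large {δ ε τ : ℝ} (h1 : δ < 1 / 2)
    (h2 : 4 * τ < δ) (h3 : (1 - 2 * δ) ^ 2 = 4 * τ * (1 - τ)) (h4 : 0 < τ) (h5 : 1 / 4 < δ)
    (he : 0 < ε) (he2 : ε < τ ^ 2 / 2) {n : ℕ} (hn1 : 48 ≤ ε * n)
    (hn2 : (1 - ε / 2) ^ ⌊ε / 2 * n⌋₊ ≤ ε ^ 2 / 2) {d : ℕ} (hne : Even n) (hde : Even d)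
    (hd1 : δ * n ≤ d) (hd2 : (d : ℝ) ≤ δ * n + 3) :
    n ≤ 4 * d ∧ ((n : ℝ) - 2 * d) ^ 2 ≤ 4 * n * (⌊(τ - ε) * n⌋₊ : ℕ) ∧
        ∃ (k : ℕ) (R : ℝ), NC n d ⌊(τ - ε) * n⌋₊ k R := by
  have hτ8 : τ < 1 / 8 := by linarith
  have hε : ε ≤ τ / 16 := by nlinarith
  have hε1 : ε < 1 / 128 := by linarith
  have hn0 : (0 : ℝ) < n := by
    by_contra hcon
    have : (n : ℝ) ≤ 0 := not_lt.1 hcon
    nlinarith
  have hn48 : (48 : ℝ) ≤ n := by nlinarith
  have hδ0 : 0 < δ := by linarith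
  have h12 : 4 * τ ≤ 1 - 2 * δ := by
    have : (4 * τ) ^ 2 ≤ (1 - 2 * δ) ^ 2 := by rw [h3]; nlinarith
    exact (abs_le_of_sq_le_sq' this (by linarith)).2
  have h12a : 0 < 1 - 2 * δ := by linarith
  set t : ℕ := ⌊(τ - ε) * n⌋₊ with ht
  have ht1 : (t : ℝ) ≤ (τ - ε) * n := Nat.floor_le (by nlinarith)
  have ht2 : (τ - ε) * n < t + 1 := Nat.lt_floor_add_one _
  have hτn : 48 ≤ τ * n := by nlinarith
  have a1 : 4 * τ * n ≤ δ * n := mul_le_mul_of_nonneg_right h2.le hn0.le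
  have a2 : 4 * τ * n ≤ (1 - 2 * δ) * n := mul_le_mul_of_nonneg_right h12 hn0.le
  have a3 : τ * n ≤ 1 / 8 * n := mul_le_mul_of_nonneg_right hτ8.le hn0.le
  have a4 : 1 / 4 * (n : ℝ) ≤ δ * n := mul_le_mul_of_nonneg_right h5.le hn0.le
  -- the distance
  have hup : (n : ℝ) - 2 * d ≤ (1 - 2 * δ) * n := by linarith
  have hlow : (1 - 2 * δ) * n - 6 ≤ (n : ℝ) - 2 * d := by linarith
  have hlow0 : 48 ≤ (1 - 2 * δ) * n := by linarith
  have hpos : 0 ≤ (n : ℝ) - 2 * d := by linarith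
  have hsqup : ((n : ℝ) - 2 * d) ^ 2 ≤ 4 * τ * (1 - τ) * n ^ 2 := by
    rw [← h3, ← mul_pow]
    exact pow_le_pow_left₀ hpos hup 2
  have hsqlow : 4 * τ * (1 - τ) * n ^ 2 - 12 * n ≤ ((n : ℝ) - 2 * d) ^ 2 := by
    have h6 : ((1 - 2 * δ) * n - 6) ^ 2 ≤ ((n : ℝ) - 2 * d) ^ 2 :=
      pow_le_pow_left₀ (by linarith) hlow 2
    have h7 : ((1 - 2 * δ) * n - 6) ^ 2 = 4 * τ * (1 - τ) * n ^ 2 - 12 * (1 - 2 * δ) * n + 36 := by
      rw [← h3]; ring
    rw [h7] at h6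
    have h8 : 0 ≤ 24 * δ * (n : ℝ) := by positivity
    linarith
  refine ⟨?_, ?_, ?_⟩
  · have : (n : ℝ) ≤ 4 * d := by linarith
    exact_mod_cast this
  · refine hsqup.trans ?_
    have h6 : τ * (1 - τ) * n ≤ t := by
      have h7 := mul_le_mul_of_nonneg_right he2.le hn0.le
      linarith
    have h7 := mul_le_mul_of_nonneg_left h6 hn0.le
    linarith
  · set k : ℕ := ⌊ε / 2 * n⌋₊ with hk
    have hk1 : (k : ℝ) ≤ ε / 2 * n := Nat.floor_le (by positivity)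
    set f1 : ℝ := (τ - ε / 4) * (1 - τ + ε / 4) with hf1
    have hf1p : 0 < f1 := mul_pos (by linarith) (by linarith)
    have hε3 : 0 ≤ ε * (1 / 4 - 2 * τ) := mul_nonneg he.le (by linarith)
    have hε4 : 0 ≤ ε ^ 2 := sq_nonneg _
    have hf1q : f1 ≤ 1 / 4 := by
      have := sq_nonneg (1 - 2 * τ + ε / 2)
      rw [hf1]
      linarith
    have hf1d : f1 + 3 * ε / 16 ≤ τ * (1 - τ) := by
      rw [hf1]
      linarith
    have hsn : (0 : ℝ) ≤ (n : ℝ) ^ 2 := sq_nonneg _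
    set R : ℝ := 4 * f1 * n ^ 2 with hR
    have hRp : 0 < R := by positivity
    have hgap : ε / 2 * n ^ 2 ≤ ((n : ℝ) - 2 * d) ^ 2 - R := by
      have h6 : 4 * τ * (1 - τ) * n ^ 2 - R ≥ 3 * ε / 4 * n ^ 2 := by
        have := mul_le_mul_of_nonneg_right hf1d hsn
        rw [hR]
        linarith
      have h7 : 12 * (n : ℝ) ≤ ε / 4 * n ^ 2 := by
        have := mul_le_mul_of_nonneg_right hn1 hn0.le
        linarith
      linarith
    have hdp : (0 : ℝ) < d := lt_of_lt_of_le (by positivity) hd1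
    have h4t : 4 * (t : ℝ) ≤ d := by linarith
    refine ⟨k, R, hne, hde, ?_, ?_, ?_, ?_, ?_, ?_, hRp, ?_, ?_⟩
    · rw [ht]
      refine Nat.le_floor ?_
      push_cast
      have := mul_le_mul_of_nonneg_right hε hn0.le
      linarith
    · have : 0 < d := by exact_mod_cast hdp
      omega
    · exact_mod_cast h4t
    · have h6 : (2 * d + 4 * t : ℝ) ≤ n := by linarith
      have h7 : 2 * d + 4 * t ≤ n := by exact_mod_cast h6
      omega
    · have h6 : (2 * d : ℝ) ≤ n := by linarith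
      exact_mod_cast h6
    · have h6 : (2 * (t + k) : ℝ) ≤ n := by linarith
      exact_mod_cast h6
    · have : 0 < ε / 2 * (n : ℝ) ^ 2 := by positivity
      linarith
    · -- the main inequality
      have hx0 : (0 : ℝ) ≤ (t : ℝ) + k := by positivity
      have hx1 : (t : ℝ) + k ≤ (τ - ε / 2) * n := by linarith
      set x : ℝ := (t : ℝ) + k with hx
      have hb0 : 0 ≤ 4 * x * ((n : ℝ) - x + 1) / R := by
        have h61 : (τ - ε / 2) * n ≤ 1 * n := mul_le_mul_of_nonneg_right (by linarith) hn0.le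
        have : 0 ≤ (n : ℝ) - x + 1 := by linarith
        positivity
      have hb1 : 4 * x * ((n : ℝ) - x + 1) / R ≤ 1 - ε / 2 := by
        rw [div_le_iff₀ hRp]
        have h6 : x * ((n : ℝ) - x + 1) ≤ (τ - ε / 2) * n * (n - (τ - ε / 2) * n + 1) := by
          have h61 : (τ - ε / 2) * n ≤ 1 / 2 * n := mul_le_mul_of_nonneg_right (by linarith) hn0.le
          have h62 : 0 ≤ (n : ℝ) + 1 - x - (τ - ε / 2) * n := by linarith
          have h63 := mul_nonneg (sub_nonneg.2 hx1) h62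
          linarith
        have h7 : (τ - ε / 2) * (1 - τ + ε / 2) + 3 * ε / 16 ≤ f1 := by
          rw [hf1]
          linarith
        have h8 : (τ - ε / 2) * n ≤ ε / 16 * n ^ 2 := by
          have h81 := mul_le_mul_of_nonneg_right hn1 hn0.le
          have h82 : (τ - ε / 2) * n ≤ 1 * n := mul_le_mul_of_nonneg_right (by linarith) hn0.le
          linarith
        have h9 : (1 - ε / 2) * f1 ≥ f1 - ε / 8 := by
          have := mul_le_mul_of_nonneg_left hf1q he.le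
          linarith
        have h10 : (τ - ε / 2) * n * (n - (τ - ε / 2) * n + 1)
            = (τ - ε / 2) * (1 - τ + ε / 2) * n ^ 2 + (τ - ε / 2) * n := by ring
        rw [hR]
        have h11 := mul_le_mul_of_nonneg_right h7 hsn
        have h12' : (f1 - ε / 8) * (n : ℝ) ^ 2 ≤ (1 - ε / 2) * f1 * (n : ℝ) ^ 2 :=
          mul_le_mul_of_nonneg_right h9 hsn
        linarith
      have hpk : (4 * x * ((n : ℝ) - x + 1) / R) ^ k ≤ ε ^ 2 / 2 :=
        (pow_le_pow_left₀ hb0 hb1 k).trans hn2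
      have hlast : 4 * ε ≤ 1 / 2 - 2 * ((t : ℝ) - 1) / d := by
        have h6 : 2 * ((t : ℝ) - 1) / d ≤ 1 / 2 - 4 * ε := by
          rw [div_le_iff₀ hdp]
          have h7 : (1 / 2 - 4 * ε) * (δ * n) ≤ (1 / 2 - 4 * ε) * d :=
            mul_le_mul_of_nonneg_left hd1 (by linarith)
          have h8 : 2 * ((τ - ε) * n) ≤ (1 / 2 - 4 * ε) * (δ * n) := by
            have h9 : 2 * (τ - ε) ≤ (1 / 2 - 4 * ε) * δ := by
              have := mul_nonneg he.le (by linarith : 0 ≤ 1 / 2 - δ)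
              linarith
            have := mul_le_mul_of_nonneg_right h9 hn0.le
            linarith
          linarith
        linarith
      calc 4 * (n : ℝ) ^ 2 * (4 * x * ((n : ℝ) - x + 1) / R) ^ k
          ≤ 4 * (n : ℝ) ^ 2 * (ε ^ 2 / 2) := mul_le_mul_of_nonneg_left hpk (by positivity)
        _ = (ε / 2 * (n : ℝ) ^ 2) * (4 * ε) := by ring
        _ ≤ (((n : ℝ) - 2 * d) ^ 2 - R) * (1 / 2 - 2 * ((t : ℝ) - 1) / d) :=
          mul_le_mul hgap hlast (by positivity) (by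
            have : 0 ≤ ε / 2 * (n : ℝ) ^ 2 := by positivity
            linarith)

/-- For `ε > 0` small the numerical conditions hold for all large even `n`, all even `d` with
`δ n ≤ d ≤ δ n + 3` and `t = ⌊(τ - ε) n⌋`, for suitable `k, R`
(`k = ⌊(ε/2) n⌋`, `R = 4 (τ - ε/4) (1 - τ + ε/4) n^2`). -/
theorem eventually_NC {δ ε : ℝ} (h0 : 0 < δ) (h1 : δ < 1 / 2) (h2 : 4 * tau δ < δ)
    (he : 0 < ε) (he2 : ε < tau δ ^ 2 / 2) :
    ∀ᶠ n : ℕ in atTop, ∀ d : ℕ, Even n → Even d → δ * n ≤ d → (d : ℝ) ≤ δ * n + 3 →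
      n ≤ 4 * d ∧ ((n : ℝ) - 2 * d) ^ 2 ≤ 4 * n * (⌊(tau δ - ε) * n⌋₊ : ℕ) ∧
        ∃ (k : ℕ) (R : ℝ), NC n d ⌊(tau δ - ε) * n⌋₊ k R := by
  obtain ⟨h3, h4, h5⟩ := tau_facts h0 h1 h2
  have hε1 : ε < 1 / 128 := by nlinarith
  have hcast : Tendsto (fun n : ℕ => (n : ℝ)) atTop atTop := tendsto_natCast_atTop_atTop
  have e1 : ∀ᶠ n : ℕ in atTop, 48 ≤ ε * (n : ℝ) :=
    (hcast.const_mul_atTop he).eventually_ge_atTop 48
  have e2 : ∀ᶠ n : ℕ in atTop, (1 - ε / 2) ^ ⌊ε / 2 * (n : ℝ)⌋₊ ≤ ε ^ 2 / 2 := by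
    have h6 : Tendsto (fun m : ℕ => (1 - ε / 2) ^ m) atTop (𝓝 0) :=
      tendsto_pow_atTop_nhds_zero_of_lt_one (by linarith) (by linarith)
    have h7 : Tendsto (fun n : ℕ => ⌊ε / 2 * (n : ℝ)⌋₊) atTop atTop :=
      tendsto_nat_floor_atTop.comp (hcast.const_mul_atTop (by positivity))
    exact (h6.comp h7).eventually_le_const (by positivity)
  filter_upwards [e1, e2] with n hn1 hn2 d hne hde hd1 hd2
  exact nc_of_large h1 h2 h3 h4 h5 he he2 hn1 hn2 hne hde hd1 hd2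

end Pool.Agent.Lib.MP_0430e4_lc.LPL
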