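import Pool.Agent.Lib.MP_0430e4_lc.LPL.CUB1

/-!
# Radial functions, complements and polynomials
-/

set_option autoImplicit false

namespace Pool.Agent.Lib.MP_0430e4_lc.LPL

open Finset Polynomial
open Tensor (chi flp)
open Impr (wt)

theorem exists_perm_of_wt {n : ℕ} (y y' : Fin n → Bool) (h : wt y = wt y') :
    ∃ σ : Equiv.Perm (Fin n), ∀ i, y' (σ i) = y i := by
  classical
  have hc : Fintype.card {i // y i = true} = Fintype.card {i // y' i = true} := by
    rw [Fintype.card_subtype, Fintype.card_subtype]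
    exact h
  refine ⟨(Fintype.equivOfCardEq hc).extendSubtype, fun i => ?_⟩
  by_cases hi : y i = true
  · rw [hi]
    exact (Fintype.equivOfCardEq hc).extendSubtype_mem i hi
  · have := (Fintype.equivOfCardEq hc).extendSubtype_not_mem i hi
    simp only [Bool.not_eq_true] at hi this
    rw [hi, this]

theorem wt_comp_perm {n : ℕ} (x : Fin n → Bool) (σ : Equiv.Perm (Fin n)) :
    wt (fun i => x (σ i)) = wt x := by
  unfold wt
  apply Finset.card_bij (fun i _ => σ i)
  · intro i hi
    simpa using hi
  · intro i _ j _ hij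
    exact σ.injective hij
  · intro j hj
    refine ⟨σ.symm j, ?_, by simp⟩
    simpa using hj

theorem hat_radial {n : ℕ} (φ : ℕ → ℝ) (y y' : Fin n → Bool) (h : wt y = wt y') :
    hat (fun x => φ (wt x)) y = hat (fun x => φ (wt x)) y' := by
  obtain ⟨σ, hσ⟩ := exists_perm_of_wt y y' h
  unfold hat
  refine Fintype.sum_equiv (σ.arrowCongr (Equiv.refl Bool)) _ _ (fun x => ?_)
  have h1 : wt (σ.arrowCongr (Equiv.refl Bool) x) = wt x := by
    have := wt_comp_perm (σ.arrowCongr (Equiv.refl Bool) x) σ
    rw [← this]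
    congr 1
    funext i
    simp
  have h2 : chi (σ.arrowCongr (Equiv.refl Bool) x) y' = chi x y := by
    rw [Tensor.chi_eq, Tensor.chi_eq]
    symm
    refine Fintype.prod_equiv σ _ _ (fun i => ?_)
    rw [hσ]
    simp
  show φ (wt x) * chi x y = φ (wt (σ.arrowCongr (Equiv.refl Bool) x))
    * chi (σ.arrowCongr (Equiv.refl Bool) x) y'
  rw [h1, h2]

theorem wt_compl {n : ℕ} (y : Fin n → Bool) : wt (fun i => !(y i)) = n - wt y := by
  have h := Finset.card_filter_add_card_filter_not (s := (univ : Finset (Fin n)))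
    (fun i => y i = true)
  rw [Finset.card_univ, Fintype.card_fin] at h
  have e : (univ.filter fun i => (!(y i)) = true) = univ.filter fun i => ¬ y i = true := by
    apply Finset.filter_congr
    intro i _
    simp
  unfold wt
  rw [e]
  omega

theorem chi_ones {n : ℕ} (x : Fin n → Bool) : chi x (fun _ => true) = (-1) ^ wt x := by
  rw [Tensor.chi]
  simp only [and_true]
  rw [Finset.prod_ite, Finset.prod_const, Finset.prod_const_one, mul_one]
  rfl

theorem hat_compl {n : ℕ} (F : (Fin n → Bool) → ℝ) (hF : ∀ x, ¬ Even (wt x) → F x = 0)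
    (y : Fin n → Bool) : hat F (fun i => !(y i)) = hat F y := by
  unfold hat
  apply Finset.sum_congr rfl
  intro x _
  by_cases hx : Even (wt x)
  · have e : (fun i => !(y i)) = fun i => xor (y i) ((fun _ : Fin n => true) i) := by
      funext i
      simp
    rw [e, Tensor.chi_comm, Tensor.chi_xor, Tensor.chi_comm (fun _ : Fin n => true) x, chi_ones,
      hx.neg_one_pow, mul_one, Tensor.chi_comm y x]
  · rw [hF x hx]
    ring

/-- multiplication by the weight raises the level by at most one -/
theorem hat_mul_wt {n s : ℕ} (F : (Fin n → Bool) → ℝ) (hF : ∀ y, s < wt y → hat F y = 0)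
    (y : Fin n → Bool) (hy : s + 1 < wt y) : hat (fun x => (wt x : ℝ) * F x) y = 0 := by
  have h1 : hat (fun x => (wt x : ℝ) * F x) y
      = (n / 2 : ℝ) * hat F y - 1 / 2 * hat (fun x => ((n : ℝ) - 2 * wt x) * F x) y := by
    unfold hat
    rw [Finset.mul_sum, Finset.mul_sum, ← Finset.sum_sub_distrib]
    apply Finset.sum_congr rfl
    intro x _
    ring
  rw [h1, hat_mul_h, hF y (by omega)]
  have h2 : ∑ i, hat F (flp y i) = 0 := by
    apply Finset.sum_eq_zero
    intro i _
    apply hF
    cases hi : y i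
    · have := wt_flp_false y i hi
      omega
    · have := wt_flp_true y i hi
      omega
  rw [h2]
  ring

theorem hat_one {n : ℕ} (y : Fin n → Bool) (hy : 0 < wt y) :
    hat (fun _ : Fin n → Bool => (1 : ℝ)) y = 0 := by
  unfold hat
  have e : ∑ x : Fin n → Bool, 1 * chi x y = ∑ x, chi y x := by
    apply Finset.sum_congr rfl
    intro x _
    rw [one_mul, Tensor.chi_comm]
  rw [e, Tensor.sum_chi]
  obtain ⟨i, hi⟩ := Finset.card_pos.1 hy
  apply Finset.prod_eq_zero (Finset.mem_univ i)
  simp only [Finset.mem_filter, Finset.mem_univ, true_and] at hi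
  simp [hi]

theorem hat_wt_pow {n : ℕ} (j : ℕ) (y : Fin n → Bool) (hy : j < wt y) :
    hat (fun x : Fin n → Bool => (wt x : ℝ) ^ j) y = 0 := by
  induction j generalizing y with
  | zero => simpa using hat_one y hy
  | succ j ih =>
    have := hat_mul_wt (s := j) (fun x : Fin n → Bool => (wt x : ℝ) ^ j) (fun y hy => ih y hy) y hy
    simpa only [pow_succ'] using this

/-- a polynomial of degree at most `s` has level at most `s` -/
theorem hat_poly {n s : ℕ} (P : ℝ[X]) (hP : P.natDegree ≤ s) (y : Fin n → Bool)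
    (hy : s < wt y) : hat (pev P) y = 0 := by
  have h1 : hat (pev P) y
      = ∑ j ∈ range (s + 1), P.coeff j * hat (fun x : Fin n → Bool => (wt x : ℝ) ^ j) y := by
    unfold hat pev
    simp only [Finset.mul_sum]
    rw [Finset.sum_comm]
    apply Finset.sum_congr rfl
    intro x _
    rw [Polynomial.eval_eq_sum_range' (Nat.lt_succ_of_le hP), Finset.sum_mul]
    apply Finset.sum_congr rfl
    intro j _
    ring
  rw [h1]
  apply Finset.sum_eq_zero
  intro j hj
  rw [hat_wt_pow j y (by have := Finset.mem_range.1 hj; omega), mul_zero]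

/-- half of the cube is even -/
theorem Lf_one {n : ℕ} (hn : 1 ≤ n) : Lf n 1 = 1 := by
  show (2 / 2 ^ n) * ∑ x : Fin n → Bool, (if Even (wt x) then (1 : ℝ[X]).eval (wt x : ℝ) else 0)
    = 1
  have e : ∀ x : Fin n → Bool, (if Even (wt x) then (1 : ℝ[X]).eval (wt x : ℝ) else 0)
      = 1 / 2 * (1 + chi x (fun _ => true)) := by
    intro x
    rw [chi_ones]
    by_cases h : Even (wt x)
    · rw [if_pos h, h.neg_one_pow]
      norm_num
    · rw [if_neg h, (Nat.not_even_iff_odd.1 h).neg_one_pow]
      norm_num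
  simp only [e]
  rw [← Finset.mul_sum, Finset.sum_add_distrib]
  have h2 : ∑ x : Fin n → Bool, chi x (fun _ => true) = 0 := by
    have : ∑ x : Fin n → Bool, chi x (fun _ => true)
        = ∑ x : Fin n → Bool, chi (fun _ => true) x := by
      apply Finset.sum_congr rfl
      intro x _
      rw [Tensor.chi_comm]
    rw [this, Tensor.sum_chi]
    apply Finset.prod_eq_zero (Finset.mem_univ (⟨0, hn⟩ : Fin n))
    simp
  rw [h2]
  simp only [Finset.sum_const, Finset.card_univ, nsmul_eq_mul, add_zero, mul_one]
  rw [Fintype.card_fun, Fintype.card_fin, Fintype.card_bool]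
  push_cast
  field_simp

end Pool.Agent.Lib.MP_0430e4_lc.LPL
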