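import Pool.Agent.Lib.MP_0430e4_lc.LPL.CUB1
import Pool.Agent.Lib.MP_0430e4_lc.LPL.CUB2

set_option autoImplicit false

namespace Pool.Agent.Lib.MP_0430e4_lc.LPL

open Finset Filter Topology Polynomial
open Tensor (chi flp)
open Impr (wt lpBound)

/-- `fM M` as a polynomial -/
noncomputable def fP (M : Finset ℕ) : ℝ[X] := ∏ m ∈ M, (X - C (m : ℝ))

theorem fP_eval (M : Finset ℕ) (x : ℝ) : (fP M).eval x = fM M x := by
  unfold fP fM
  rw [eval_prod]
  simp

theorem fP_natDegree (M : Finset ℕ) : (fP M).natDegree = M.card := by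
  unfold fP
  rw [natDegree_prod_of_monic _ _ (fun m _ => monic_X_sub_C _)]
  simp only [natDegree_X_sub_C, Finset.sum_const, smul_eq_mul, mul_one]

/-- for level at most `s`: `⟨F, A F⟩ ≥ (n - 2s) ⟨F, F⟩` -/
theorem energy_lower {n s : ℕ} (P : ℝ[X]) (hP : P.natDegree ≤ s) :
    ((n : ℝ) - 2 * s) * ∑ x : Fin n → Bool, pev P x ^ 2
      ≤ ∑ x : Fin n → Bool, pev P x * ∑ i, pev P (flp x i) := by
  have h1 := parseval (pev (n := n) P) (fun x => ∑ i, pev P (flp x i))
  simp only [hat_adj] at h1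
  have h2 := parseval (pev (n := n) P) (pev P)
  have h3 : ((n : ℝ) - 2 * s) * ∑ y : Fin n → Bool, hat (pev P) y * hat (pev P) y
      ≤ ∑ y : Fin n → Bool, hat (pev P) y * (((n : ℝ) - 2 * wt y) * hat (pev P) y) := by
    rw [Finset.mul_sum]
    apply Finset.sum_le_sum
    intro y _
    by_cases hy : s < wt y
    · rw [hat_poly P hP y hy]
      simp
    · push Not at hy
      have h4 : (wt y : ℝ) ≤ s := by exact_mod_cast hy
      nlinarith [mul_self_nonneg (hat (pev P) y)]
  rw [h1, h2] at h3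
  have h4 : (0 : ℝ) < 2 ^ n := by positivity
  have e1 : ∀ x : Fin n → Bool, pev P x ^ 2 = pev P x * pev P x := fun x => sq _
  simp only [e1]
  have h5 : (2 : ℝ) ^ n * (((n : ℝ) - 2 * s) * ∑ x : Fin n → Bool, pev P x * pev P x)
      ≤ 2 ^ n * ∑ x : Fin n → Bool, pev P x * ∑ i, pev P (flp x i) := by
    refine le_trans (le_of_eq ?_) h3
    ring
  exact le_of_mul_le_mul_left h5 h4

namespace EDGE

/-- number of coordinates whose flip brings the weight to `m` -/
lemma card_ge {n d : ℕ} {M : Finset ℕ} (hM : Adm n d M) (x : Fin n → Bool)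
    (hx : ∃ m ∈ M, wt x = m + 1 ∨ wt x + 1 = m) :
    (d : ℝ) ≤ ((univ.filter fun i => wt (flp x i) ∈ M).card : ℝ) := by
  obtain ⟨m, hm, h⟩ := hx
  have hlo := hM.lo m hm
  have hhi := hM.hi m hm
  rcases h with h | h
  · -- flips of true coordinates
    have h1 : (univ.filter fun i => x i = true) ⊆ univ.filter fun i => wt (flp x i) ∈ M := by
      intro i hi
      rw [Finset.mem_filter] at hi ⊢
      refine ⟨Finset.mem_univ _, ?_⟩
      have h2 := wt_flp_true x i hi.2
      have h3 : wt (flp x i) = m := by omega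
      rw [h3]
      exact hm
    have h2 := Finset.card_le_card h1
    rw [card_true, h] at h2
    have h3 : d ≤ (univ.filter fun i => wt (flp x i) ∈ M).card := by omega
    exact_mod_cast h3
  · have h1 : (univ.filter fun i => x i = false) ⊆ univ.filter fun i => wt (flp x i) ∈ M := by
      intro i hi
      rw [Finset.mem_filter] at hi ⊢
      refine ⟨Finset.mem_univ _, ?_⟩
      have h2 := wt_flp_false x i hi.2
      have h3 : wt (flp x i) = m := by omega
      rw [h3]
      exact hm
    have h2 : ((univ.filter fun i => x i = false).card : ℝ)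
        ≤ ((univ.filter fun i => wt (flp x i) ∈ M).card : ℝ) := by
      exact_mod_cast Finset.card_le_card h1
    rw [card_false] at h2
    have h3 : (wt x : ℝ) + 1 = m := by exact_mod_cast h
    have h4 : (m : ℝ) + d < n := by exact_mod_cast hhi
    linarith

lemma zero_of_mem {M : Finset ℕ} {a : ℕ} (h : a ∈ M) : fM M (a : ℝ) = 0 := by
  unfold fM
  exact Finset.prod_eq_zero h (by simp)

/-- the weights of neighbours have different parity -/
lemma parity {n : ℕ} (x : Fin n → Bool) (i : Fin n) (h : Odd (wt x)) : ¬ Odd (wt (flp x i)) := by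
  rw [Nat.not_odd_iff_even]
  cases hx : x i
  · rw [wt_flp_false x i hx]
    exact h.add_one
  · have h1 := wt_flp_true x i hx
    rw [← h1] at h
    by_contra h2
    rw [Nat.not_even_iff_odd] at h2
    exact (Nat.not_odd_iff_even.mpr h2.add_one) h

end EDGE

/-- `2 n ∑ F^2 - 2 ⟨F, A F⟩ = ∑_{x,i} (F x - F (x^i))^2`, and the pairs with `wt x ∈ M` or
`wt (x^i) ∈ M` (disjoint, by parity) contribute at least `2 d ∑_{wt x ∈ M ± 1} F^2`. -/
theorem edge_mass {n d : ℕ} {M : Finset ℕ} (hM : Adm n d M) :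
    (d : ℝ) * ∑ x : Fin n → Bool,
        (if ∃ m ∈ M, wt x = m + 1 ∨ wt x + 1 = m then fM M (wt x) ^ 2 else 0)
      ≤ 2 * (M.card : ℝ) * ∑ x : Fin n → Bool, fM M (wt x) ^ 2 := by
  classical
  set F : (Fin n → Bool) → ℝ := fun x => fM M (wt x) with hF
  have h1 := energy_lower (n := n) (s := M.card) (fP M) (fP_natDegree M).le
  have e1 : ∀ x : Fin n → Bool, pev (fP M) x = F x := fun x => fP_eval M _
  simp only [e1] at h1
  -- the energy identity
  have h2 : ∑ x : Fin n → Bool, ∑ i, (F x - F (flp x i)) ^ 2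
      = 2 * n * ∑ x : Fin n → Bool, F x ^ 2 - 2 * ∑ x : Fin n → Bool, F x * ∑ i, F (flp x i) := by
    have h3 : ∑ x : Fin n → Bool, ∑ i, (F x - F (flp x i)) ^ 2
        = ∑ x : Fin n → Bool, ∑ _i : Fin n, F x ^ 2 + ∑ x : Fin n → Bool, ∑ i, F (flp x i) ^ 2
          - 2 * ∑ x : Fin n → Bool, F x * ∑ i, F (flp x i) := by
      rw [Finset.mul_sum, ← Finset.sum_add_distrib, ← Finset.sum_sub_distrib]
      apply Finset.sum_congr rfl
      intro x _
      rw [Finset.mul_sum, Finset.mul_sum, ← Finset.sum_add_distrib, ← Finset.sum_sub_distrib]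
      apply Finset.sum_congr rfl
      intro i _
      ring
    have h4 : ∑ x : Fin n → Bool, ∑ _i : Fin n, F x ^ 2 = n * ∑ x : Fin n → Bool, F x ^ 2 := by
      rw [Finset.mul_sum]
      apply Finset.sum_congr rfl
      intro x _
      simp
    have h5 : ∑ x : Fin n → Bool, ∑ i, F (flp x i) ^ 2 = n * ∑ x : Fin n → Bool, F x ^ 2 := by
      rw [Finset.sum_comm]
      have h6 : ∀ i : Fin n, ∑ x : Fin n → Bool, F (flp x i) ^ 2
          = ∑ x : Fin n → Bool, F x ^ 2 := fun i => Tensor.sum_flp i (fun x => F x ^ 2)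
      simp [h6]
    rw [h3, h4, h5]
    ring
  -- the lower bound of the energy
  have h3 : ∑ x : Fin n → Bool, ∑ i, ((if wt (flp x i) ∈ M then F x ^ 2 else 0)
      + (if wt x ∈ M then F (flp x i) ^ 2 else 0))
      ≤ ∑ x : Fin n → Bool, ∑ i, (F x - F (flp x i)) ^ 2 := by
    apply Finset.sum_le_sum
    intro x _
    apply Finset.sum_le_sum
    intro i _
    by_cases ha : wt (flp x i) ∈ M
    · have hb : wt x ∉ M := by
        intro hb
        exact EDGE.parity x i (hM.odd _ hb) (hM.odd _ ha)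
      rw [if_pos ha, if_neg hb]
      have : F (flp x i) = 0 := EDGE.zero_of_mem ha
      rw [this]
      simp
    · by_cases hb : wt x ∈ M
      · rw [if_neg ha, if_pos hb]
        have : F x = 0 := EDGE.zero_of_mem hb
        rw [this]
        simp
      · rw [if_neg ha, if_neg hb]
        simp only [add_zero]
        positivity
  have h4 : ∑ x : Fin n → Bool, ∑ i, (if wt x ∈ M then F (flp x i) ^ 2 else 0)
      = ∑ x : Fin n → Bool, ∑ i, (if wt (flp x i) ∈ M then F x ^ 2 else 0) := by
    rw [Finset.sum_comm, Finset.sum_comm (f := fun (x : Fin n → Bool) i =>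
      (if wt (flp x i) ∈ M then F x ^ 2 else 0))]
    apply Finset.sum_congr rfl
    intro i _
    rw [← Tensor.sum_flp i (fun x => if wt x ∈ M then F (flp x i) ^ 2 else 0)]
    apply Finset.sum_congr rfl
    intro x _
    rw [Tensor.flp_flp]
  have h5 : (d : ℝ) * ∑ x : Fin n → Bool,
        (if ∃ m ∈ M, wt x = m + 1 ∨ wt x + 1 = m then F x ^ 2 else 0)
      ≤ ∑ x : Fin n → Bool, ∑ i, (if wt (flp x i) ∈ M then F x ^ 2 else 0) := by
    rw [Finset.mul_sum]
    apply Finset.sum_le_sum
    intro x _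
    rw [← Finset.sum_filter, Finset.sum_const, nsmul_eq_mul]
    by_cases hx : ∃ m ∈ M, wt x = m + 1 ∨ wt x + 1 = m
    · rw [if_pos hx]
      exact mul_le_mul_of_nonneg_right (EDGE.card_ge hM x hx) (sq_nonneg _)
    · rw [if_neg hx, mul_zero]
      positivity
  simp only [Finset.sum_add_distrib] at h3
  rw [h4, h2] at h3
  simp only [hF] at h1 h3 h5 ⊢
  linarith

end Pool.Agent.Lib.MP_0430e4_lc.LPL
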