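import Pool.Agent.Lib.MP_0430e4_lc.LPL.CUB1
import Pool.Agent.Lib.MP_0430e4_lc.LPL.CUB2

set_option autoImplicit false

namespace Pool.Agent.Lib.MP_0430e4_lc.LPL

open Finset Filter Topology Polynomial
open Tensor (chi flp)
open Impr (wt lpBound)

namespace NORM

lemma chi_ones {n : ℕ} (x : Fin n → Bool) :
    chi x (fun _ => true) = if Even (wt x) then 1 else -1 := by
  have h1 : chi x (fun _ => true) = (-1 : ℝ) ^ wt x := by
    unfold chi wt
    have h2 : ∀ i, (if x i = true ∧ (fun _ : Fin n => true) i = true then (-1 : ℝ) else 1)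
        = if x i = true then -1 else 1 := by
      intro i
      simp
    rw [Finset.prod_congr rfl (fun i _ => h2 i), Finset.prod_ite]
    simp
  rw [h1]
  split_ifs with h
  · exact h.neg_one_pow
  · exact (Nat.not_even_iff_odd.mp h).neg_one_pow

lemma hat_mul_ones {n : ℕ} (F : (Fin n → Bool) → ℝ) (y : Fin n → Bool) :
    hat (fun x => chi x (fun _ => true) * F x) y = hat F (fun i => !(y i)) := by
  unfold hat
  apply Finset.sum_congr rfl
  intro x _
  have h1 : chi x (fun i => !(y i)) = chi x (fun _ => true) * chi x y := by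
    have h2 : (fun i => !(y i)) = fun i => xor ((fun _ : Fin n => true) i) (y i) := by
      funext i
      simp
    rw [h2, Tensor.chi_comm x, Tensor.chi_xor, Tensor.chi_comm, Tensor.chi_comm y]
  rw [h1]
  ring

lemma sum_ite_split {n : ℕ} (y : Fin n → Bool) (g : Fin n → ℝ) :
    ∑ i, g i = ∑ i, (if y i = true then g i else 0) + ∑ i, (if y i = false then g i else 0) := by
  rw [← Finset.sum_add_distrib]
  apply Finset.sum_congr rfl
  intro i _
  cases h : y i <;> simp

lemma sq_sum_filter_le {n : ℕ} (S : Finset (Fin n)) (g : Fin n → ℝ) :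
    (∑ i ∈ S, g i) ^ 2 ≤ (S.card : ℝ) * ∑ i ∈ S, g i ^ 2 := by
  exact sq_sum_le_card_mul_sum_sq

end NORM

/-- the even half carries half of the mass, if `2 deg < n` -/
theorem even_half {n s : ℕ} (P : ℝ[X]) (hP : P.natDegree ≤ s) (hs : 2 * s < n) :
    2 * ∑ x : Fin n → Bool, (if Even (wt x) then pev P x ^ 2 else 0)
      = ∑ x : Fin n → Bool, pev P x ^ 2 := by
  have h1 := parseval (pev (n := n) P) (fun x => chi x (fun _ => true) * pev P x)
  have h2 : ∑ y : Fin n → Bool, hat (pev P) y * hat (fun x => chi x (fun _ => true) * pev P x) y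
      = 0 := by
    apply Finset.sum_eq_zero
    intro y _
    rw [NORM.hat_mul_ones]
    by_cases hy : s < wt y
    · rw [hat_poly P hP y hy, zero_mul]
    · have h3 : s < wt (fun i => !(y i)) := by
        rw [wt_compl]
        omega
      rw [hat_poly P hP _ h3, mul_zero]
  rw [h2] at h1
  have h3 : ∑ x : Fin n → Bool, pev P x * (chi x (fun _ => true) * pev P x) = 0 := by
    have h4 : (2 : ℝ) ^ n ≠ 0 := by positivity
    exact (mul_eq_zero.mp h1.symm).resolve_left h4
  have h4 : ∑ x : Fin n → Bool, pev P x * (chi x (fun _ => true) * pev P x)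
      = 2 * ∑ x : Fin n → Bool, (if Even (wt x) then pev P x ^ 2 else 0)
        - ∑ x : Fin n → Bool, pev P x ^ 2 := by
    rw [Finset.mul_sum, ← Finset.sum_sub_distrib]
    apply Finset.sum_congr rfl
    intro x _
    rw [NORM.chi_ones]
    split_ifs <;> ring
  linarith

/-- Schur test for the adjacency operator of the cube on functions supported on levels
`≤ s`: `(A F)(y)^2 ≤ 2 |y| ∑_{i ∈ y} F(y^i)^2 + 2 (n - |y|) ∑_{i ∉ y} F(y^i)^2`, so
`∑ (A F)^2 ≤ ∑_z F(z)^2 (2 (k+1)(n-k) + 2 (n-k+1) k)`, `k = wt z ≤ s`. -/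
theorem adj_norm {n s : ℕ} (hs : 2 * s + 1 ≤ n) (F : (Fin n → Bool) → ℝ)
    (hF : ∀ z, s < wt z → F z = 0) :
    ∑ y, (∑ i, F (flp y i)) ^ 2 ≤ 4 * ((s : ℝ) + 1) * ((n : ℝ) - s) * ∑ z, F z ^ 2 := by
  classical
  have hns : (2 : ℝ) * s + 1 ≤ n := by exact_mod_cast hs
  -- pointwise
  have h1 : ∀ y : Fin n → Bool, (∑ i, F (flp y i)) ^ 2
      ≤ ∑ i, (if y i = true then 2 * (wt y : ℝ) * F (flp y i) ^ 2 else 0)
        + ∑ i, (if y i = false then 2 * ((n : ℝ) - wt y) * F (flp y i) ^ 2 else 0) := by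
    intro y
    rw [NORM.sum_ite_split y (fun i => F (flp y i))]
    rw [← Finset.sum_filter, ← Finset.sum_filter, ← Finset.sum_filter, ← Finset.sum_filter,
      ← Finset.mul_sum, ← Finset.mul_sum]
    have h2 := NORM.sq_sum_filter_le (univ.filter fun i => y i = true) (fun i => F (flp y i))
    have h3 := NORM.sq_sum_filter_le (univ.filter fun i => y i = false) (fun i => F (flp y i))
    rw [card_true] at h2
    rw [card_false] at h3
    set a := ∑ i ∈ univ.filter (fun i => y i = true), F (flp y i)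
    set b := ∑ i ∈ univ.filter (fun i => y i = false), F (flp y i)
    nlinarith [sq_nonneg (a - b)]
  refine (Finset.sum_le_sum fun y _ => h1 y).trans ?_
  rw [Finset.sum_add_distrib, Finset.sum_comm (f := fun y i =>
    if y i = true then 2 * (wt y : ℝ) * F (flp y i) ^ 2 else 0), Finset.sum_comm (f := fun y i =>
    if y i = false then 2 * ((n : ℝ) - wt y) * F (flp y i) ^ 2 else 0)]
  have h4 : ∀ i, ∑ y : Fin n → Bool, (if y i = true then 2 * (wt y : ℝ) * F (flp y i) ^ 2 else 0)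
      = ∑ z : Fin n → Bool, (if z i = false then 2 * ((wt z : ℝ) + 1) * F z ^ 2 else 0) := by
    intro i
    rw [← Tensor.sum_flp i (fun y => if y i = true then 2 * (wt y : ℝ) * F (flp y i) ^ 2 else 0)]
    apply Finset.sum_congr rfl
    intro z _
    have h5 : flp z i i = !(z i) := by simp [flp]
    rw [h5, Tensor.flp_flp]
    cases h : z i
    · have h6 := wt_flp_false z i h
      simp only [Bool.not_false, if_true, h6]
      push_cast
      ring
    · simp
  have h5 : ∀ i, ∑ y : Fin n → Bool, (if y i = false then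
      2 * ((n : ℝ) - wt y) * F (flp y i) ^ 2 else 0)
      = ∑ z : Fin n → Bool, (if z i = true then 2 * ((n : ℝ) - wt z + 1) * F z ^ 2 else 0) := by
    intro i
    rw [← Tensor.sum_flp i (fun y => if y i = false then
      2 * ((n : ℝ) - wt y) * F (flp y i) ^ 2 else 0)]
    apply Finset.sum_congr rfl
    intro z _
    have h5 : flp z i i = !(z i) := by simp [flp]
    rw [h5, Tensor.flp_flp]
    cases h : z i
    · simp
    · have h6 := wt_flp_true z i h
      have h7 : (wt z : ℝ) = wt (flp z i) + 1 := by exact_mod_cast h6.symm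
      simp only [Bool.not_true, if_true, h7]
      ring
  simp only [h4, h5]
  rw [Finset.sum_comm (f := fun (i : Fin n) (z : Fin n → Bool) =>
    if z i = false then 2 * ((wt z : ℝ) + 1) * F z ^ 2 else 0),
    Finset.sum_comm (f := fun (i : Fin n) (z : Fin n → Bool) =>
    if z i = true then 2 * ((n : ℝ) - wt z + 1) * F z ^ 2 else 0), ← Finset.sum_add_distrib,
    Finset.mul_sum]
  apply Finset.sum_le_sum
  intro z _
  rw [← Finset.sum_filter, ← Finset.sum_filter, Finset.sum_const, Finset.sum_const,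
    nsmul_eq_mul, nsmul_eq_mul, card_true, card_false]
  by_cases hz : s < wt z
  · rw [hF z hz]
    simp
  · push Not at hz
    have hk : (wt z : ℝ) ≤ s := by exact_mod_cast hz
    have hk0 : (0 : ℝ) ≤ wt z := by positivity
    have h6 : ((wt z : ℝ) + 1) * ((n : ℝ) - wt z) ≤ ((s : ℝ) + 1) * ((n : ℝ) - s) := by
      nlinarith
    have h7 : (wt z : ℝ) * ((n : ℝ) - wt z + 1) ≤ ((s : ℝ) + 1) * ((n : ℝ) - s) := by
      nlinarith
    have h8 : 0 ≤ F z ^ 2 := sq_nonneg _
    have h9 : ((n : ℝ) - wt z) * (2 * ((wt z : ℝ) + 1) * F z ^ 2)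
        + (wt z : ℝ) * (2 * ((n : ℝ) - wt z + 1) * F z ^ 2)
        = 2 * (((wt z : ℝ) + 1) * ((n : ℝ) - wt z) + (wt z : ℝ) * ((n : ℝ) - wt z + 1))
          * F z ^ 2 := by ring
    rw [h9]
    apply mul_le_mul_of_nonneg_right _ h8
    linarith

theorem norm_mul {n s k T : ℕ} (P : ℝ[X]) (hP : P.natDegree ≤ s) (hT : s + k ≤ T)
    (hn : 2 * T ≤ n + 1) :
    ∑ x : Fin n → Bool, (((n : ℝ) - 2 * wt x) ^ k * pev P x) ^ 2
      ≤ (4 * (T : ℝ) * ((n : ℝ) - T + 1)) ^ k * ∑ x : Fin n → Bool, pev P x ^ 2 := by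
  induction k with
  | zero => simp
  | succ k ih =>
    have ih' := ih (by omega)
    -- the function with `k` factors as a polynomial
    set Q : ℝ[X] := (C (n : ℝ) - 2 * X) ^ k * P with hQ
    have hQe : ∀ x : Fin n → Bool, pev Q x = ((n : ℝ) - 2 * wt x) ^ k * pev P x := by
      intro x
      simp [pev, hQ]
    have hQd : Q.natDegree ≤ s + k := by
      have h1 : (C (n : ℝ) - 2 * X : ℝ[X]).natDegree ≤ 1 := by
        have h2 : (C (n : ℝ) - 2 * X : ℝ[X]) = C (-2) * X + C (n : ℝ) := by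
          simp only [map_neg, map_ofNat]
          ring
        rw [h2]
        exact natDegree_linear_le
      have h2 := natDegree_mul_le (p := (C (n : ℝ) - 2 * X : ℝ[X]) ^ k) (q := P)
      have h3 := natDegree_pow_le (p := (C (n : ℝ) - 2 * X : ℝ[X])) (n := k)
      have h4 : k * (C (n : ℝ) - 2 * X : ℝ[X]).natDegree ≤ k * 1 := Nat.mul_le_mul_left k h1
      rw [hQ]
      omega
    have h1 := parseval (fun x : Fin n → Bool => ((n : ℝ) - 2 * wt x) * pev Q x)
      (fun x => ((n : ℝ) - 2 * wt x) * pev Q x)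
    simp only [hat_mul_h] at h1
    have h2 := adj_norm (n := n) (s := s + k) (by omega) (fun y => hat (pev Q) y)
      (fun z hz => hat_poly Q hQd z hz)
    have h3 := parseval (pev (n := n) Q) (pev Q)
    have h4 : ∑ y : Fin n → Bool, (∑ i, hat (pev Q) (flp y i)) ^ 2
        = 2 ^ n * ∑ x : Fin n → Bool, (((n : ℝ) - 2 * wt x) * pev Q x) ^ 2 := by
      have e1 : ∀ y : Fin n → Bool, (∑ i, hat (pev Q) (flp y i)) ^ 2
          = (∑ i, hat (pev Q) (flp y i)) * ∑ i, hat (pev Q) (flp y i) := fun y => sq _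
      have e2 : ∀ x : Fin n → Bool, (((n : ℝ) - 2 * wt x) * pev Q x) ^ 2
          = ((n : ℝ) - 2 * wt x) * pev Q x * (((n : ℝ) - 2 * wt x) * pev Q x) := fun y => sq _
      simp only [e1, e2]
      exact h1
    have h5 : ∑ y : Fin n → Bool, hat (pev Q) y ^ 2 = 2 ^ n * ∑ x : Fin n → Bool, pev Q x ^ 2 := by
      simp only [sq]
      exact h3
    rw [h4, h5] at h2
    have h6 : ∑ x : Fin n → Bool, (((n : ℝ) - 2 * wt x) * pev Q x) ^ 2
        ≤ 4 * (((s + k : ℕ) : ℝ) + 1) * ((n : ℝ) - (s + k : ℕ)) * ∑ x : Fin n → Bool, pev Q x ^ 2 := by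
      have h7 : (0 : ℝ) < 2 ^ n := by positivity
      have h8 : (2 : ℝ) ^ n * ∑ x : Fin n → Bool, (((n : ℝ) - 2 * wt x) * pev Q x) ^ 2
          ≤ 2 ^ n * (4 * (((s + k : ℕ) : ℝ) + 1) * ((n : ℝ) - (s + k : ℕ))
            * ∑ x : Fin n → Bool, pev Q x ^ 2) := by
        refine h2.trans (le_of_eq ?_)
        ring
      exact le_of_mul_le_mul_left h8 h7
    have hT' : ((s + k : ℕ) : ℝ) + 1 ≤ T := by exact_mod_cast (by omega : s + k + 1 ≤ T)
    have hn' : (2 : ℝ) * T ≤ n + 1 := by exact_mod_cast hn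
    have h7 : 4 * (((s + k : ℕ) : ℝ) + 1) * ((n : ℝ) - (s + k : ℕ))
        ≤ 4 * (T : ℝ) * ((n : ℝ) - T + 1) := by
      have h8 : (0 : ℝ) ≤ ((s + k : ℕ) : ℝ) := by positivity
      nlinarith
    have h8 : (0 : ℝ) ≤ 4 * (T : ℝ) * ((n : ℝ) - T + 1) := by
      have : (0 : ℝ) ≤ T := by positivity
      have : (0 : ℝ) ≤ (n : ℝ) - T + 1 := by linarith
      positivity
    have h9 : 0 ≤ ∑ x : Fin n → Bool, pev Q x ^ 2 := Finset.sum_nonneg fun x _ => sq_nonneg _
    have e1 : ∀ x : Fin n → Bool, (((n : ℝ) - 2 * wt x) ^ (k + 1) * pev P x) ^ 2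
        = (((n : ℝ) - 2 * wt x) * pev Q x) ^ 2 := by
      intro x
      rw [hQe]
      ring
    simp only [e1]
    simp only [← hQe] at ih'
    calc ∑ x : Fin n → Bool, (((n : ℝ) - 2 * wt x) * pev Q x) ^ 2
        ≤ 4 * (((s + k : ℕ) : ℝ) + 1) * ((n : ℝ) - (s + k : ℕ))
          * ∑ x : Fin n → Bool, pev Q x ^ 2 := h6
      _ ≤ 4 * (T : ℝ) * ((n : ℝ) - T + 1) * ∑ x : Fin n → Bool, pev Q x ^ 2 :=
          mul_le_mul_of_nonneg_right h7 h9
      _ ≤ 4 * (T : ℝ) * ((n : ℝ) - T + 1) * ((4 * (T : ℝ) * ((n : ℝ) - T + 1)) ^ k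
          * ∑ x : Fin n → Bool, pev P x ^ 2) := mul_le_mul_of_nonneg_left ih' h8
      _ = (4 * (T : ℝ) * ((n : ℝ) - T + 1)) ^ (k + 1) * ∑ x : Fin n → Bool, pev P x ^ 2 := by
          ring

end Pool.Agent.Lib.MP_0430e4_lc.LPL
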