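import Pool.Agent.Lib.MP_0430e4_lc.LPL.QF
import Pool.Agent.Lib.MP_0430e4_lc.LPL.EDGE
import Pool.Agent.Lib.MP_0430e4_lc.LPL.NORM

set_option autoImplicit false

namespace Pool.Agent.Lib.MP_0430e4_lc.LPL

open Finset Filter Topology Polynomial
open Tensor (chi flp)
open Impr (wt lpBound)

theorem case_two {n d t k : ℕ} {R : ℝ} (h : NC n d t k R) {M : Finset ℕ} (hM : Adm n d M)
    (hc : M.card + 1 = t) :
    0 ≤ ∑ x : Fin n → Bool, if Even (wt x) then
      ((wt x : ℝ) - d) * ((n : ℝ) - d - wt x) * qM M (wt x) else 0 := by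
  classical
  set S : ℝ := ∑ x : Fin n → Bool, fM M (wt x) ^ 2 with hS
  have hS0 : 0 ≤ S := Finset.sum_nonneg fun x _ => sq_nonneg _
  have hdt := h.hdt
  have hd1 := h.hd1
  have hdn := h.hdn
  have hk := h.hk
  have hR := h.hR
  have hd0 : (0 : ℝ) < d := by exact_mod_cast hd1
  have hMt : (M.card : ℝ) = (t : ℝ) - 1 := by
    rw [← hc]
    push_cast
    ring
  have hpe : ∀ x : Fin n → Bool, pev (fP M) x = fM M (wt x) := fun x => fP_eval M _
  -- the even half
  have h1 := even_half (n := n) (s := M.card) (fP M) (fP_natDegree M).le (by omega)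
  simp only [hpe] at h1
  rw [← hS] at h1
  have h2 := edge_mass hM
  rw [← hS, hMt] at h2
  set Em : ℝ := ∑ x : Fin n → Bool,
    (if ∃ m ∈ M, wt x = m + 1 ∨ wt x + 1 = m then fM M (wt x) ^ 2 else 0) with hEm
  have h2' : Em ≤ 2 * ((t : ℝ) - 1) / d * S := by
    rw [div_mul_eq_mul_div, le_div_iff₀ hd0]
    linarith
  -- lower bound for the sum of q
  have h3 : 1 / 2 * (1 / 2 - 2 * ((t : ℝ) - 1) / d) * S
      ≤ ∑ x : Fin n → Bool, (if Even (wt x) then qM M (wt x) else 0) := by
    have h4 : ∑ x : Fin n → Bool, 1 / 2 * ((if Even (wt x) then fM M (wt x) ^ 2 else 0)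
        - (if ∃ m ∈ M, wt x = m + 1 ∨ wt x + 1 = m then fM M (wt x) ^ 2 else 0))
        ≤ ∑ x : Fin n → Bool, (if Even (wt x) then qM M (wt x) else 0) := by
      apply Finset.sum_le_sum
      intro x _
      by_cases hx : Even (wt x)
      · rw [if_pos hx, if_pos hx]
        by_cases hxM : ∃ m ∈ M, wt x = m + 1 ∨ wt x + 1 = m
        · rw [if_pos hxM, sub_self, mul_zero]
          exact qM_nonneg hM hx
        · rw [if_neg hxM, sub_zero]
          exact qM_ge hM hx hxM
      · rw [if_neg hx, if_neg hx]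
        have : 0 ≤ (if ∃ m ∈ M, wt x = m + 1 ∨ wt x + 1 = m then fM M (wt x : ℝ) ^ 2 else 0) := by
          split_ifs
          · positivity
          · exact le_rfl
        linarith
    rw [← Finset.mul_sum, Finset.sum_sub_distrib, ← hEm] at h4
    refine le_trans ?_ h4
    have : ∑ x : Fin n → Bool, (if Even (wt x) then fM M (wt x : ℝ) ^ 2 else 0) = S / 2 := by
      linarith
    rw [this]
    linarith
  -- the tail
  set η : ℝ := (4 * ((t : ℝ) + k) * ((n : ℝ) - (t + k) + 1) / R) ^ k with hη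
  have h5 : ∑ x : Fin n → Bool, (if R < ((n : ℝ) - 2 * wt x) ^ 2 then fM M (wt x) ^ 2 else 0)
      ≤ η * S := by
    have h6 := norm_mul (n := n) (s := M.card) (k := k) (T := t + k) (fP M) (fP_natDegree M).le
      (by omega) (by omega)
    simp only [hpe] at h6
    rw [← hS] at h6
    have h7 : R ^ k * ∑ x : Fin n → Bool,
        (if R < ((n : ℝ) - 2 * wt x) ^ 2 then fM M (wt x) ^ 2 else 0)
        ≤ ∑ x : Fin n → Bool, (((n : ℝ) - 2 * wt x) ^ k * fM M (wt x)) ^ 2 := by
      rw [Finset.mul_sum]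
      apply Finset.sum_le_sum
      intro x _
      split_ifs with hx
      · have h8 : R ^ k ≤ (((n : ℝ) - 2 * wt x) ^ 2) ^ k := pow_le_pow_left₀ hR.le hx.le k
        have h9 : (((n : ℝ) - 2 * wt x) ^ k * fM M (wt x)) ^ 2
            = (((n : ℝ) - 2 * wt x) ^ 2) ^ k * fM M (wt x) ^ 2 := by
          rw [mul_pow, ← pow_mul, ← pow_mul, mul_comm k 2]
        rw [h9]
        exact mul_le_mul_of_nonneg_right h8 (sq_nonneg _)
      · rw [mul_zero]
        positivity
    have hRk : 0 < R ^ k := pow_pos hR k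
    have h8 := h7.trans h6
    rw [hη, div_pow, div_mul_eq_mul_div, le_div_iff₀ hRk, mul_comm]
    refine h8.trans (le_of_eq ?_)
    push_cast
    ring
  -- combination
  have h6 : (((n : ℝ) - 2 * d) ^ 2 - R) * ∑ x : Fin n → Bool,
      (if Even (wt x) then qM M (wt x) else 0)
      - (n : ℝ) ^ 2 * ∑ x : Fin n → Bool,
        (if R < ((n : ℝ) - 2 * wt x) ^ 2 then fM M (wt x) ^ 2 else 0)
      ≤ 4 * ∑ x : Fin n → Bool, (if Even (wt x) then
      ((wt x : ℝ) - d) * ((n : ℝ) - d - wt x) * qM M (wt x) else 0) := by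
    rw [Finset.mul_sum, Finset.mul_sum, Finset.mul_sum, ← Finset.sum_sub_distrib]
    apply Finset.sum_le_sum
    intro x _
    have hwn : (wt x : ℝ) ≤ n := by exact_mod_cast wt_le x
    have hw0 : (0 : ℝ) ≤ wt x := by positivity
    by_cases hx : Even (wt x)
    · rw [if_pos hx, if_pos hx]
      have hq0 := qM_nonneg hM hx
      have hq1 := qM_le hM hx
      have hid : 4 * (((wt x : ℝ) - d) * ((n : ℝ) - d - wt x) * qM M (wt x))
          = (((n : ℝ) - 2 * d) ^ 2 - ((n : ℝ) - 2 * wt x) ^ 2) * qM M (wt x) := by ring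
      rw [hid]
      by_cases hr : R < ((n : ℝ) - 2 * wt x) ^ 2
      · rw [if_pos hr]
        have h7 : ((n : ℝ) - 2 * wt x) ^ 2 ≤ (n : ℝ) ^ 2 := by nlinarith
        have h8 : (((n : ℝ) - 2 * wt x) ^ 2 - R) * qM M (wt x)
            ≤ (n : ℝ) ^ 2 * fM M (wt x) ^ 2 := by
          apply mul_le_mul _ hq1 hq0 (by positivity)
          linarith
        linarith
      · rw [if_neg hr, mul_zero, sub_zero]
        push Not at hr
        apply mul_le_mul_of_nonneg_right _ hq0
        linarith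
    · rw [if_neg hx, if_neg hx, mul_zero, mul_zero, zero_sub, neg_nonpos]
      apply mul_nonneg (by positivity)
      split_ifs
      · positivity
      · exact le_rfl
  have h7 := h.heta
  rw [← hη] at h7
  have hRD := h.hRD
  have h8 : (((n : ℝ) - 2 * d) ^ 2 - R) * (1 / 2 * (1 / 2 - 2 * ((t : ℝ) - 1) / d) * S)
      ≤ (((n : ℝ) - 2 * d) ^ 2 - R) * ∑ x : Fin n → Bool,
      (if Even (wt x) then qM M (wt x) else 0) :=
    mul_le_mul_of_nonneg_left h3 (by linarith)
  have h9 : (n : ℝ) ^ 2 * ∑ x : Fin n → Bool,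
      (if R < ((n : ℝ) - 2 * wt x) ^ 2 then fM M (wt x) ^ 2 else 0) ≤ (n : ℝ) ^ 2 * (η * S) :=
    mul_le_mul_of_nonneg_left h5 (by positivity)
  have h10 := mul_le_mul_of_nonneg_right h7 hS0
  have hη0 : 0 ≤ (n : ℝ) ^ 2 * (η * S) := by
    refine le_trans ?_ h9
    apply mul_nonneg (by positivity)
    apply Finset.sum_nonneg
    intro x _
    split_ifs
    · positivity
    · exact le_rfl
  nlinarith

end Pool.Agent.Lib.MP_0430e4_lc.LPL
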