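import Pool.Agent.Lib.MP_0430e4_lc.LPL.Gale

/-!
# The structure of the extreme polynomials
-/

set_option autoImplicit false

namespace Pool.Agent.Lib.MP_0430e4_lc.LPL

open Finset Polynomial

/-- the sign of a product of linear factors -/
private theorem prod_sign (Z : Finset ℕ) (x : ℕ) (hx : x ∉ Z) :
    0 < (-1 : ℝ) ^ (Z.filter fun z => x < z).card * ∏ z ∈ Z, ((x : ℝ) - z) := by
  rw [← Finset.prod_filter_mul_prod_filter_not Z (fun z => x < z), ← mul_assoc]
  refine mul_pos ?_ ?_
  · rw [← Finset.prod_const, ← Finset.prod_mul_distrib]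
    refine Finset.prod_pos fun z hz => ?_
    have : (x : ℝ) < z := by exact_mod_cast (Finset.mem_filter.1 hz).2
    linarith
  · refine Finset.prod_pos fun z hz => ?_
    obtain ⟨h1, h2⟩ := Finset.mem_filter.1 hz
    have h3 : z < x := lt_of_le_of_ne (not_lt.1 h2) (fun h => hx (h ▸ h1))
    have : (z : ℝ) < x := by exact_mod_cast h3
    linarith

/-- factorisation of a polynomial with as many zeros as its degree -/
private theorem factor {s : ℕ} (P : ℝ[X]) (hP : P.natDegree ≤ s) (h0 : P ≠ 0) (Z : Finset ℕ)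
    (hZ : ∀ z ∈ Z, P.eval (z : ℝ) = 0) (hs : s ≤ Z.card) :
    Z.card = s ∧ P.leadingCoeff ≠ 0 ∧
      ∀ x : ℝ, P.eval x = P.leadingCoeff * ∏ z ∈ Z, (x - (z : ℝ)) := by
  have hinj : Function.Injective (fun z : ℕ => (z : ℝ)) := Nat.cast_injective
  have hle : Z.val.map (fun z : ℕ => (z : ℝ)) ≤ P.roots := by
    rw [Multiset.le_iff_subset (Multiset.Nodup.map hinj Z.nodup)]
    intro r hr
    obtain ⟨z, hz, rfl⟩ := Multiset.mem_map.1 hr
    exact (mem_roots h0).2 (hZ z hz)
  have hc1 : P.roots.card ≤ P.natDegree := card_roots' P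
  have hc2 : Z.card ≤ P.roots.card := by
    have := Multiset.card_le_card hle
    simpa using this
  have heq : Z.val.map (fun z : ℕ => (z : ℝ)) = P.roots := by
    refine Multiset.eq_of_le_of_card_le hle ?_
    rw [Multiset.card_map]
    change _ ≤ Z.card
    omega
  refine ⟨by omega, leadingCoeff_ne_zero.2 h0, fun x => ?_⟩
  have h := C_leadingCoeff_mul_prod_multiset_X_sub_C (p := P) (by omega)
  conv_lhs => rw [← h]
  rw [← heq, Multiset.map_map, eval_mul, eval_C]
  congr 1
  change (∏ z ∈ Z, ((fun a : ℝ => X - C a) ∘ fun z : ℕ => (z : ℝ)) z).eval x = _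
  rw [eval_prod]
  simp

/-- The structure of the extreme polynomials. `P = c ∏_{z ∈ Z} (x - z)` with `Z ⊆ Ev n d`,
`|Z| = 2t`; the sign of `P` at `x ∉ Z` is that of `c (-1)^#{z ∈ Z : z > x}`. If `c > 0` apply
`gale` to `Z`, if `c < 0` then `d, n - d ∈ Z` and `gale` applies to `Z \ {d, n - d}`. -/
theorem structure_ext {n d t : ℕ} (hn : Even n) (hd : Even d) (hdn : 2 * d ≤ n) (ht : 1 ≤ t)
    (hc : 4 * t ≤ n - 2 * d) (P : ℝ[X]) (hP : P.natDegree ≤ 2 * t)
    (hpos : ∀ a ∈ Ev n d, 0 ≤ P.eval (a : ℝ))
    (hz : 2 * t ≤ ((Ev n d).filter fun a : ℕ => P.eval (a : ℝ) = 0).card) :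
    P = 0 ∨ (∃ (c : ℝ) (M : Finset ℕ), 0 < c ∧ Adm n d M ∧ M.card = t ∧
        ∀ x : ℝ, P.eval x = c * qM M x) ∨
      ∃ (c : ℝ) (M : Finset ℕ), 0 < c ∧ Adm n d M ∧ M.card + 1 = t ∧
        ∀ x : ℝ, P.eval x = c * ((x - d) * ((n : ℝ) - d - x) * qM M x) := by
  by_cases h0 : P = 0
  · exact Or.inl h0
  right
  set Z : Finset ℕ := (Ev n d).filter fun a : ℕ => P.eval (a : ℝ) = 0 with hZdef
  have hZmem : ∀ z ∈ Z, Even z ∧ d ≤ z ∧ z ≤ n - d := by
    intro z hz
    have := (Finset.mem_filter.1 hz).1
    simp only [Ev, Finset.mem_filter, Finset.mem_range] at this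
    obtain ⟨h1, h2, h3, h4⟩ := this
    exact ⟨h2, h3, by omega⟩
  obtain ⟨hcard, hlc, hfac⟩ := factor P hP h0 Z (fun z hz => (Finset.mem_filter.1 hz).2) hz
  have hEv : ∀ x : ℕ, Even x → d ≤ x → x ≤ n - d → x ∈ Ev n d := by
    intro x h1 h2 h3
    simp only [Ev, Finset.mem_filter, Finset.mem_range]
    exact ⟨by omega, h1, h2, by omega⟩
  have hsign : ∀ x : ℕ, Even x → d ≤ x → x ≤ n - d → x ∉ Z →
      0 < P.leadingCoeff * (-1 : ℝ) ^ (Z.filter fun z => x < z).card := by
    intro x h1 h2 h3 h4
    have h5 := hpos x (hEv x h1 h2 h3)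
    have h6 : P.eval (x : ℝ) ≠ 0 := fun h => h4 (Finset.mem_filter.2 ⟨hEv x h1 h2 h3, h⟩)
    have h7 : 0 < P.eval (x : ℝ) := lt_of_le_of_ne h5 (Ne.symm h6)
    have h8 := prod_sign Z x h4
    rw [hfac] at h7
    have h9 := mul_pos h7 h8
    have h10 : P.leadingCoeff * (∏ z ∈ Z, ((x : ℝ) - z)) *
        ((-1) ^ (Z.filter fun z => x < z).card * ∏ z ∈ Z, ((x : ℝ) - z))
        = P.leadingCoeff * (-1 : ℝ) ^ (Z.filter fun z => x < z).card *
          (∏ z ∈ Z, ((x : ℝ) - z)) ^ 2 := by ring
    rw [h10] at h9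
    by_contra hcon
    have := mul_nonpos_of_nonpos_of_nonneg (not_lt.1 hcon)
      (sq_nonneg (∏ z ∈ Z, ((x : ℝ) - z)))
    linarith
  rcases lt_or_gt_of_ne hlc with hneg | hp
  · -- negative leading coefficient
    right
    have hodd : ∀ x : ℕ, Even x → d ≤ x → x ≤ n - d → x ∉ Z →
        Odd (Z.filter fun z => x < z).card := by
      intro x h1 h2 h3 h4
      by_contra hcon
      rw [Nat.not_odd_iff_even] at hcon
      have := hsign x h1 h2 h3 h4
      rw [hcon.neg_one_pow, mul_one] at this
      linarith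
    have hdZ : d ∈ Z := by
      by_contra hcon
      have h1 := hodd d hd le_rfl (by omega) hcon
      have h2 : (Z.filter fun z => d < z) = Z := by
        rw [Finset.filter_true_of_mem]
        intro z hz
        exact lt_of_le_of_ne (hZmem z hz).2.1 (fun h => hcon (h ▸ hz))
      rw [h2, hcard] at h1
      exact (Nat.not_odd_iff_even.2 (even_two_mul t)) h1
    have hnd : Even (n - d) := by
      rw [Nat.even_sub (by omega)]
      exact ⟨fun _ => hd, fun _ => hn⟩
    have hndZ : n - d ∈ Z := by
      by_contra hcon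
      have h1 := hodd (n - d) hnd (by omega) le_rfl hcon
      have h2 : (Z.filter fun z => n - d < z) = ∅ := by
        rw [Finset.filter_eq_empty_iff]
        intro z hz
        have := (hZmem z hz).2.2
        omega
      rw [h2] at h1
      simp at h1
    have hne : d ≠ n - d := by omega
    set Z' : Finset ℕ := (Z.erase d).erase (n - d) with hZ'
    have hndZ1 : n - d ∈ Z.erase d := Finset.mem_erase.2 ⟨hne.symm, hndZ⟩
    have hcard' : Z'.card + 2 = 2 * t := by
      have h1 := Finset.card_erase_of_mem hdZ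
      have h2 := Finset.card_erase_of_mem hndZ1
      rw [← hZ'] at h2
      omega
    have hfilt : ∀ x : ℕ, d ≤ x → x < n - d →
        (Z'.filter fun z => x < z).card + 1 = (Z.filter fun z => x < z).card := by
      intro x h1 h2
      have h3 : (Z'.filter fun z => x < z) = (Z.filter fun z => x < z).erase (n - d) := by
        ext z
        simp only [hZ', Finset.mem_filter, Finset.mem_erase]
        constructor
        · rintro ⟨⟨h4, h5, h6⟩, h7⟩
          exact ⟨h4, h6, h7⟩
        · rintro ⟨h4, h6, h7⟩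
          exact ⟨⟨h4, by omega, h6⟩, h7⟩
      have h4 : n - d ∈ (Z.filter fun z => x < z) := Finset.mem_filter.2 ⟨hndZ, h2⟩
      rw [h3, Finset.card_erase_of_mem h4]
      have := Finset.card_pos.2 ⟨_, h4⟩
      omega
    obtain ⟨M, hM1, hM2, hM3, _, hM5⟩ := gale (lo := d) (hi := n - d) Z'
      (fun z hz => hZmem z (Finset.mem_of_mem_erase (Finset.mem_of_mem_erase hz)))
      (by rw [Nat.even_iff]; omega) (by
        intro x h1 h2 h3 h4
        rcases eq_or_lt_of_le h3 with h5 | h5
        · have h6 : (Z'.filter fun z => x < z) = ∅ := by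
            rw [Finset.filter_eq_empty_iff]
            intro z hz
            have := (hZmem z (Finset.mem_of_mem_erase (Finset.mem_of_mem_erase hz))).2.2
            omega
          rw [h6]
          simp
        · have h6 := hfilt x h2 h5
          rcases eq_or_lt_of_le h2 with h7 | h7
          · have h8 : (Z.filter fun z => x < z) = Z.erase d := by
              ext z
              simp only [Finset.mem_filter, Finset.mem_erase]
              constructor
              · rintro ⟨h8, h9⟩
                exact ⟨by omega, h8⟩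
              · rintro ⟨h8, h9⟩
                have := (hZmem z h9).2.1
                exact ⟨h9, by omega⟩
            rw [h8, Finset.card_erase_of_mem hdZ, hcard] at h6
            rw [Nat.even_iff]
            omega
          · have h8 : x ∉ Z := by
              intro h9
              apply h4
              rw [hZ', Finset.mem_erase, Finset.mem_erase]
              exact ⟨by omega, by omega, h9⟩
            have h9 := hodd x h1 h2 h3 h8
            rw [← h6] at h9
            rw [Nat.even_iff]
            rw [Nat.odd_iff] at h9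
            omega)
    refine ⟨-P.leadingCoeff, M, by linarith, ⟨fun m hm => (hM1 m hm).1,
      fun m hm => (hM1 m hm).2.1, fun m hm => by have := (hM1 m hm).2.2; omega, hM2⟩,
      by omega, fun x => ?_⟩
    rw [hfac x, ← Finset.mul_prod_erase Z _ hdZ, ← Finset.mul_prod_erase (Z.erase d) _ hndZ1,
      ← hZ', hM5 x, Nat.cast_sub (by omega : d ≤ n)]
    ring
  · -- positive leading coefficient
    left
    obtain ⟨M, hM1, hM2, hM3, _, hM5⟩ := gale (lo := d) (hi := n - d) Z hZmem
      (by rw [hcard]; exact even_two_mul t) (by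
        intro x h1 h2 h3 h4
        by_contra hcon
        rw [Nat.not_even_iff_odd] at hcon
        have := hsign x h1 h2 h3 h4
        rw [hcon.neg_one_pow] at this
        linarith)
    refine ⟨P.leadingCoeff, M, hp, ⟨fun m hm => (hM1 m hm).1,
      fun m hm => (hM1 m hm).2.1, fun m hm => by have := (hM1 m hm).2.2; omega, hM2⟩,
      by omega, fun x => ?_⟩
    rw [hfac x, hM5 x]

end Pool.Agent.Lib.MP_0430e4_lc.LPL
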