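import Pool.Agent.Lib.MP_0430e4_lc.Impr.CUBE1
import Pool.Agent.Lib.MP_0430e4_lc.Impr.LPV

/-!
# Lower bound for Delsarte's linear program: definitions
-/

set_option autoImplicit false

namespace Pool.Agent.Lib.MP_0430e4_lc.LPL

open Finset Filter Topology Polynomial
open Tensor (chi flp)
open Impr (wt lpBound)

/-- Fourier transform on the cube -/
noncomputable def hat {n : ℕ} (F : (Fin n → Bool) → ℝ) (y : Fin n → Bool) : ℝ :=
  ∑ x, F x * chi x y

/-- a polynomial as a radial function -/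
noncomputable def pev {n : ℕ} (P : ℝ[X]) (x : Fin n → Bool) : ℝ := P.eval (wt x : ℝ)

/-- `f = ∏ (x - m)` -/
noncomputable def fM (M : Finset ℕ) (x : ℝ) : ℝ := ∏ m ∈ M, (x - m)

/-- `q = ∏ ((x - m)^2 - 1)` -/
noncomputable def qM (M : Finset ℕ) (x : ℝ) : ℝ := ∏ m ∈ M, ((x - m) ^ 2 - 1)

/-- `M` is a set of odd numbers strictly between `d` and `n - d`, any two at distance at least
four. -/
structure Adm (n d : ℕ) (M : Finset ℕ) : Prop where
  odd : ∀ m ∈ M, Odd m
  lo : ∀ m ∈ M, d < m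
  hi : ∀ m ∈ M, m + d < n
  sep : ∀ m ∈ M, ∀ m' ∈ M, m < m' → m + 4 ≤ m'

/-- The functional: average of a polynomial over the even half of the cube. -/
noncomputable def Lf (n : ℕ) : ℝ[X] →ₗ[ℝ] ℝ where
  toFun P := (2 / 2 ^ n) * ∑ x : Fin n → Bool, if Even (wt x) then P.eval (wt x : ℝ) else 0
  map_add' P Q := by
    rw [← mul_add, ← Finset.sum_add_distrib]
    congr 1
    apply Finset.sum_congr rfl
    intro x _
    split_ifs <;> simp
  map_smul' c P := by
    simp only [RingHom.id_apply, smul_eq_mul]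
    rw [Finset.mul_sum, Finset.mul_sum, Finset.mul_sum]
    apply Finset.sum_congr rfl
    intro x _
    split_ifs
    · rw [Polynomial.eval_smul, smul_eq_mul]
      ring
    · simp

/-- the even numbers in `[d, n - d]` -/
def Ev (n d : ℕ) : Finset ℕ := (range (n + 1)).filter fun a => Even a ∧ d ≤ a ∧ a + d ≤ n

/-- Numerical conditions. -/
structure NC (n d t k : ℕ) (R : ℝ) : Prop where
  hn : Even n
  hd : Even d
  ht : 1 ≤ t
  hd1 : 1 ≤ d
  hdt : 4 * t ≤ d
  hcard : 4 * t ≤ n - 2 * d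
  hdn : 2 * d ≤ n
  hk : 2 * (t + k) ≤ n
  hR : 0 < R
  hRD : R < ((n : ℝ) - 2 * d) ^ 2
  heta : 4 * (n : ℝ) ^ 2 * (4 * ((t : ℝ) + k) * ((n : ℝ) - (t + k) + 1) / R) ^ k
      ≤ (((n : ℝ) - 2 * d) ^ 2 - R) * (1 / 2 - 2 * ((t : ℝ) - 1) / d)

end Pool.Agent.Lib.MP_0430e4_lc.LPL
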