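import Pool.Agent.Lib.MP_0430e4_lc.LPL.Defs

/-!
# Reduction to extreme polynomials
-/

set_option autoImplicit false

namespace Pool.Agent.Lib.MP_0430e4_lc.LPL

open Finset Filter Topology Polynomial

namespace ExtAux

/-- a polynomial of degree at most `s` vanishing on fewer than `s` prescribed points and not
proportional to a given one -/
theorem exists_other {s : ℕ} (Z : Finset ℕ) (hZ : Z.card < s) (P : ℝ[X]) :
    ∃ Q : ℝ[X], Q.natDegree ≤ s ∧ (∀ a ∈ Z, Q.eval (a : ℝ) = 0) ∧ ∀ c : ℝ, Q ≠ C c * P := by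
  set Q0 : ℝ[X] := ∏ a ∈ Z, (X - C (a : ℝ)) with hQ0
  have hd0 : Q0.natDegree = Z.card := by
    rw [hQ0, natDegree_prod_of_monic _ _ fun a _ => monic_X_sub_C _]
    simp only [natDegree_X_sub_C, sum_const, smul_eq_mul, mul_one]
  have hne0 : Q0 ≠ 0 := (monic_prod_of_monic _ _ fun a _ => monic_X_sub_C _).ne_zero
  have hz0 : ∀ a ∈ Z, Q0.eval (a : ℝ) = 0 := by
    intro a ha
    rw [hQ0, eval_prod]
    exact Finset.prod_eq_zero ha (by simp)
  by_cases h : ∃ c : ℝ, Q0 = C c * P
  · obtain ⟨c, hc⟩ := h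
    refine ⟨X * Q0, ?_, ?_, ?_⟩
    · rw [natDegree_X_mul hne0, hd0]
      omega
    · intro a ha
      rw [eval_mul, hz0 a ha, mul_zero]
    · intro c' h'
      have hc0 : c ≠ 0 := by
        rintro rfl
        simp at hc
        exact hne0 hc
      have hP : P = C c⁻¹ * Q0 := by
        rw [hc, ← mul_assoc, ← C_mul, inv_mul_cancel₀ hc0]
        simp
      rw [hP, ← mul_assoc, ← C_mul] at h'
      have h2 := mul_right_cancel₀ hne0 h'
      have := congrArg natDegree h2
      rw [natDegree_X, natDegree_C] at this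
      omega
  · push Not at h
    exact ⟨Q0, by omega, hz0, h⟩

/-- A polynomial of degree at most `s` vanishing at more than `s` naturals is zero. -/
theorem eq_zero_of_card {s : ℕ} (E : Finset ℕ) (hE : s < E.card) (P : ℝ[X])
    (hP : P.natDegree ≤ s) (h : ∀ a ∈ E, P.eval (a : ℝ) = 0) : P = 0 := by
  by_contra hne
  have h1 : (E.image fun a : ℕ => (a : ℝ)) ⊆ P.roots.toFinset := by
    intro x hx
    rw [Finset.mem_image] at hx
    obtain ⟨a, ha, rfl⟩ := hx
    rw [Multiset.mem_toFinset, mem_roots hne]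
    exact h a ha
  have h2 := Finset.card_le_card h1
  rw [Finset.card_image_of_injective _ Nat.cast_injective] at h2
  have h3 := Multiset.toFinset_card_le P.roots
  have h4 := card_roots' P
  omega

end ExtAux

open ExtAux

theorem pos_of_extreme (E : Finset ℕ) (s : ℕ) (hE : s < E.card) (L : ℝ[X] →ₗ[ℝ] ℝ)
    (h : ∀ P : ℝ[X], P.natDegree ≤ s → (∀ a ∈ E, 0 ≤ P.eval (a : ℝ)) →
      s ≤ (E.filter fun a : ℕ => P.eval (a : ℝ) = 0).card → 0 ≤ L P)
    (P : ℝ[X]) (hP : P.natDegree ≤ s) (hpos : ∀ a ∈ E, 0 ≤ P.eval (a : ℝ)) : 0 ≤ L P := by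
  -- strong induction on the number of nonzeros
  induction hk : (E.filter fun a : ℕ => P.eval (a : ℝ) ≠ 0).card using Nat.strong_induction_on
    generalizing P with
  | _ k ih =>
    set Z := E.filter fun a : ℕ => P.eval (a : ℝ) = 0 with hZ
    rcases Nat.lt_or_ge Z.card s with hlt | hge
    swap
    · exact h P hP hpos hge
    obtain ⟨Q, hQ, hQZ, hQne⟩ := exists_other Z hlt P
    set N := E.filter fun a : ℕ => P.eval (a : ℝ) ≠ 0 with hN
    have hNZ : Z.card + N.card = E.card := Finset.card_filter_add_card_filter_not _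
    have hNne : N.Nonempty := by
      rw [← Finset.card_pos]
      omega
    have hNpos : ∀ a ∈ N, 0 < P.eval (a : ℝ) := fun a ha =>
      lt_of_le_of_ne (hpos a (Finset.mem_filter.1 ha).1) (Ne.symm (Finset.mem_filter.1 ha).2)
    -- normalise `Q`
    obtain ⟨a0, ha0, hmin0⟩ := Finset.exists_min_image N
      (fun a : ℕ => Q.eval (a : ℝ) / P.eval (a : ℝ)) hNne
    set c : ℝ := Q.eval (a0 : ℝ) / P.eval (a0 : ℝ) with hc
    set Q1 : ℝ[X] := Q - C c * P with hQ1
    have hQ1d : Q1.natDegree ≤ s := by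
      rw [hQ1]
      refine (natDegree_sub_le _ _).trans (max_le hQ ?_)
      exact (natDegree_C_mul_le _ _).trans hP
    have hQ1Z : ∀ a ∈ Z, Q1.eval (a : ℝ) = 0 := by
      intro a ha
      have : P.eval (a : ℝ) = 0 := (Finset.mem_filter.1 ha).2
      simp [hQ1, hQZ a ha, this]
    have hQ1N : ∀ a ∈ N, 0 ≤ Q1.eval (a : ℝ) := by
      intro a ha
      have h1 := hmin0 a ha
      have h2 := hNpos a ha
      simp only [hQ1, eval_sub, eval_mul, eval_C]
      rw [le_div_iff₀ h2] at h1
      linarith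
    have hmem : ∀ a ∈ E, a ∈ Z ∨ a ∈ N := by
      intro a ha
      by_cases h0 : P.eval (a : ℝ) = 0
      · exact Or.inl (Finset.mem_filter.2 ⟨ha, h0⟩)
      · exact Or.inr (Finset.mem_filter.2 ⟨ha, h0⟩)
    have hQ1pos : ∀ a ∈ E, 0 ≤ Q1.eval (a : ℝ) := by
      intro a ha
      rcases hmem a ha with h1 | h1
      · rw [hQ1Z a h1]
      · exact hQ1N a h1
    have hQ1a0 : Q1.eval (a0 : ℝ) = 0 := by
      have := (hNpos a0 ha0).ne'
      simp only [hQ1, eval_sub, eval_mul, eval_C, hc]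
      field_simp
      ring
    have hQ1ne : Q1 ≠ 0 := by
      intro h0
      exact hQne c (sub_eq_zero.1 h0)
    -- the number of nonzeros of `Q1` is smaller
    have hcard1 : (E.filter fun a : ℕ => Q1.eval (a : ℝ) ≠ 0).card < k := by
      rw [← hk]
      apply Finset.card_lt_card
      rw [Finset.ssubset_iff_of_subset]
      · exact ⟨a0, ha0, fun hcon => (Finset.mem_filter.1 hcon).2 hQ1a0⟩
      · intro a ha
        rw [Finset.mem_filter] at ha ⊢
        refine ⟨ha.1, fun h0 => ha.2 (hQ1Z a (Finset.mem_filter.2 ⟨ha.1, h0⟩))⟩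
    have hLQ := ih _ hcard1 Q1 hQ1d hQ1pos rfl
    -- the points where `Q1 > 0`
    set N2 := E.filter fun a : ℕ => Q1.eval (a : ℝ) ≠ 0 with hN2
    have hN2ne : N2.Nonempty := by
      by_contra hcon
      rw [Finset.not_nonempty_iff_eq_empty] at hcon
      apply hQ1ne
      apply eq_zero_of_card E hE Q1 hQ1d
      intro a ha
      by_contra h0
      have : a ∈ N2 := Finset.mem_filter.2 ⟨ha, h0⟩
      rw [hcon] at this
      simp at this
    have hN2pos : ∀ a ∈ N2, 0 < Q1.eval (a : ℝ) := fun a ha =>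
      lt_of_le_of_ne (hQ1pos a (Finset.mem_filter.1 ha).1) (Ne.symm (Finset.mem_filter.1 ha).2)
    have hN2N : ∀ a ∈ N2, a ∈ N := by
      intro a ha
      rcases hmem a (Finset.mem_filter.1 ha).1 with h1 | h1
      · exact absurd (hQ1Z a h1) (Finset.mem_filter.1 ha).2
      · exact h1
    obtain ⟨a1, ha1, hmin1⟩ := Finset.exists_min_image N2
      (fun a : ℕ => P.eval (a : ℝ) / Q1.eval (a : ℝ)) hN2ne
    set b : ℝ := P.eval (a1 : ℝ) / Q1.eval (a1 : ℝ) with hb
    have hbpos : 0 < b := div_pos (hNpos a1 (hN2N a1 ha1)) (hN2pos a1 ha1)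
    set P1 : ℝ[X] := P - C b * Q1 with hP1
    have hP1d : P1.natDegree ≤ s := by
      rw [hP1]
      refine (natDegree_sub_le _ _).trans (max_le hP ?_)
      exact (natDegree_C_mul_le _ _).trans hQ1d
    have hP1pos : ∀ a ∈ E, 0 ≤ P1.eval (a : ℝ) := by
      intro a ha
      simp only [hP1, eval_sub, eval_mul, eval_C]
      by_cases h0 : Q1.eval (a : ℝ) = 0
      · rw [h0, mul_zero, sub_zero]
        exact hpos a ha
      · have h1 : a ∈ N2 := Finset.mem_filter.2 ⟨ha, h0⟩
        have h2 := hmin1 a h1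
        rw [le_div_iff₀ (hN2pos a h1)] at h2
        linarith
    have hcard2 : (E.filter fun a : ℕ => P1.eval (a : ℝ) ≠ 0).card < k := by
      rw [← hk]
      apply Finset.card_lt_card
      rw [Finset.ssubset_iff_of_subset]
      · refine ⟨a1, hN2N a1 ha1, fun hcon => (Finset.mem_filter.1 hcon).2 ?_⟩
        have := (hN2pos a1 ha1).ne'
        simp only [hP1, eval_sub, eval_mul, eval_C, hb]
        field_simp
        ring
      · intro a ha
        rw [Finset.mem_filter] at ha ⊢
        refine ⟨ha.1, fun h0 => ha.2 ?_⟩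
        simp only [hP1, eval_sub, eval_mul, eval_C, h0,
          hQ1Z a (Finset.mem_filter.2 ⟨ha.1, h0⟩)]
        ring
    have hLP := ih _ hcard2 P1 hP1d hP1pos rfl
    have hsum : P = P1 + b • Q1 := by
      rw [hP1, smul_eq_C_mul]
      ring
    rw [hsum, map_add, map_smul, smul_eq_mul]
    positivity

end Pool.Agent.Lib.MP_0430e4_lc.LPL
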