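import Pool.Agent.Lib.MP_0430e4_lc.LPL.Defs

/-!
# Representation of positive functionals (Farkas)
-/

set_option autoImplicit false

namespace Pool.Agent.Lib.MP_0430e4_lc.LPL

open Finset Filter Topology Polynomial

theorem exists_weight (E : Finset ℕ) (s : ℕ) (L : ℝ[X] →ₗ[ℝ] ℝ) (hL1 : L 1 = 1)
    (hpos : ∀ P : ℝ[X], P.natDegree ≤ s → (∀ a ∈ E, 0 ≤ P.eval (a : ℝ)) → 0 ≤ L P) :
    ∃ w : ℕ → ℝ, (∀ a, 0 ≤ w a) ∧ (∀ a, a ∉ E → w a = 0) ∧
      ∀ P : ℝ[X], P.natDegree ≤ s → ∑ a ∈ E, w a * P.eval (a : ℝ) = L P := by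
  classical
  set v : ℕ → (Fin (s + 1) → ℝ) := fun a i => (a : ℝ) ^ (i : ℕ) with hv
  set m : Fin (s + 1) → ℝ := fun i => L (X ^ (i : ℕ)) with hm
  have hmem : m ∈ convexHull ℝ (v '' (E : Set ℕ)) := by
    by_contra hcon
    have hfin : (v '' (E : Set ℕ)).Finite := E.finite_toSet.image v
    have hclosed : IsClosed (convexHull ℝ (v '' (E : Set ℕ))) := hfin.isClosed_convexHull ℝ
    obtain ⟨f, u, hf1, hf2⟩ := geometric_hahn_banach_point_closed (convex_convexHull ℝ _)
      hclosed hcon
    -- the polynomial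
    have hf : ∀ x : Fin (s + 1) → ℝ, f x = ∑ i, x i * f (Pi.single i 1) := by
      intro x
      conv_lhs => rw [pi_eq_sum_univ' x]
      rw [map_sum]
      apply Finset.sum_congr rfl
      intro i _
      rw [map_smul, smul_eq_mul]
    set P : ℝ[X] := ∑ i : Fin (s + 1), C (f (Pi.single i 1)) * X ^ (i : ℕ) - C u with hP
    have hPd : P.natDegree ≤ s := by
      rw [hP]
      refine (natDegree_sub_le _ _).trans (max_le ?_ (by simp))
      apply natDegree_sum_le_of_forall_le
      intro i _
      refine (natDegree_C_mul_X_pow_le _ _).trans ?_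
      omega
    have hPe : ∀ a : ℕ, P.eval (a : ℝ) = f (v a) - u := by
      intro a
      rw [hf, hP, eval_sub, eval_finsetSum, eval_C]
      congr 1
      apply Finset.sum_congr rfl
      intro i _
      rw [eval_mul, eval_C, eval_pow, eval_X, mul_comm]
    have hPL : L P = f m - u := by
      rw [hf, hP, map_sub, map_sum]
      congr 1
      · apply Finset.sum_congr rfl
        intro i _
        rw [← smul_eq_C_mul, map_smul, smul_eq_mul, mul_comm]
      · have : (C u : ℝ[X]) = u • 1 := by rw [smul_eq_C_mul, mul_one]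
        rw [this, map_smul, hL1, smul_eq_mul, mul_one]
    have h1 := hpos P hPd (fun a ha => by
      rw [hPe]
      have := hf2 (v a) (subset_convexHull ℝ _ ⟨a, ha, rfl⟩)
      linarith)
    rw [hPL] at h1
    linarith
  -- extract the weights
  obtain ⟨w, hw0, hw1, hw2⟩ : ∃ w : ℕ → ℝ, (∀ a ∈ E, 0 ≤ w a) ∧ (∑ a ∈ E, w a = 1) ∧
      ∑ a ∈ E, w a • v a = m := by
    obtain ⟨ι, _, w, z, hw₀, hw₁, hz, hx⟩ := mem_convexHull_iff_exists_fintype.1 hmem
    choose b hb1 hb2 using hz
    refine ⟨fun a => ∑ i, if b i = a then w i else 0, ?_, ?_, ?_⟩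
    · intro a _
      apply Finset.sum_nonneg
      intro i _
      split_ifs
      · exact hw₀ i
      · exact le_rfl
    · rw [Finset.sum_comm, ← hw₁]
      apply Finset.sum_congr rfl
      intro i _
      rw [Finset.sum_ite_eq E (b i), if_pos (by exact_mod_cast hb1 i)]
    · rw [← hx]
      simp only [Finset.sum_smul]
      rw [Finset.sum_comm]
      apply Finset.sum_congr rfl
      intro i _
      rw [← hb2 i]
      rw [Finset.sum_eq_single (b i)]
      · rw [if_pos rfl]
      · intro a _ hne
        rw [if_neg (Ne.symm hne), zero_smul]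
      · intro hcon
        exact absurd (by exact_mod_cast hb1 i) hcon
  refine ⟨fun a => if a ∈ E then w a else 0, ?_, ?_, ?_⟩
  · intro a
    dsimp only
    split_ifs with h
    · exact hw0 a h
    · exact le_rfl
  · intro a ha
    exact if_neg ha
  · intro P hP
    have e1 : ∑ a ∈ E, (if a ∈ E then w a else 0) * P.eval (a : ℝ)
        = ∑ a ∈ E, w a * P.eval (a : ℝ) := by
      apply Finset.sum_congr rfl
      intro a ha
      rw [if_pos ha]
    rw [e1]
    have hPs : P = ∑ i : Fin (s + 1), C (P.coeff i) * X ^ (i : ℕ) := by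
      rw [Fin.sum_univ_eq_sum_range (fun i => C (P.coeff i) * X ^ i) (s + 1)]
      exact P.as_sum_range_C_mul_X_pow' (by omega)
    have hLP : L P = ∑ i : Fin (s + 1), P.coeff i * m i := by
      conv_lhs => rw [hPs]
      rw [map_sum]
      apply Finset.sum_congr rfl
      intro i _
      rw [← smul_eq_C_mul, map_smul, smul_eq_mul]
    have hPe : ∀ a : ℕ, P.eval (a : ℝ) = ∑ i : Fin (s + 1), P.coeff i * v a i := by
      intro a
      conv_lhs => rw [hPs]
      rw [eval_finsetSum]
      apply Finset.sum_congr rfl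
      intro i _
      simp [hv]
    rw [hLP]
    simp only [hPe, Finset.mul_sum]
    rw [Finset.sum_comm]
    apply Finset.sum_congr rfl
    intro i _
    rw [← hw2]
    simp only [Finset.sum_apply, Pi.smul_apply, smul_eq_mul, Finset.mul_sum]
    apply Finset.sum_congr rfl
    intro a _
    ring

end Pool.Agent.Lib.MP_0430e4_lc.LPL
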