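import Pool.Agent.Lib.MP_0430e4_lc.LPL.CUB2
import Pool.Agent.Lib.MP_0430e4_lc.LPL.Sep
import Pool.Agent.Lib.MP_0430e4_lc.LPL.Ext
import Pool.Agent.Lib.MP_0430e4_lc.LPL.Cases
import Pool.Agent.Lib.MP_0430e4_lc.LPL.CASE2

set_option autoImplicit false

namespace Pool.Agent.Lib.MP_0430e4_lc.LPL

open Finset Filter Topology Polynomial
open Tensor (chi flp)
open Impr (wt lpBound)

/-! ## EXIST (uses SEP, EXT, CASES, QF, CASE2) -/

theorem card_Ev {n d t : ℕ} (hd : Even d) (hdn : 2 * d ≤ n)
    (hc : 4 * t ≤ n - 2 * d) : 2 * t < (Ev n d).card := by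
  have hinj : Set.InjOn (fun i : ℕ => d + 2 * i) (Finset.range (2 * t + 1) : Set ℕ) := by
    intro i _ j _ hij
    simp only at hij
    omega
  have hsub : (Finset.range (2 * t + 1)).image (fun i : ℕ => d + 2 * i) ⊆ Ev n d := by
    intro a ha
    rw [Finset.mem_image] at ha
    obtain ⟨i, hi, rfl⟩ := ha
    rw [Finset.mem_range] at hi
    unfold Ev
    rw [Finset.mem_filter, Finset.mem_range]
    refine ⟨by omega, ?_, by omega, by omega⟩
    obtain ⟨k, hk⟩ := hd
    exact ⟨k + i, by omega⟩
  have h1 := Finset.card_le_card hsub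
  rw [Finset.card_image_of_injOn hinj, Finset.card_range] at h1
  omega

theorem exists_W {n d t k : ℕ} {R : ℝ} (h : NC n d t k R) :
    ∃ W : ℕ → ℝ, (∀ a, 0 ≤ W a) ∧ (∀ a, a < d → W a = 0) ∧ (∀ a, n < a + d → W a = 0) ∧
      (∀ a, ¬ Even a → W a = 0) ∧ ∀ P : ℝ[X], P.natDegree ≤ 2 * t →
        ∑ x : Fin n → Bool, W (wt x) * P.eval (wt x : ℝ) = Lf n P := by
  have hn1 : 1 ≤ n := by have := h.hd1; have := h.hdn; omega
  obtain ⟨w, hw0, hwE, hwP⟩ := exists_weight (Ev n d) (2 * t) (Lf n) (Lf_one hn1) (by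
    intro P hP hpos
    refine pos_of_extreme (Ev n d) (2 * t) (card_Ev h.hd h.hdn h.hcard) (Lf n) ?_ P hP hpos
    intro P hP hpos hz
    rcases structure_ext h.hn h.hd h.hdn h.ht h.hcard P hP hpos hz with h0 | ⟨c, M, hc, hM, _, hq⟩ |
      ⟨c, M, hc, hM, hMc, hq⟩
    · rw [h0, map_zero]
    · show 0 ≤ (2 / 2 ^ n : ℝ) * ∑ x : Fin n → Bool, if Even (wt x) then P.eval (wt x : ℝ) else 0
      refine mul_nonneg (by positivity) (Finset.sum_nonneg fun x _ => ?_)
      split_ifs with hx
      · rw [hq]
        exact mul_nonneg hc.le (qM_nonneg hM hx)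
      · exact le_refl _
    · show 0 ≤ (2 / 2 ^ n : ℝ) * ∑ x : Fin n → Bool, if Even (wt x) then P.eval (wt x : ℝ) else 0
      refine mul_nonneg (by positivity) ?_
      have h2 := case_two h hM hMc
      have h3 : (∑ x : Fin n → Bool, if Even (wt x) then P.eval (wt x : ℝ) else 0)
          = c * ∑ x : Fin n → Bool, if Even (wt x) then
            ((wt x : ℝ) - d) * ((n : ℝ) - d - wt x) * qM M (wt x) else 0 := by
        rw [Finset.mul_sum]
        refine Finset.sum_congr rfl fun x _ => ?_
        split_ifs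
        · rw [hq]
        · rw [mul_zero]
      rw [h3]
      exact mul_nonneg hc.le h2)
  have hmem : ∀ a, w a ≠ 0 → Even a ∧ d ≤ a ∧ a + d ≤ n := by
    intro a ha
    by_contra hcon
    apply ha
    apply hwE
    intro hE
    unfold Ev at hE
    rw [Finset.mem_filter] at hE
    exact hcon hE.2
  refine ⟨fun a => w a / n.choose a, fun a => div_nonneg (hw0 a) (by positivity), ?_, ?_, ?_, ?_⟩
  · intro a ha
    have : w a = 0 := by
      by_contra hne
      have := hmem a hne
      omega
    simp [this]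
  · intro a ha
    have : w a = 0 := by
      by_contra hne
      have := hmem a hne
      omega
    simp [this]
  · intro a ha
    have : w a = 0 := by
      by_contra hne
      exact ha (hmem a hne).1
    simp [this]
  · intro P hP
    rw [← hwP P hP]
    have hs := Impr.sum_wt (α := Fin n) (fun a => w a / n.choose a * P.eval (a : ℝ))
    rw [Fintype.card_fin] at hs
    refine Eq.trans ?_ (hs.trans ?_)
    · rfl
    · have hsub : Ev n d ⊆ range (n + 1) := by
        unfold Ev
        exact Finset.filter_subset _ _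
      rw [← Finset.sum_subset hsub]
      · refine Finset.sum_congr rfl fun a ha => ?_
        have ha' : a ≤ n := by
          have := Finset.mem_range.1 (hsub ha)
          omega
        have hch : ((n.choose a : ℕ) : ℝ) ≠ 0 := by
          have := Nat.choose_pos ha'
          positivity
        field_simp
      · intro a _ ha
        rw [hwE a ha]
        simp

end Pool.Agent.Lib.MP_0430e4_lc.LPL
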