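import Pool.Agent.Lib.MP_0430e4_lc.LPL.Defs

/-!
# Feasible solutions of Delsarte's program, general form
-/

set_option autoImplicit false

namespace Pool.Agent.Lib.MP_0430e4_lc.LPL

open Finset Filter Topology Polynomial
open Tensor (chi flp)
open Impr (wt lpBound)

/-- `δ_0 + M W` is feasible as soon as `W ≥ 0` is carried by words of weight at least `d` and
`hat W ≥ -1/M`. -/
theorem lp_ge_general {n d : ℕ} {M : ℝ} (W : (Fin n → Bool) → ℝ) (hM : 0 ≤ M) (hd : 1 ≤ d)
    (hW : ∀ x, 0 ≤ W x) (hlow : ∀ x, wt x < d → W x = 0) (hmass : ∑ x, W x = 1)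
    (hhat : ∀ y, -1 ≤ M * hat W y) : 1 + M ≤ lpBound n d := by
  apply le_csSup (Impr.lpBound_bdd n d)
  have hw0 : wt (fun _ : Fin n => false) = 0 := by
    unfold wt
    simp
  refine ⟨fun x => (if x = (fun _ => false) then 1 else 0) + M * W x, ?_, ?_, ?_, ?_, ?_⟩
  · have := hlow (fun _ : Fin n => false) (by rw [hw0]; omega)
    simp [this]
  · intro x
    have := mul_nonneg hM (hW x)
    dsimp only
    split_ifs <;> linarith
  · intro x hx hlt
    have := hlow x hlt
    simp [hx, this]
  · intro y
    have e : ∑ x, ((if x = (fun _ => false) then 1 else 0) + M * W x) * chi x y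
        = 1 + M * hat W y := by
      simp only [add_mul, ite_mul, one_mul, zero_mul]
      rw [Finset.sum_add_distrib, Finset.sum_ite_eq' Finset.univ]
      unfold hat
      rw [Finset.mul_sum]
      simp only [Finset.mem_univ, if_true, Tensor.chi_zero_left]
      congr 1
      apply Finset.sum_congr rfl
      intro x _
      ring
    rw [e]
    have := hhat y
    linarith
  · rw [Finset.sum_add_distrib, Finset.sum_ite_eq' Finset.univ, ← Finset.mul_sum, hmass]
    simp

end Pool.Agent.Lib.MP_0430e4_lc.LPL
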