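import Pool.Agent.Lib.MP_0430e4_lc.LPL.CUB1
import Pool.Agent.Lib.MP_0430e4_lc.LPL.CUB2

/-!
# Moments of radial functions on the cube and their Fourier coefficients
-/

set_option autoImplicit false

namespace Pool.Agent.Lib.MP_0430e4_lc.LPL

open Finset Filter Topology Polynomial
open Tensor (chi flp)
open Impr (wt lpBound)

namespace MomAux

/-- the profile `(n - 2 a)^j φ a` -/
noncomputable def prof (n : ℕ) (φ : ℕ → ℝ) (j a : ℕ) : ℝ := ((n : ℝ) - 2 * (a : ℝ)) ^ j * φ a

theorem hat_prof_zero {n s : ℕ} (φ : ℕ → ℝ)
    (h : ∀ P : ℝ[X], P.natDegree ≤ s →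
      ∑ x : Fin n → Bool, φ (wt x) * P.eval (wt x : ℝ) = 0)
    (j : ℕ) (hj : j ≤ s) (y : Fin n → Bool) (hy : wt y = 0) :
    hat (fun x => prof n φ j (wt x)) y = 0 := by
  have hy0 : y = fun _ => false := by
    funext i
    by_contra hne
    have hne' : y i = true := by simpa using hne
    have : i ∈ univ.filter fun i => y i = true := by simp [hne']
    have hc : (univ.filter fun i => y i = true).card = 0 := hy
    rw [Finset.card_eq_zero] at hc
    rw [hc] at this
    simp at this
  have h1 := h ((C (n : ℝ) - C 2 * X) ^ j) (by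
    refine le_trans (natDegree_pow_le) ?_
    have hd : (C (n : ℝ) - C 2 * X : ℝ[X]).natDegree ≤ 1 := by
      refine le_trans (natDegree_sub_le _ _) ?_
      rw [natDegree_C]
      exact max_le (by norm_num) (le_trans (natDegree_C_mul_le _ _) natDegree_X_le)
    calc j * (C (n : ℝ) - C 2 * X : ℝ[X]).natDegree ≤ j * 1 := Nat.mul_le_mul_left _ hd
      _ ≤ s := by omega)
  subst hy0
  unfold hat
  rw [← h1]
  apply Finset.sum_congr rfl
  intro x _
  rw [Tensor.chi_zero_right]
  simp only [prof, eval_pow, eval_sub, eval_mul, eval_C, eval_X]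
  ring

theorem hat_prof {n s : ℕ} (φ : ℕ → ℝ)
    (h : ∀ P : ℝ[X], P.natDegree ≤ s →
      ∑ x : Fin n → Bool, φ (wt x) * P.eval (wt x : ℝ) = 0)
    (k : ℕ) : ∀ j : ℕ, j + k ≤ s → ∀ y : Fin n → Bool, wt y = k →
      hat (fun x => prof n φ j (wt x)) y = 0 := by
  induction k using Nat.strong_induction_on with
  | _ k ih =>
    intro j hj y hy
    rcases Nat.eq_zero_or_pos k with hk | hk
    · subst hk
      exact hat_prof_zero φ h j (by omega) y hy
    · obtain ⟨i, hi⟩ : ∃ i, y i = true := by
        have hc : 0 < (univ.filter fun i => y i = true).card := by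
          have : (univ.filter fun i => y i = true).card = k := hy
          omega
        obtain ⟨i, hi⟩ := Finset.card_pos.mp hc
        exact ⟨i, (Finset.mem_filter.mp hi).2⟩
      have hw : wt (flp y i) + 1 = k := by rw [wt_flp_true y i hi, hy]
      have h1 := ih (wt (flp y i)) (by omega) (j + 1) (by omega) (flp y i) rfl
      have h2 : (fun x : Fin n → Bool => prof n φ (j + 1) (wt x))
          = fun x => ((n : ℝ) - 2 * wt x) * prof n φ j (wt x) := by
        funext x
        simp only [prof]
        ring
      rw [h2, hat_mul_h] at h1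
      have h3 : ∀ i', hat (fun x => prof n φ j (wt x)) (flp (flp y i) i')
          = if flp y i i' = false then hat (fun x => prof n φ j (wt x)) y else 0 := by
        intro i'
        split_ifs with hf
        · apply hat_radial
          rw [wt_flp_false _ _ hf]
          omega
        · have ht : flp y i i' = true := by simpa using hf
          have hw2 := wt_flp_true (flp y i) i' ht
          exact ih (wt (flp (flp y i) i')) (by omega) j (by omega) _ rfl
      rw [Finset.sum_congr rfl (fun i' _ => h3 i'), ← Finset.sum_filter, Finset.sum_const,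
        nsmul_eq_mul, card_false] at h1
      have hle := wt_le y
      have hpos : (0 : ℝ) < (n : ℝ) - wt (flp y i) := by
        have : wt (flp y i) < n := by omega
        have : (wt (flp y i) : ℝ) < n := by exact_mod_cast this
        linarith
      rcases mul_eq_zero.mp h1 with h4 | h4
      · exact absurd h4 hpos.ne'
      · exact h4

end MomAux

/-- A radial function orthogonal to all polynomials of degree at most `s` has no Fourier
coefficients of level at most `s`. -/
theorem hat_eq_zero_of_moments {n s : ℕ} (φ : ℕ → ℝ)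
    (h : ∀ P : ℝ[X], P.natDegree ≤ s →
      ∑ x : Fin n → Bool, φ (wt x) * P.eval (wt x : ℝ) = 0)
    (y : Fin n → Bool) (hy : wt y ≤ s) : hat (fun x => φ (wt x)) y = 0 := by
  have h1 := MomAux.hat_prof φ h (wt y) 0 (by omega) y rfl
  simpa [MomAux.prof] using h1

end Pool.Agent.Lib.MP_0430e4_lc.LPL
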