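import Pool.Agent.Lib.MP_0430e4_lc.LPL.CUB1
import Pool.Agent.Lib.MP_0430e4_lc.LPL.CUB2
import Pool.Agent.Lib.MP_0430e4_lc.LPL.MOM
import Pool.Agent.Lib.MP_0430e4_lc.LPL.Feas0

/-!
# A feasible solution of Delsarte's linear program
-/

set_option autoImplicit false

namespace Pool.Agent.Lib.MP_0430e4_lc.LPL

open Finset Polynomial
open Tensor (chi flp)
open Impr (wt lpBound)

namespace FeasAux

theorem choose_mono_half {n a b : ℕ} (hab : a ≤ b) (hb : 2 * b ≤ n + 1) :
    n.choose a ≤ n.choose b := by
  induction b, hab using Nat.le_induction with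
  | base => exact le_rfl
  | succ m hm ih =>
    refine (ih (by omega)).trans ?_
    by_cases h : 2 * m + 2 ≤ n
    · exact Nat.choose_le_succ_of_lt_half_left (by omega)
    · have h1 : n = 2 * m + 1 := by omega
      rw [h1, Nat.choose_symm_half]

theorem choose_unimodal {n s k : ℕ} (h1 : s ≤ k) (h2 : k + s ≤ n) :
    n.choose s ≤ n.choose k := by
  by_cases h : 2 * k ≤ n
  · exact choose_mono_half h1 (by omega)
  · rw [← Nat.choose_symm (by omega : k ≤ n)]
    exact choose_mono_half (by omega) (by omega)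

/-- the transform of the even half is nonnegative -/
theorem hat_even_nonneg {n : ℕ} (y : Fin n → Bool) :
    0 ≤ hat (fun x : Fin n → Bool => if Even (wt x) then (2 / 2 ^ n : ℝ) else 0) y := by
  have hs : ∀ z : Fin n → Bool, 0 ≤ ∑ x, chi x z := by
    intro z
    have h1 : ∑ x, chi x z = ∑ x, chi z x := by
      refine Finset.sum_congr rfl fun x _ => Tensor.chi_comm x z
    rw [h1, Tensor.sum_chi]
    refine Finset.prod_nonneg fun i _ => ?_
    split_ifs <;> norm_num
  have h1 : hat (fun x : Fin n → Bool => if Even (wt x) then (2 / 2 ^ n : ℝ) else 0) y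
      = (1 / 2 ^ n) * (∑ x, chi x y + ∑ x, chi x (fun i => xor (y i) true)) := by
    rw [hat, ← Finset.sum_add_distrib, Finset.mul_sum]
    refine Finset.sum_congr rfl fun x _ => ?_
    have h2 : chi x (fun i => xor (y i) true) = chi x y * (-1) ^ wt x := by
      rw [Tensor.chi_comm x (fun i => xor (y i) true)]
      have h3 := Tensor.chi_xor y (fun _ : Fin n => true) x
      rw [Tensor.chi_comm y x, Tensor.chi_comm (fun _ : Fin n => true) x, chi_ones] at h3
      exact h3
    rw [h2]
    by_cases h3 : Even (wt x)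
    · rw [if_pos h3, h3.neg_one_pow]
      ring
    · rw [if_neg h3, (Nat.not_even_iff_odd.1 h3).neg_one_pow]
      ring
  rw [h1]
  have := hs y
  have := hs (fun i => xor (y i) true)
  positivity

/-- Parseval on one level -/
theorem level_le {n k : ℕ} (φ : ℕ → ℝ) (y : Fin n → Bool) (hy : wt y = k) :
    (n.choose k : ℝ) * hat (fun x => φ (wt x)) y ^ 2
      ≤ 2 ^ n * ∑ x : Fin n → Bool, φ (wt x) ^ 2 := by
  set F : (Fin n → Bool) → ℝ := fun x => φ (wt x) with hF
  have h1 : ∑ y', hat F y' ^ 2 = 2 ^ n * ∑ x : Fin n → Bool, φ (wt x) ^ 2 := by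
    have := parseval F F
    simp only [← pow_two] at this
    exact this
  rw [← h1]
  have hk : k ≤ n := hy ▸ wt_le y
  have h2 : (n.choose k : ℝ) * hat F y ^ 2
      = ∑ y' : Fin n → Bool, if wt y' = k then hat F y ^ 2 else 0 := by
    have h3 := Impr.sum_wt (α := Fin n) (fun i => if i = k then hat F y ^ 2 else 0)
    rw [Fintype.card_fin] at h3
    have h4 : ∑ y' : Fin n → Bool, (if wt y' = k then hat F y ^ 2 else 0)
        = ∑ i ∈ range (n + 1), ((n.choose i : ℕ) : ℝ) * if i = k then hat F y ^ 2 else 0 := h3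
    rw [h4, Finset.sum_eq_single k]
    · rw [if_pos rfl]
    · intro i _ hi
      rw [if_neg hi, mul_zero]
    · intro h5
      exact absurd (Finset.mem_range.2 (Nat.lt_succ_of_le hk)) h5
  rw [h2]
  refine Finset.sum_le_sum fun y' _ => ?_
  split_ifs with h5
  · rw [hF, hat_radial φ y y' (hy.trans h5.symm)]
  · exact sq_nonneg _

end FeasAux

open FeasAux in
/-- STEP 0. `β = δ_0 + √(C(n, s+1)/S) W(wt x)`. For `wt y = k` with `s < k < n - s`,
`C(n,k) (hat W)(y)^2 ≤ ∑ y, (hat W)(y)^2 = 2^n ∑ x, W^2 ≤ S` by radiality. -/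
theorem lp_ge {n d s : ℕ} {S : ℝ} (W : ℕ → ℝ) (hd : 1 ≤ d) (hs : 2 * s < n) (hS : 0 < S)
    (hW : ∀ a, 0 ≤ W a) (hlow : ∀ a, a < d → W a = 0) (hodd : ∀ a, ¬ Even a → W a = 0)
    (hm : ∀ P : ℝ[X], P.natDegree ≤ s →
      ∑ x : Fin n → Bool, W (wt x) * P.eval (wt x : ℝ) = Lf n P)
    (hS2 : ∑ x : Fin n → Bool, W (wt x) ^ 2 ≤ S / 2 ^ n) :
    Real.sqrt (n.choose (s + 1) / S) ≤ lpBound n d := by
  set M : ℝ := Real.sqrt (n.choose (s + 1) / S) with hMdef
  have hM : 0 ≤ M := Real.sqrt_nonneg _
  have hc : (0 : ℝ) < n.choose (s + 1) := by exact_mod_cast Nat.choose_pos (by omega)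
  have hMsq : M ^ 2 = n.choose (s + 1) / S := Real.sq_sqrt (by positivity)
  have hmass : ∑ x : Fin n → Bool, W (wt x) = 1 := by
    have := hm 1 (by simp)
    rw [Lf_one (by omega)] at this
    simpa using this
  have hlowlev : ∀ y : Fin n → Bool, wt y ≤ s → 0 ≤ hat (fun x => W (wt x)) y := by
    intro y hy
    have h1 := hat_eq_zero_of_moments (n := n) (s := s)
      (fun a => W a - if Even a then (2 / 2 ^ n : ℝ) else 0) (by
        intro P hP
        have h2 := hm P hP
        have h3 : Lf n P = ∑ x : Fin n → Bool,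
            (if Even (wt x) then (2 / 2 ^ n : ℝ) else 0) * P.eval (wt x : ℝ) := by
          have h4 : Lf n P = (2 / 2 ^ n) * ∑ x : Fin n → Bool,
            if Even (wt x) then P.eval (wt x : ℝ) else 0 := rfl
          rw [h4, Finset.mul_sum]
          refine Finset.sum_congr rfl fun x _ => ?_
          split_ifs <;> ring
        rw [h3] at h2
        simp only [sub_mul]
        rw [Finset.sum_sub_distrib, h2, sub_self]) y hy
    have h2 : hat (fun x : Fin n → Bool => W (wt x)) y
        = hat (fun x => W (wt x) - if Even (wt x) then (2 / 2 ^ n : ℝ) else 0) y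
          + hat (fun x : Fin n → Bool => if Even (wt x) then (2 / 2 ^ n : ℝ) else 0) y := by
      unfold hat
      rw [← Finset.sum_add_distrib]
      refine Finset.sum_congr rfl fun x _ => ?_
      ring
    rw [h2, h1, zero_add]
    exact hat_even_nonneg y
  have hgen := lp_ge_general (n := n) (d := d) (M := M) (fun x => W (wt x)) hM hd
    (fun x => hW _) (fun x hx => hlow _ hx) hmass (by
      intro y
      by_cases h1 : wt y ≤ s
      · have := mul_nonneg hM (hlowlev y h1)
        linarith
      by_cases h2 : n ≤ wt y + s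
      · have h3 := hat_compl (fun x : Fin n → Bool => W (wt x)) (fun x hx => hodd _ hx) y
        have h4 := hlowlev (fun i => !(y i)) (by rw [wt_compl]; omega)
        rw [h3] at h4
        have := mul_nonneg hM h4
        linarith
      · have h3 := level_le W y rfl
        have h4 : (n.choose (s + 1) : ℝ) ≤ n.choose (wt y) := by
          exact_mod_cast choose_unimodal (by omega) (by omega)
        set v : ℝ := hat (fun x => W (wt x)) y with hv
        have h5 : (n.choose (s + 1) : ℝ) * v ^ 2 ≤ S := by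
          calc (n.choose (s + 1) : ℝ) * v ^ 2 ≤ (n.choose (wt y) : ℝ) * v ^ 2 :=
                mul_le_mul_of_nonneg_right h4 (sq_nonneg _)
            _ ≤ 2 ^ n * ∑ x : Fin n → Bool, W (wt x) ^ 2 := h3
            _ ≤ 2 ^ n * (S / 2 ^ n) := mul_le_mul_of_nonneg_left hS2 (by positivity)
            _ = S := by field_simp
        have h6 : (M * v) ^ 2 ≤ 1 := by
          rw [mul_pow, hMsq, div_mul_eq_mul_div, div_le_one hS]
          exact h5
        nlinarith [sq_nonneg (M * v + 1), sq_nonneg (M * v - 1)])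
  linarith

end Pool.Agent.Lib.MP_0430e4_lc.LPL
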