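import Pool.Agent.Lib.MP_0430e4_lc.LPL.Defs

/-!
# Monotonicity of the value of Delsarte's linear program
-/

set_option autoImplicit false

namespace Pool.Agent.Lib.MP_0430e4_lc.LPL

open Finset
open Tensor (chi flp)
open Impr (wt lpBound)

theorem lpBound_anti {n d d' : ℕ} (h : d ≤ d') : lpBound n d' ≤ lpBound n d := by
  apply csSup_le_csSup (Impr.lpBound_bdd n d)
  · refine ⟨1, fun x => if x = (fun _ => false) then 1 else 0, by simp, ?_, ?_, ?_, by simp⟩
    · intro x
      simp only
      split_ifs <;> norm_num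
    · intro x hx _
      simp only [if_neg hx]
    · intro y
      simp only [ite_mul, one_mul, zero_mul]
      rw [Finset.sum_ite_eq' Finset.univ]
      simp [Tensor.chi_zero_left]
  · rintro s ⟨β, h1, h2, h3, h4, h5⟩
    exact ⟨β, h1, h2, fun x hx hw => h3 x hx (lt_of_lt_of_le hw h), h4, h5⟩

theorem sum_cons {n : ℕ} (f : (Fin (n + 1) → Bool) → ℝ) :
    ∑ x, f x = ∑ x : Fin n → Bool, f (Fin.cons false x) + ∑ x : Fin n → Bool, f (Fin.cons true x) := by
  have h1 : ∑ x, f x = ∑ p : Bool × (Fin n → Bool), f (Fin.cons p.1 p.2) := by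
    symm
    exact Fintype.sum_equiv (Fin.consEquiv (fun _ : Fin (n + 1) => Bool)) _ _ (fun p => rfl)
  rw [h1, Fintype.sum_prod_type, Fintype.sum_bool, add_comm]

theorem chi_cons {n : ℕ} (b : Bool) (x : Fin n → Bool) (y : Fin (n + 1) → Bool) :
    chi (Fin.cons b x : Fin (n + 1) → Bool) y
      = Tensor.sg b (y 0) * chi x (fun i => y i.succ) := by
  rw [Tensor.chi_eq, Tensor.chi_eq, Fin.prod_univ_succ]
  rfl

theorem lpBound_mono (n d : ℕ) : lpBound n d ≤ lpBound (n + 1) d := by
  apply csSup_le
  · refine ⟨1, fun x => if x = (fun _ => false) then 1 else 0, by simp, ?_, ?_, ?_, by simp⟩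
    · intro x
      simp only
      split_ifs <;> norm_num
    · intro x hx _
      simp only [if_neg hx]
    · intro y
      simp only [ite_mul, one_mul, zero_mul]
      rw [Finset.sum_ite_eq' Finset.univ]
      simp [Tensor.chi_zero_left]
  rintro s ⟨β, h1, h2, h3, h4, rfl⟩
  apply le_csSup (Impr.lpBound_bdd (n + 1) d)
  refine ⟨fun x => if x 0 = false then β (fun i => x i.succ) else 0, ?_, ?_, ?_, ?_, ?_⟩
  · simpa using h1
  · intro x
    simp only
    split_ifs
    · exact h2 _
    · exact le_rfl
  · intro x hx hw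
    simp only
    split_ifs with h0
    · apply h3
      · intro hc
        apply hx
        funext i
        refine Fin.cases h0 (fun j => ?_) i
        exact congrFun hc j
      · refine lt_of_le_of_lt ?_ hw
        rw [Finset.card_filter, Finset.card_filter, Fin.sum_univ_succ]
        omega
    · rfl
  · intro y
    rw [sum_cons]
    simp only [Fin.cons_zero, Fin.cons_succ, if_true, chi_cons, Bool.true_eq_false, if_false,
      zero_mul, Finset.sum_const_zero, add_zero, Tensor.sg_false_left, one_mul]
    exact h4 _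
  · rw [sum_cons]
    simp only [Fin.cons_zero, Fin.cons_succ, if_true, Bool.true_eq_false, if_false,
      Finset.sum_const_zero, add_zero]

end Pool.Agent.Lib.MP_0430e4_lc.LPL
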