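import Pool.Agent.Lib.MP_0430e4_lc.LPL.Defs

/-!
# Khintchine type moment bound on the cube
-/

set_option autoImplicit false

namespace Pool.Agent.Lib.MP_0430e4_lc.LPL

open Finset Filter Topology Polynomial
open Tensor (chi flp)
open Impr (wt lpBound)

namespace MomhAux

theorem pair_nonneg (x y : ℝ) (i k : ℕ) (h : Even (i + k)) :
    0 ≤ (x ^ i - y ^ i) * (x ^ k - y ^ k) := by
  rcases Nat.even_or_odd i with hi | hi
  · have hk : Even k := by
      rcases Nat.even_or_odd k with hk | hk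
      · exact hk
      · exfalso
        have := hi.add_odd hk
        exact (Nat.not_even_iff_odd.mpr this) h
    rw [← hi.pow_abs x, ← hi.pow_abs y, ← hk.pow_abs x, ← hk.pow_abs y]
    rcases le_total |x| |y| with hxy | hxy
    · have h1 := pow_le_pow_left₀ (abs_nonneg x) hxy i
      have h2 := pow_le_pow_left₀ (abs_nonneg x) hxy k
      nlinarith
    · have h1 := pow_le_pow_left₀ (abs_nonneg y) hxy i
      have h2 := pow_le_pow_left₀ (abs_nonneg y) hxy k
      nlinarith
  · have hk : Odd k := by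
      rcases Nat.even_or_odd k with hk | hk
      · exfalso
        have := hi.add_even hk
        exact (Nat.not_even_iff_odd.mpr this) h
      · exact hk
    rcases le_total x y with hxy | hxy
    · have h1 := hi.strictMono_pow.monotone hxy
      have h2 := hk.strictMono_pow.monotone hxy
      nlinarith
    · have h1 := hi.strictMono_pow.monotone hxy
      have h2 := hk.strictMono_pow.monotone hxy
      nlinarith

theorem geom_le (x y : ℝ) (j : ℕ) :
    2 * ∑ i ∈ range (2 * j + 1), x ^ i * y ^ (2 * j + 1 - 1 - i)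
      ≤ (2 * (j : ℝ) + 1) * (x ^ (2 * j) + y ^ (2 * j)) := by
  have h1 : ∑ i ∈ range (2 * j + 1), x ^ i * y ^ (2 * j + 1 - 1 - i)
      = ∑ i ∈ range (2 * j + 1), x ^ (2 * j - i) * y ^ i := by
    rw [← Finset.sum_range_reflect]
    apply Finset.sum_congr rfl
    intro i hi
    have hi' : i < 2 * j + 1 := Finset.mem_range.mp hi
    congr 2
    omega
  have h2 : 2 * ∑ i ∈ range (2 * j + 1), x ^ i * y ^ (2 * j + 1 - 1 - i)
      = ∑ i ∈ range (2 * j + 1), (x ^ i * y ^ (2 * j - i) + x ^ (2 * j - i) * y ^ i) := by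
    rw [Finset.sum_add_distrib, ← h1]
    simp only [Nat.add_sub_cancel]
    ring
  rw [h2]
  have h3 : ∀ i ∈ range (2 * j + 1), x ^ i * y ^ (2 * j - i) + x ^ (2 * j - i) * y ^ i
      ≤ x ^ (2 * j) + y ^ (2 * j) := by
    intro i hi
    have hi' : i < 2 * j + 1 := Finset.mem_range.mp hi
    have h4 := pair_nonneg x y i (2 * j - i) (by
      have : i + (2 * j - i) = 2 * j := by omega
      rw [this]
      exact even_two_mul j)
    have h5 : x ^ (2 * j) = x ^ i * x ^ (2 * j - i) := by
      rw [← pow_add]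
      congr 1
      omega
    have h6 : y ^ (2 * j) = y ^ i * y ^ (2 * j - i) := by
      rw [← pow_add]
      congr 1
      omega
    rw [h5, h6]
    nlinarith
  refine le_trans (Finset.sum_le_sum h3) ?_
  rw [Finset.sum_const, Finset.card_range, nsmul_eq_mul]
  push_cast
  exact le_refl _

/-- sign of a coordinate -/
def sgn (b : Bool) : ℝ := if b = true then -1 else 1

theorem sum_sgn {n : ℕ} (x : Fin n → Bool) : ∑ i, sgn (x i) = (n : ℝ) - 2 * wt x := by
  have := Tensor.sum_ite_sign x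
  rw [Fintype.card_fin] at this
  exact this

theorem h_flp {n : ℕ} (x : Fin n → Bool) (i : Fin n) :
    (n : ℝ) - 2 * wt (flp x i) = (n : ℝ) - 2 * wt x - 2 * sgn (x i) := by
  rw [← sum_sgn, ← sum_sgn]
  have h1 : ∀ k, sgn (flp x i k) = sgn (x k) - (if k = i then 2 * sgn (x i) else 0) := by
    intro k
    by_cases hk : k = i
    · subst hk
      unfold flp sgn
      rcases hb : x k with _ | _ <;> simp <;> norm_num
    · unfold flp sgn
      simp [hk]
  rw [Finset.sum_congr rfl (fun k _ => h1 k), Finset.sum_sub_distrib]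
  simp

theorem sgn_flp {n : ℕ} (x : Fin n → Bool) (i : Fin n) : sgn (flp x i i) = - sgn (x i) := by
  unfold flp sgn
  rcases hb : x i with _ | _ <;> simp

theorem step (n j : ℕ) :
    ∑ x : Fin n → Bool, ((n : ℝ) - 2 * wt x) ^ (2 * (j + 1))
      ≤ (n : ℝ) * (2 * j + 1) * ∑ x : Fin n → Bool, ((n : ℝ) - 2 * wt x) ^ (2 * j) := by
  have h1 : ∑ x : Fin n → Bool, ((n : ℝ) - 2 * wt x) ^ (2 * (j + 1))
      = ∑ i : Fin n, ∑ x : Fin n → Bool, sgn (x i) * ((n : ℝ) - 2 * wt x) ^ (2 * j + 1) := by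
    rw [Finset.sum_comm]
    apply Finset.sum_congr rfl
    intro x _
    rw [← Finset.sum_mul, sum_sgn]
    ring
  have h2 : ∀ i : Fin n, ∑ x : Fin n → Bool, sgn (x i) * ((n : ℝ) - 2 * wt x) ^ (2 * j + 1)
      ≤ (2 * (j : ℝ) + 1) * ∑ x : Fin n → Bool, ((n : ℝ) - 2 * wt x) ^ (2 * j) := by
    intro i
    have h3 := Tensor.sum_flp i (fun x : Fin n → Bool =>
      sgn (x i) * ((n : ℝ) - 2 * wt x) ^ (2 * j + 1))
    have h4 := Tensor.sum_flp i (fun x : Fin n → Bool => ((n : ℝ) - 2 * wt x) ^ (2 * j))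
    have h5 : ∀ x : Fin n → Bool,
        sgn (x i) * ((n : ℝ) - 2 * wt x) ^ (2 * j + 1)
          + sgn (flp x i i) * ((n : ℝ) - 2 * wt (flp x i)) ^ (2 * j + 1)
        ≤ (2 * (j : ℝ) + 1) * (((n : ℝ) - 2 * wt x) ^ (2 * j)
            + ((n : ℝ) - 2 * wt (flp x i)) ^ (2 * j)) := by
      intro x
      have hg := geom_sum₂_mul ((n : ℝ) - 2 * wt x) ((n : ℝ) - 2 * wt (flp x i)) (2 * j + 1)
      have hl := geom_le ((n : ℝ) - 2 * wt x) ((n : ℝ) - 2 * wt (flp x i)) j
      have hd : ((n : ℝ) - 2 * wt x) - ((n : ℝ) - 2 * wt (flp x i)) = 2 * sgn (x i) := by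
        rw [h_flp]
        ring
      rw [hd] at hg
      have hs : sgn (x i) * sgn (x i) = 1 := by
        unfold sgn
        split_ifs <;> norm_num
      rw [sgn_flp]
      have : sgn (x i) * ((n : ℝ) - 2 * wt x) ^ (2 * j + 1)
          + -sgn (x i) * ((n : ℝ) - 2 * wt (flp x i)) ^ (2 * j + 1)
          = sgn (x i) * (((n : ℝ) - 2 * wt x) ^ (2 * j + 1)
            - ((n : ℝ) - 2 * wt (flp x i)) ^ (2 * j + 1)) := by ring
      rw [this, ← hg]
      refine le_trans (le_of_eq ?_) hl
      linear_combination (2 * ∑ i_1 ∈ range (2 * j + 1), ((n : ℝ) - 2 * wt x) ^ i_1 *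
        ((n : ℝ) - 2 * wt (flp x i)) ^ (2 * j + 1 - 1 - i_1)) * hs
    have h6 := Finset.sum_le_sum (fun x (_ : x ∈ (univ : Finset (Fin n → Bool))) => h5 x)
    rw [Finset.sum_add_distrib, ← Finset.mul_sum, Finset.sum_add_distrib] at h6
    rw [h3, h4] at h6
    linarith
  rw [h1]
  refine le_trans (Finset.sum_le_sum (fun i _ => h2 i)) ?_
  rw [Finset.sum_const, Finset.card_univ, Fintype.card_fin, nsmul_eq_mul, mul_assoc]

/-- `(2j - 1)!!` -/
noncomputable def dfac : ℕ → ℝ
  | 0 => 1
  | j + 1 => (2 * (j : ℝ) + 1) * dfac j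

theorem dfac_nonneg (j : ℕ) : 0 ≤ dfac j := by
  induction j with
  | zero => simp [dfac]
  | succ j ih =>
    unfold dfac
    positivity

theorem dfac_le (j : ℕ) : dfac j ≤ (j : ℝ) ^ j := by
  induction j with
  | zero => simp [dfac]
  | succ j ih =>
    unfold dfac
    rcases Nat.eq_zero_or_pos j with hj | hj
    · subst hj
      simp [dfac]
    · have hj' : (0 : ℝ) < j := by exact_mod_cast hj
      have hb : 2 * (j : ℝ) ^ j ≤ ((j : ℝ) + 1) ^ j := by
        have h1 := one_add_mul_le_pow (a := 1 / (j : ℝ)) (by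
          have : (0 : ℝ) < 1 / j := by positivity
          linarith) j
        have h2 : (1 : ℝ) + j * (1 / j) = 2 := by
          field_simp
          norm_num
        rw [h2] at h1
        have h3 : ((j : ℝ) + 1) ^ j = (1 + 1 / (j : ℝ)) ^ j * (j : ℝ) ^ j := by
          rw [← mul_pow]
          congr 1
          field_simp
        rw [h3]
        exact mul_le_mul_of_nonneg_right h1 (by positivity)
      push_cast
      calc (2 * (j : ℝ) + 1) * dfac j ≤ (2 * (j : ℝ) + 1) * (j : ℝ) ^ j := by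
            apply mul_le_mul_of_nonneg_left ih (by positivity)
        _ ≤ ((j : ℝ) + 1) * (2 * (j : ℝ) ^ j) := by
            have : (0 : ℝ) ≤ (j : ℝ) ^ j := by positivity
            nlinarith
        _ ≤ ((j : ℝ) + 1) * ((j : ℝ) + 1) ^ j := by
            apply mul_le_mul_of_nonneg_left hb (by positivity)
        _ = ((j : ℝ) + 1) ^ (j + 1) := by ring

theorem moment_dfac (n j : ℕ) :
    ∑ x : Fin n → Bool, ((n : ℝ) - 2 * wt x) ^ (2 * j) ≤ 2 ^ n * (dfac j * (n : ℝ) ^ j) := by
  induction j with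
  | zero => simp [dfac]
  | succ j ih =>
    refine le_trans (step n j) ?_
    refine le_trans (mul_le_mul_of_nonneg_left ih (by positivity)) (le_of_eq ?_)
    simp only [dfac]
    ring

end MomhAux

/-- Khintchine type moment bound. -/
theorem moment_le (n j : ℕ) :
    ∑ x : Fin n → Bool, ((n : ℝ) - 2 * wt x) ^ (2 * j) ≤ 2 ^ n * ((j : ℝ) * n) ^ j := by
  refine le_trans (MomhAux.moment_dfac n j) ?_
  rw [mul_pow]
  have := MomhAux.dfac_le j
  gcongr

end Pool.Agent.Lib.MP_0430e4_lc.LPL
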