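import Pool.Agent.Lib.MP_0430e4_lc.LPL.ENT
import Pool.Agent.Lib.MP_0430e4_lc.LPL.MOMH

/-!
# The tail estimate
-/

set_option autoImplicit false

namespace Pool.Agent.Lib.MP_0430e4_lc.LPL

open Finset Polynomial
open Impr (wt sum_wt)

private theorem moment_bound {n t : ℕ} (W : ℕ → ℝ) (hn : 1 ≤ n)
    (hW : ∀ a, 0 ≤ W a)
    (hm : ∀ P : ℝ[X], P.natDegree ≤ 2 * t →
      ∑ x : Fin n → Bool, W (wt x) * P.eval (wt x : ℝ) = Lf n P)
    (j : ℕ) (hj : j ≤ t) (a : ℕ) (ha : a ≤ n) :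
    (n.choose a : ℝ) * W a * ((n : ℝ) - 2 * a) ^ (2 * j) ≤ 2 * ((j : ℝ) * n) ^ j := by
  have h2 : (0 : ℝ) < 2 ^ n := by positivity
  set P : ℝ[X] := (C (n : ℝ) - C 2 * X) ^ (2 * j) with hP
  have hdeg : P.natDegree ≤ 2 * t := by
    rw [hP]
    refine natDegree_pow_le.trans ?_
    have h3 : (C (n : ℝ) - C 2 * X : ℝ[X]).natDegree ≤ 1 := by
      refine (natDegree_sub_le _ _).trans ?_
      rw [natDegree_C]
      refine max_le (Nat.zero_le _) ?_
      exact (natDegree_C_mul_le _ _).trans natDegree_X_le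
    calc 2 * j * (C (n : ℝ) - C 2 * X : ℝ[X]).natDegree ≤ 2 * j * 1 :=
          Nat.mul_le_mul_left _ h3
      _ ≤ 2 * t := by omega
  have hev : ∀ x : ℝ, P.eval x = ((n : ℝ) - 2 * x) ^ (2 * j) := by
    intro x
    rw [hP]
    simp
  have hpos : ∀ x : ℝ, 0 ≤ ((n : ℝ) - 2 * x) ^ (2 * j) := by
    intro x
    rw [pow_mul]
    positivity
  have h4 := hm P hdeg
  have h5 : Lf n P ≤ 2 * ((j : ℝ) * n) ^ j := by
    have h6 : ∑ x : Fin n → Bool, (if Even (wt x) then P.eval (wt x : ℝ) else 0)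
        ≤ ∑ x : Fin n → Bool, ((n : ℝ) - 2 * wt x) ^ (2 * j) := by
      refine Finset.sum_le_sum fun x _ => ?_
      split_ifs
      · rw [hev]
      · exact hpos _
    have h7 : Lf n P = (2 / 2 ^ n) * ∑ x : Fin n → Bool,
        if Even (wt x) then P.eval (wt x : ℝ) else 0 := rfl
    rw [h7]
    calc (2 / 2 ^ n : ℝ) * ∑ x : Fin n → Bool, (if Even (wt x) then P.eval (wt x : ℝ) else 0)
        ≤ (2 / 2 ^ n) * (2 ^ n * ((j : ℝ) * n) ^ j) := by
          refine mul_le_mul_of_nonneg_left (h6.trans (moment_le n j)) (by positivity)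
      _ = 2 * ((j : ℝ) * n) ^ j := by field_simp
  refine le_trans ?_ (h4.le.trans h5)
  have h8 : ∑ x : Fin n → Bool, W (wt x) * P.eval (wt x : ℝ)
      = ∑ b ∈ range (n + 1), (n.choose b : ℝ) * (W b * ((n : ℝ) - 2 * b) ^ (2 * j)) := by
    have := sum_wt (α := Fin n) (fun b => W b * ((n : ℝ) - 2 * b) ^ (2 * j))
    rw [Fintype.card_fin] at this
    rw [← this]
    refine Finset.sum_congr rfl fun x _ => ?_
    rw [hev]
    rfl
  rw [h8]
  have h9 := Finset.single_le_sum (s := range (n + 1))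
    (f := fun b : ℕ => (n.choose b : ℝ) * (W b * ((n : ℝ) - 2 * b) ^ (2 * j)))
    (fun b _ => mul_nonneg (Nat.cast_nonneg _) (mul_nonneg (hW b) (hpos _)))
    (Finset.mem_range.2 (Nat.lt_succ_of_le ha))
  rw [mul_assoc]
  exact h9

theorem tail {n d t : ℕ} (W : ℕ → ℝ) (hn : 1 ≤ n) (hd : n ≤ 4 * d) (hdn : 2 * d ≤ n)
    (hD : ((n : ℝ) - 2 * d) ^ 2 ≤ 4 * n * t)
    (hW : ∀ a, 0 ≤ W a) (hlow : ∀ a, a < d → W a = 0) (hhi : ∀ a, n < a + d → W a = 0)
    (hm : ∀ P : ℝ[X], P.natDegree ≤ 2 * t →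
      ∑ x : Fin n → Bool, W (wt x) * P.eval (wt x : ℝ) = Lf n P) :
    ∑ x : Fin n → Bool, W (wt x) ^ 2 ≤ 64 * ((n : ℝ) + 1) ^ 2 / 2 ^ n := by
  have hn0 : (0 : ℝ) < n := by exact_mod_cast hn
  have h2 : (0 : ℝ) < 2 ^ n := by positivity
  have hmain : ∀ a ∈ range (n + 1), (n.choose a : ℝ) * W a ^ 2 ≤ 64 * ((n : ℝ) + 1) / 2 ^ n := by
    intro a ha
    have han : a ≤ n := Nat.lt_succ_iff.1 (Finset.mem_range.1 ha)
    by_cases h3 : a < d
    · rw [hlow a h3]
      simp only [ne_eq, OfNat.ofNat_ne_zero, not_false_eq_true, zero_pow, mul_zero]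
      positivity
    by_cases h4 : n < a + d
    · rw [hhi a h4]
      simp only [ne_eq, OfNat.ofNat_ne_zero, not_false_eq_true, zero_pow, mul_zero]
      positivity
    have hda : d ≤ a := not_lt.1 h3
    have had : a + d ≤ n := not_lt.1 h4
    set D2 : ℝ := ((n : ℝ) - 2 * a) ^ 2 with hD2
    have hD2n : 0 ≤ D2 := sq_nonneg _
    have hda' : (d : ℝ) ≤ a := by exact_mod_cast hda
    have had' : (a : ℝ) + d ≤ n := by exact_mod_cast had
    have hle : D2 ≤ 4 * n * t := by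
      refine le_trans ?_ hD
      rw [hD2, sq_le_sq, abs_of_nonneg (by linarith : (0 : ℝ) ≤ n - 2 * d), abs_le]
      constructor <;> linarith
    set j : ℕ := ⌊D2 / (4 * n)⌋₊ with hj
    have hjt : j ≤ t := by
      rw [hj]
      refine Nat.floor_le_of_le ?_
      rw [div_le_iff₀ (by positivity)]
      linarith
    have hj1 : (j : ℝ) * (4 * n) ≤ D2 := by
      have := Nat.floor_le (by positivity : 0 ≤ D2 / (4 * n))
      rw [← hj, le_div_iff₀ (by positivity)] at this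
      exact this
    have hj2 : D2 / (4 * n) < j + 1 := Nat.lt_floor_add_one _
    have hmb := moment_bound W hn hW hm j hjt a han
    set w : ℝ := (n.choose a : ℝ) * W a with hw
    have hw0 : 0 ≤ w := mul_nonneg (Nat.cast_nonneg _) (hW a)
    -- `w 4^j ≤ 2`
    have hwj : w * 4 ^ j ≤ 2 := by
      have hjn : (0 : ℝ) < ((j : ℝ) * n) ^ j := by
        rcases Nat.eq_zero_or_pos j with h5 | h5
        · rw [h5, pow_zero]
          norm_num
        · have : (0 : ℝ) < j := by exact_mod_cast h5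
          positivity
      have h5 : (4 * ((j : ℝ) * n)) ^ j ≤ ((n : ℝ) - 2 * a) ^ (2 * j) := by
        rw [pow_mul]
        refine pow_le_pow_left₀ (by positivity) ?_ j
        linarith
      have h6 : w * (4 * ((j : ℝ) * n)) ^ j ≤ 2 * ((j : ℝ) * n) ^ j :=
        (mul_le_mul_of_nonneg_left h5 hw0).trans hmb
      rw [mul_pow, ← mul_assoc] at h6
      exact le_of_mul_le_mul_right h6 hjn
    -- `w ≤ 8 2^(- D2/(2n))`
    have hw8 : w * (2 : ℝ) ^ (D2 / (2 * n)) ≤ 8 := by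
      have h5 : (2 : ℝ) ^ (D2 / (2 * n)) ≤ 4 * 4 ^ j := by
        calc (2 : ℝ) ^ (D2 / (2 * n)) ≤ (2 : ℝ) ^ (2 * ((j : ℝ) + 1)) := by
              refine Real.rpow_le_rpow_of_exponent_le (by norm_num) ?_
              have : D2 / (2 * n) = 2 * (D2 / (4 * n)) := by field_simp; ring
              rw [this]
              linarith
          _ = 4 * 4 ^ j := by
              rw [Real.rpow_mul (by norm_num)]
              have : ((j : ℝ) + 1) = ((j + 1 : ℕ) : ℝ) := by push_cast; ring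
              rw [this, Real.rpow_natCast, pow_succ]
              norm_num
              ring
      calc w * (2 : ℝ) ^ (D2 / (2 * n)) ≤ w * (4 * 4 ^ j) := mul_le_mul_of_nonneg_left h5 hw0
        _ = 4 * (w * 4 ^ j) := by ring
        _ ≤ 8 := by linarith
    have hw64 : w ^ 2 * (2 : ℝ) ^ (D2 / n) ≤ 64 := by
      have h5 : (2 : ℝ) ^ (D2 / n) = ((2 : ℝ) ^ (D2 / (2 * n))) ^ 2 := by
        rw [← Real.rpow_natCast, ← Real.rpow_mul (by norm_num)]
        congr 1
        push_cast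
        field_simp
      rw [h5, ← mul_pow]
      have h6 : 0 ≤ w * (2 : ℝ) ^ (D2 / (2 * n)) := by positivity
      nlinarith
    have hch := choose_ge (n := n) (a := a) (by omega) (by omega) hn
    rw [← hD2] at hch
    rw [le_div_iff₀ h2]
    have hcp : (0 : ℝ) < n.choose a := by exact_mod_cast Nat.choose_pos han
    calc (n.choose a : ℝ) * W a ^ 2 * 2 ^ n
        ≤ (n.choose a : ℝ) * W a ^ 2 * (((n : ℝ) + 1) * n.choose a * (2 : ℝ) ^ (D2 / n)) :=
          mul_le_mul_of_nonneg_left hch (by positivity)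
      _ = ((n : ℝ) + 1) * (w ^ 2 * (2 : ℝ) ^ (D2 / n)) := by rw [hw]; ring
      _ ≤ ((n : ℝ) + 1) * 64 := mul_le_mul_of_nonneg_left hw64 (by positivity)
      _ = 64 * ((n : ℝ) + 1) := by ring
  have h10 : ∑ x : Fin n → Bool, W (wt x) ^ 2
      = ∑ a ∈ range (n + 1), (n.choose a : ℝ) * W a ^ 2 := by
    have := sum_wt (α := Fin n) (fun b => W b ^ 2)
    rw [Fintype.card_fin] at this
    rw [← this]
    rfl
  rw [h10]
  calc ∑ a ∈ range (n + 1), (n.choose a : ℝ) * W a ^ 2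
      ≤ ∑ _a ∈ range (n + 1), 64 * ((n : ℝ) + 1) / 2 ^ n := Finset.sum_le_sum hmain
    _ = 64 * ((n : ℝ) + 1) ^ 2 / 2 ^ n := by
        rw [Finset.sum_const, Finset.card_range, nsmul_eq_mul]
        push_cast
        ring

end Pool.Agent.Lib.MP_0430e4_lc.LPL
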