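import Pool.Agent.Lib.MP_0430e4_lc.LPL.Exist
import Pool.Agent.Lib.MP_0430e4_lc.LPL.Tail
import Pool.Agent.Lib.MP_0430e4_lc.LPL.Feas
import Pool.Agent.Lib.MP_0430e4_lc.LPL.MONO
import Pool.Agent.Lib.MP_0430e4_lc.LPL.Asy
import Pool.Agent.Lib.MP_0430e4_lc.TensorEntropy

/-!
# The exponent of Delsarte's linear program is at least `H(2 τ) / 2`
-/

set_option autoImplicit false

namespace Pool.Agent.Lib.MP_0430e4_lc.LPL

open Finset Filter Topology Polynomial
open Tensor (chi flp)
open Impr (wt lpBound)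

/-- assembly: uses `exists_W`, `tail`, `lp_ge` -/
theorem lp_ge_of_NC {n d t k : ℕ} {R : ℝ} (h : NC n d t k R) (hd : n ≤ 4 * d)
    (hD : ((n : ℝ) - 2 * d) ^ 2 ≤ 4 * n * t) :
    Real.sqrt (n.choose (2 * t + 1) / (64 * ((n : ℝ) + 1) ^ 2)) ≤ lpBound n d := by
  obtain ⟨W, h1, h2, h3, h4, h5⟩ := exists_W h
  have hn : 1 ≤ n := by have := h.hd1; have := h.hdn; omega
  have ht := tail W hn hd h.hdn hD h1 h2 h3 h5
  exact lp_ge W h.hd1 (by have := h.hdt; have := h.hdn; have := h.hd1; omega) (by positivity)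
    h1 h2 h4 h5 ht

/-- `(2 ⌊c n⌋ + 1)/n → 2c` along a sequence `n' ~ n`. -/
theorem floor_lim {c : ℝ} (hc : 0 ≤ c) :
    Tendsto (fun n : ℕ => ((2 * (⌊c * n⌋₊ : ℕ) + 1 : ℕ) : ℝ) / n) atTop (𝓝 (2 * c)) := by
  have h1 : Tendsto (fun n : ℕ => ((⌊c * n⌋₊ : ℕ) : ℝ) / n) atTop (𝓝 c) := by
    have h0 := tendsto_nat_floor_mul_div_atTop (R := ℝ) hc
    exact h0.comp tendsto_natCast_atTop_atTop
  have h2 : Tendsto (fun n : ℕ => (1 : ℝ) / n) atTop (𝓝 0) := tendsto_one_div_atTop_nhds_zero_nat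
  have h3 := (h1.const_mul 2).add h2
  rw [add_zero] at h3
  refine h3.congr fun n => ?_
  push_cast
  ring

theorem lp_le_two_pow (n d : ℕ) : lpBound n d ≤ 2 ^ n := by
  apply csSup_le
  · refine ⟨1, fun x => if x = (fun _ => false) then 1 else 0, by simp, ?_, ?_, ?_, by simp⟩
    · intro x
      simp only
      split_ifs <;> norm_num
    · intro x hx _
      simp only [if_neg hx]
    · intro y
      simp only [ite_mul, one_mul, zero_mul]
      rw [Finset.sum_ite_eq' Finset.univ]
      simp [Tensor.chi_zero_left]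
  · rintro s ⟨β, h1, h2, h3, h4, rfl⟩
    have e1 : ∑ y, ∑ x, β x * Tensor.chi x y = 2 ^ n := by
      rw [Finset.sum_comm]
      have : ∀ x : Fin n → Bool, ∑ y, β x * Tensor.chi x y =
          if x = (fun _ => false) then (2 : ℝ) ^ n else 0 := by
        intro x
        rw [← Finset.mul_sum, Tensor.sum_chi]
        split_ifs with hx
        · subst hx
          simp [h1]
        · have : ∃ i, x i = true := by
            by_contra hcon
            push Not at hcon
            apply hx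
            funext i
            simpa using hcon i
          obtain ⟨i, hi⟩ := this
          rw [Finset.prod_eq_zero (Finset.mem_univ i) (by simp [hi]), mul_zero]
      simp only [this]
      rw [Finset.sum_ite_eq' Finset.univ]
      simp
    have e2 : ∑ x, β x = ∑ x, β x * Tensor.chi x (fun _ => false) := by
      simp only [Tensor.chi_zero_right, mul_one]
    rw [← e1, e2]
    exact Finset.single_le_sum (f := fun y => ∑ x, β x * Tensor.chi x y) (fun y _ => h4 y)
      (Finset.mem_univ _)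

theorem exponent_le_one (δ : ℝ) (n : ℕ) : Real.logb 2 (lpBound n ⌈δ * n⌉₊) / n ≤ 1 := by
  rcases Nat.eq_zero_or_pos n with h | h
  · subst h
    simp
  · have hn0 : (0 : ℝ) < n := by exact_mod_cast h
    rw [div_le_one hn0]
    have := Real.logb_le_logb_of_le (b := 2) (by norm_num)
      (lt_of_lt_of_le one_pos (Impr.one_le_lpBound n ⌈δ * n⌉₊)) (lp_le_two_pow n ⌈δ * n⌉₊)
    rwa [Real.logb_pow, Real.logb_self_eq_one (by norm_num), mul_one] at this

theorem exponent_nonneg (δ : ℝ) (n : ℕ) : 0 ≤ Real.logb 2 (lpBound n ⌈δ * n⌉₊) / n :=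
  div_nonneg (Real.logb_nonneg (by norm_num) (Impr.one_le_lpBound _ _)) (Nat.cast_nonneg _)

theorem cobdd (δ : ℝ) : IsCoboundedUnder (· ≥ ·) atTop
    (fun n : ℕ => Real.logb 2 (lpBound n ⌈δ * n⌉₊) / n) := by
  apply IsCoboundedUnder.of_frequently_le (a := 1)
  apply Eventually.frequently
  filter_upwards with n
  exact exponent_le_one δ n

/-- the explicit lower bound -/
noncomputable def lo (c : ℝ) (m : ℕ) : ℝ :=
  (m * Real.binEntropy (((2 * (⌊c * m⌋₊ : ℕ) + 1 : ℕ) : ℝ) / m) - Real.log (m + 1)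
    - Real.log 64 - 2 * Real.log (m + 1)) / (2 * Real.log 2)

theorem logb_ge {m t : ℕ} (h0 : 0 < 2 * t + 1) (h1 : 2 * t + 1 < m) :
    (m * Real.binEntropy (((2 * t + 1 : ℕ) : ℝ) / m) - Real.log (m + 1)
      - Real.log 64 - 2 * Real.log (m + 1)) / (2 * Real.log 2)
    ≤ Real.logb 2 (Real.sqrt (m.choose (2 * t + 1) / (64 * ((m : ℝ) + 1) ^ 2))) := by
  have h2 := Tensor.entropy_le_log_choose (n := m) (w := 2 * t + 1) h0 h1
  have hch : (0 : ℝ) < (m.choose (2 * t + 1) : ℕ) := by exact_mod_cast Nat.choose_pos h1.le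
  have hl2 : 0 < Real.log 2 := Real.log_pos (by norm_num)
  have hm1 : (0 : ℝ) < (m : ℝ) + 1 := by positivity
  unfold Real.logb
  rw [Real.log_sqrt (by positivity), Real.log_div hch.ne' (by positivity),
    Real.log_mul (by norm_num) (by positivity), Real.log_pow]
  rw [div_div, div_le_div_iff_of_pos_right (by positivity)]
  push_cast at h2 ⊢
  linarith

theorem liminf_ge_of_eps {δ ε : ℝ} (h0 : 0 < δ) (h1 : δ < 1 / 2) (h2 : 4 * tau δ < δ)
    (he : 0 < ε) (he2 : ε < tau δ ^ 2 / 2) :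
    Real.binEntropy (2 * (tau δ - ε)) / (2 * Real.log 2)
      ≤ liminf (fun n : ℕ => Real.logb 2 (lpBound n ⌈δ * n⌉₊) / n) atTop := by
  obtain ⟨f1, f2, f3⟩ := tau_facts h0 h1 h2
  have hl2 : 0 < Real.log 2 := Real.log_pos (by norm_num)
  set c : ℝ := tau δ - ε with hc
  have htau : tau δ < 1 / 2 := by
    unfold tau
    have : 0 < Real.sqrt (δ * (1 - δ)) := Real.sqrt_pos.2 (by nlinarith)
    linarith
  have hc0 : 0 < c := by nlinarith
  -- the even part of `n`
  set e : ℕ → ℕ := fun n => 2 * (n / 2) with hedef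
  have he_even : ∀ n, Even (e n) := fun n => even_two_mul _
  have he_le : ∀ n, e n ≤ n := fun n => Nat.mul_div_le n 2
  have he_ge : ∀ n, n ≤ e n + 1 := fun n => by simp only [hedef]; omega
  have he_top : Tendsto e atTop atTop := by
    apply tendsto_atTop_mono (f := fun n => n - 1)
    · intro n
      have := he_ge n
      omega
    · exact tendsto_sub_atTop_nat 1
  have hNC := he_top.eventually (eventually_NC h0 h1 h2 he he2)
  -- the limit of the lower bound
  have hlim1 : Tendsto (fun m : ℕ => lo c m / m) atTop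
      (𝓝 (Real.binEntropy (2 * c) / (2 * Real.log 2))) := by
    have g1 := (Real.binEntropy_continuous.tendsto (2 * c)).comp (floor_lim hc0.le)
    have g2 : Tendsto (fun m : ℕ => Real.log ((m : ℝ) + 1) / m) atTop (𝓝 0) := by
      have q1 : Tendsto (fun m : ℕ => Real.log ((m : ℝ) + 1) / ((m : ℝ) + 1)) atTop (𝓝 0) := by
        have q0 := Real.isLittleO_log_id_atTop.tendsto_div_nhds_zero
        have q2 : Tendsto (fun m : ℕ => (m : ℝ) + 1) atTop atTop :=
          tendsto_atTop_add_const_right _ _ tendsto_natCast_atTop_atTop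
        exact q0.comp q2
      have q3 : Tendsto (fun m : ℕ => ((m : ℝ) + 1) / m) atTop (𝓝 1) := by
        have : Tendsto (fun m : ℕ => 1 + (1 : ℝ) / m) atTop (𝓝 (1 + 0)) :=
          tendsto_const_nhds.add tendsto_one_div_atTop_nhds_zero_nat
        rw [add_zero] at this
        refine this.congr' ?_
        filter_upwards [eventually_ge_atTop 1] with m hm
        have : (m : ℝ) ≠ 0 := by positivity
        field_simp
      have q4 := q1.mul q3
      rw [zero_mul] at q4
      refine q4.congr fun m => ?_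
      have : (m : ℝ) + 1 ≠ 0 := by positivity
      field_simp
    have g3 : Tendsto (fun m : ℕ => Real.log 64 / (m : ℝ)) atTop (𝓝 0) :=
      tendsto_const_div_atTop_nhds_zero_nat _
    have g4 := (((g1.sub g2).sub g3).sub (g2.const_mul 2)).div_const (2 * Real.log 2)
    have e0 : (Real.binEntropy (2 * c) - 0 - 0 - 2 * 0) / (2 * Real.log 2)
        = Real.binEntropy (2 * c) / (2 * Real.log 2) := by ring
    rw [e0] at g4
    refine g4.congr' ?_
    filter_upwards [eventually_ge_atTop 1] with m hm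
    have : (m : ℝ) ≠ 0 := by positivity
    unfold lo
    simp only [Function.comp]
    field_simp
  have hratio : Tendsto (fun n : ℕ => ((e n : ℕ) : ℝ) / n) atTop (𝓝 1) := by
    have a1 : Tendsto (fun n : ℕ => 1 - (1 : ℝ) / n) atTop (𝓝 (1 - 0)) :=
      tendsto_const_nhds.sub tendsto_one_div_atTop_nhds_zero_nat
    rw [sub_zero] at a1
    refine tendsto_of_tendsto_of_tendsto_of_le_of_le' a1 tendsto_const_nhds ?_ ?_
    · filter_upwards [eventually_ge_atTop 1] with n hn
      have hn0 : (0 : ℝ) < n := by positivity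
      rw [le_div_iff₀ hn0, sub_mul, one_mul, div_mul_cancel₀ _ hn0.ne']
      have : (n : ℝ) ≤ (e n : ℕ) + 1 := by exact_mod_cast he_ge n
      linarith
    · filter_upwards [eventually_ge_atTop 1] with n hn
      have hn0 : (0 : ℝ) < n := by positivity
      rw [div_le_one hn0]
      exact_mod_cast he_le n
  have hlim2 : Tendsto (fun n : ℕ => lo c (e n) / n) atTop
      (𝓝 (Real.binEntropy (2 * c) / (2 * Real.log 2))) := by
    have := (hlim1.comp he_top).mul hratio
    rw [mul_one] at this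
    refine this.congr' ?_
    filter_upwards [eventually_ge_atTop 2] with n hn
    have : (0 : ℝ) < (e n : ℕ) := by
      have : 0 < e n := by have := he_ge n; omega
      exact_mod_cast this
    have hn0 : (0 : ℝ) < n := by positivity
    simp only [Function.comp]
    field_simp
  rw [← hlim2.liminf_eq]
  apply liminf_le_liminf
  · filter_upwards [hNC, eventually_ge_atTop 2] with n hn hn2
    have hn0 : (0 : ℝ) < n := by positivity
    set m := e n with hm
    -- choose the even distance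
    obtain ⟨d, hde, hd1, hd2⟩ : ∃ d : ℕ, Even d ∧ ⌈δ * n⌉₊ ≤ d ∧ d ≤ ⌈δ * n⌉₊ + 1 := by
      rcases Nat.even_or_odd ⌈δ * n⌉₊ with h | h
      · exact ⟨_, h, le_rfl, Nat.le_succ _⟩
      · exact ⟨⌈δ * n⌉₊ + 1, h.add_one, Nat.le_succ _, le_rfl⟩
    have hmn : (m : ℝ) ≤ n := by exact_mod_cast he_le n
    have hmn' : (n : ℝ) ≤ m + 1 := by exact_mod_cast he_ge n
    have hc1 : δ * m ≤ d := by
      have a1 : δ * n ≤ ⌈δ * n⌉₊ := Nat.le_ceil _
      have a2 : ((⌈δ * n⌉₊ : ℕ) : ℝ) ≤ d := by exact_mod_cast hd1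
      nlinarith
    have hc2 : (d : ℝ) ≤ δ * m + 3 := by
      have a1 : ((⌈δ * n⌉₊ : ℕ) : ℝ) < δ * n + 1 := Nat.ceil_lt_add_one (by positivity)
      have a2 : (d : ℝ) ≤ ((⌈δ * n⌉₊ : ℕ) : ℝ) + 1 := by exact_mod_cast hd2
      nlinarith
    obtain ⟨b1, b2, k, R, b3⟩ := hn d (he_even n) hde hc1 hc2
    have b4 := lp_ge_of_NC b3 b1 b2
    have b5 : Real.sqrt (m.choose (2 * ⌊c * m⌋₊ + 1) / (64 * ((m : ℝ) + 1) ^ 2))
        ≤ lpBound n ⌈δ * n⌉₊ := by
      refine b4.trans ((lpBound_anti hd1).trans ?_)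
      have := he_ge n
      have h' := he_le n
      rcases Nat.lt_or_ge m n with h | h
      · have hnm : n = m + 1 := by omega
        have := lpBound_mono m ⌈δ * n⌉₊
        rwa [← hnm] at this
      · have : m = n := le_antisymm h' h
        rw [this]
    have b6 : 2 * ⌊c * m⌋₊ + 1 < m := by
      have q1 := b3.hdt
      have q2 := b3.hdn
      have q3 := b3.hd1
      have q4 := b3.ht
      change 4 * ⌊c * m⌋₊ ≤ d at q1
      omega
    have b7 := logb_ge (m := m) (t := ⌊c * m⌋₊) (by omega) b6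
    have hsq : 0 < Real.sqrt (m.choose (2 * ⌊c * m⌋₊ + 1) / (64 * ((m : ℝ) + 1) ^ 2)) := by
      apply Real.sqrt_pos.2
      have : (0 : ℝ) < (m.choose (2 * ⌊c * m⌋₊ + 1) : ℕ) := by exact_mod_cast Nat.choose_pos b6.le
      positivity
    have b8 := Real.logb_le_logb_of_le (b := 2) (by norm_num) hsq b5
    rw [div_le_div_iff_of_pos_right hn0]
    exact b7.trans b8
  · exact hlim2.isBoundedUnder_ge
  · exact cobdd δ

theorem liminf_ge {δ : ℝ} (h0 : 0 < δ) (h1 : δ < 1 / 2) (h2 : 4 * tau δ < δ) :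
    Real.binEntropy (2 * tau δ) / (2 * Real.log 2)
      ≤ liminf (fun n : ℕ => Real.logb 2 (lpBound n ⌈δ * n⌉₊) / n) atTop := by
  obtain ⟨f1, f2, f3⟩ := tau_facts h0 h1 h2
  have hlim : Tendsto (fun ε : ℝ => Real.binEntropy (2 * (tau δ - ε)) / (2 * Real.log 2))
      (𝓝[>] 0) (𝓝 (Real.binEntropy (2 * tau δ) / (2 * Real.log 2))) := by
    have hc : Continuous fun ε : ℝ => Real.binEntropy (2 * (tau δ - ε)) / (2 * Real.log 2) :=
      (Real.binEntropy_continuous.comp (by fun_prop)).div_const _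
    have := (hc.tendsto 0).mono_left (nhdsWithin_le_nhds (s := Set.Ioi (0 : ℝ)))
    simpa using this
  apply le_of_tendsto hlim
  have : Set.Ioo 0 (tau δ ^ 2 / 2) ∈ 𝓝[>] (0 : ℝ) := Ioo_mem_nhdsGT (by positivity)
  filter_upwards [this] with ε hε
  exact liminf_ge_of_eps h0 h1 h2 hε.1 hε.2

end Pool.Agent.Lib.MP_0430e4_lc.LPL
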