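import Pool.Agent.Lib.MP_0430e4_lc.LPL.Defs

/-!
# Gale evenness
-/

set_option autoImplicit false

namespace Pool.Agent.Lib.MP_0430e4_lc.LPL

open Finset

private theorem gale_aux {lo hi : ℕ} : ∀ (k : ℕ) (Z : Finset ℕ), Z.card = 2 * k →
    (∀ z ∈ Z, Even z ∧ lo ≤ z ∧ z ≤ hi) →
    (∀ x, Even x → lo ≤ x → x ≤ hi → x ∉ Z → Even (Z.filter fun z => x < z).card) →
    ∃ M : Finset ℕ, (∀ m ∈ M, Odd m ∧ lo < m ∧ m < hi) ∧
      (∀ m ∈ M, ∀ m' ∈ M, m < m' → m + 4 ≤ m') ∧
      M.card = k ∧ (∀ z, z ∈ Z ↔ ∃ m ∈ M, z = m + 1 ∨ z + 1 = m) ∧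
      ∀ x : ℝ, ∏ z ∈ Z, (x - z) = qM M x := by
  intro k
  induction k with
  | zero =>
    intro Z hc hZ h
    have hZ0 : Z = ∅ := Finset.card_eq_zero.1 (by omega)
    subst hZ0
    exact ⟨∅, by simp, by simp, rfl, by simp, by simp [qM]⟩
  | succ k ih =>
    intro Z hc hZ h
    have hne : Z.Nonempty := Finset.card_pos.1 (by omega)
    obtain ⟨z, hz, hmax⟩ : ∃ z ∈ Z, ∀ y ∈ Z, y ≤ z :=
      ⟨Z.max' hne, Z.max'_mem hne, fun y hy => Z.le_max' y hy⟩
    obtain ⟨y, hy, hyz⟩ : ∃ y ∈ Z, y ≠ z :=
      Finset.exists_mem_ne (by omega) z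
    have hylt : y < z := lt_of_le_of_ne (hmax y hy) hyz
    have hy2 : y + 2 ≤ z := by
      have h1 := (hZ y hy).1
      have h2 := (hZ z hz).1
      rw [Nat.even_iff] at h1 h2
      omega
    obtain ⟨v, rfl⟩ : ∃ v, z = v + 2 := ⟨z - 2, by omega⟩
    have hve : Even v := by
      have h2 := (hZ _ hz).1
      rw [Nat.even_iff] at h2 ⊢
      omega
    have hvlo : lo ≤ v := by have := (hZ y hy).2.1; omega
    have hvhi : v + 2 ≤ hi := (hZ _ hz).2.2
    have hv : v ∈ Z := by
      by_contra hcon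
      have h1 := h v hve hvlo (by omega) hcon
      have h2 : (Z.filter fun z => v < z) = {v + 2} := by
        ext w
        simp only [Finset.mem_filter, Finset.mem_singleton]
        constructor
        · rintro ⟨h3, h4⟩
          have h5 := hmax w h3
          have h6 := (hZ w h3).1
          rw [Nat.even_iff] at h6 hve
          omega
        · rintro rfl
          exact ⟨hz, by omega⟩
      rw [h2] at h1
      simp at h1
    have hv1 : v ∈ Z.erase (v + 2) := Finset.mem_erase.2 ⟨by omega, hv⟩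
    set Z' : Finset ℕ := (Z.erase (v + 2)).erase v with hZ'
    have hsub : ∀ w ∈ Z', w ∈ Z ∧ w + 2 ≤ v := by
      intro w hw
      rw [hZ', Finset.mem_erase, Finset.mem_erase] at hw
      obtain ⟨h1, h2, h3⟩ := hw
      have h4 := hmax w h3
      have h5 := (hZ w h3).1
      rw [Nat.even_iff] at h5 hve
      exact ⟨h3, by omega⟩
    have hmem : ∀ w, w ∈ Z ↔ w = v + 2 ∨ w = v ∨ w ∈ Z' := by
      intro w
      rw [hZ', Finset.mem_erase, Finset.mem_erase]
      constructor
      · intro hw
        by_cases h1 : w = v + 2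
        · exact Or.inl h1
        · by_cases h2 : w = v
          · exact Or.inr (Or.inl h2)
          · exact Or.inr (Or.inr ⟨h2, h1, hw⟩)
      · rintro (rfl | rfl | ⟨_, _, hw⟩)
        · exact hz
        · exact hv
        · exact hw
    have hcard' : Z'.card = 2 * k := by
      have h1 := Finset.card_erase_of_mem hz
      have h2 := Finset.card_erase_of_mem hv1
      rw [← hZ'] at h2
      omega
    obtain ⟨M, hM1, hM2, hM3, hM4, hM5⟩ := ih Z' hcard' (fun w hw => hZ w (hsub w hw).1) (by
      intro x h1 h2 h3 h4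
      by_cases h5 : v ≤ x
      · have h6 : (Z'.filter fun z => x < z) = ∅ := by
          rw [Finset.filter_eq_empty_iff]
          intro w hw
          have := (hsub w hw).2
          omega
        rw [h6]
        simp
      · have h6 : x ∉ Z := by
          rw [hmem]
          rintro (h7 | h7 | h7)
          · omega
          · omega
          · exact h4 h7
        have h7 := h x h1 h2 h3 h6
        have h8 : (Z'.filter fun z => x < z) =
            ((Z.filter fun z => x < z).erase (v + 2)).erase v := by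
          ext w
          simp only [hZ', Finset.mem_filter, Finset.mem_erase]
          tauto
        have h9 : v + 2 ∈ (Z.filter fun z => x < z) := Finset.mem_filter.2 ⟨hz, by omega⟩
        have h10 : v ∈ (Z.filter fun z => x < z).erase (v + 2) :=
          Finset.mem_erase.2 ⟨by omega, Finset.mem_filter.2 ⟨hv, by omega⟩⟩
        have h11 := Finset.card_erase_of_mem h9
        have h12 := Finset.card_erase_of_mem h10
        have h13 := Finset.card_pos.2 ⟨_, h9⟩
        have h14 := Finset.card_pos.2 ⟨_, h10⟩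
        rw [h8]
        rw [Nat.even_iff] at h7 ⊢
        omega)
    have hMv : ∀ m ∈ M, m + 3 ≤ v := by
      intro m hm
      have h1 : m + 1 ∈ Z' := (hM4 _).2 ⟨m, hm, Or.inl rfl⟩
      have h2 := (hsub _ h1).2
      omega
    have hnot : v + 1 ∉ M := fun hcon => by have := hMv _ hcon; omega
    refine ⟨insert (v + 1) M, ?_, ?_, ?_, ?_, ?_⟩
    · intro m hm
      rcases Finset.mem_insert.1 hm with rfl | hm
      · exact ⟨hve.add_one, by omega, by omega⟩
      · exact hM1 m hm
    · intro m hm m' hm' hlt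
      rcases Finset.mem_insert.1 hm with rfl | hm
      · rcases Finset.mem_insert.1 hm' with rfl | hm'
        · omega
        · have := hMv _ hm'
          omega
      · rcases Finset.mem_insert.1 hm' with rfl | hm'
        · have := hMv _ hm
          omega
        · exact hM2 m hm m' hm' hlt
    · rw [Finset.card_insert_of_notMem hnot, hM3]
    · intro w
      rw [hmem, hM4]
      constructor
      · rintro (rfl | rfl | ⟨m, hm, hw⟩)
        · exact ⟨v + 1, Finset.mem_insert_self _ _, Or.inl rfl⟩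
        · exact ⟨w + 1, Finset.mem_insert_self _ _, Or.inr rfl⟩
        · exact ⟨m, Finset.mem_insert_of_mem hm, hw⟩
      · rintro ⟨m, hm, hw⟩
        rcases Finset.mem_insert.1 hm with rfl | hm
        · rcases hw with rfl | hw
          · exact Or.inl rfl
          · exact Or.inr (Or.inl (by omega))
        · exact Or.inr (Or.inr ⟨m, hm, hw⟩)
    · intro x
      rw [← Finset.mul_prod_erase Z _ hz, ← Finset.mul_prod_erase (Z.erase (v + 2)) _ hv1,
        ← hZ', hM5 x, qM, qM, Finset.prod_insert hnot]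
      push_cast
      ring

/-- Gale evenness. Induction on `Z.card`: if `Z` is not empty, `z = max Z`, then `z - 2 ∈ Z`;
remove both, put `m = z - 1`. -/
theorem gale {lo hi : ℕ} (Z : Finset ℕ) (hZ : ∀ z ∈ Z, Even z ∧ lo ≤ z ∧ z ≤ hi)
    (hcard : Even Z.card)
    (h : ∀ x, Even x → lo ≤ x → x ≤ hi → x ∉ Z → Even (Z.filter fun z => x < z).card) :
    ∃ M : Finset ℕ, (∀ m ∈ M, Odd m ∧ lo < m ∧ m < hi) ∧
      (∀ m ∈ M, ∀ m' ∈ M, m < m' → m + 4 ≤ m') ∧
      Z.card = 2 * M.card ∧ (∀ z, z ∈ Z ↔ ∃ m ∈ M, z = m + 1 ∨ z + 1 = m) ∧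
      ∀ x : ℝ, ∏ z ∈ Z, (x - z) = qM M x := by
  obtain ⟨k, hk⟩ := hcard
  obtain ⟨M, h1, h2, h3, h4, h5⟩ := gale_aux k Z (by omega) hZ h
  exact ⟨M, h1, h2, by omega, h4, h5⟩

end Pool.Agent.Lib.MP_0430e4_lc.LPL
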