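import Pool.Agent.Lib.MP_0430e4_lc.LPL.QF
import Pool.Agent.Lib.MP_0430e4_lc.LPL.EDGE
import Pool.Agent.Lib.MP_0430e4_lc.LPL.NORM
import Pool.Agent.Lib.MP_0430e4_lc.LPL.CUB2
import Pool.Agent.Lib.MP_0430e4_lc.LPL.Ext2
import Pool.Agent.Lib.MP_0430e4_lc.LPL.Cases

/-!
# The functional is strictly positive on nonzero polynomials nonnegative on `Ev n d`
-/

set_option autoImplicit false

namespace Pool.Agent.Lib.MP_0430e4_lc.LPL

open Finset Filter Topology Polynomial
open Tensor (chi flp)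
open Impr (wt lpBound)

/-- Quantitative form of `case_two` (same proof). -/
theorem case_two_strong {n d t k : ℕ} {R : ℝ} (h : NC n d t k R) {M : Finset ℕ} (hM : Adm n d M)
    (hc : M.card + 1 = t) :
    (n : ℝ) ^ 2 * ((4 * ((t : ℝ) + k) * ((n : ℝ) - (t + k) + 1) / R) ^ k
        * ∑ x : Fin n → Bool, fM M (wt x) ^ 2)
      ≤ 4 * ∑ x : Fin n → Bool, (if Even (wt x) then
      ((wt x : ℝ) - d) * ((n : ℝ) - d - wt x) * qM M (wt x) else 0) := by
  classical
  set S : ℝ := ∑ x : Fin n → Bool, fM M (wt x) ^ 2 with hS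
  have hS0 : 0 ≤ S := Finset.sum_nonneg fun x _ => sq_nonneg _
  have hdt := h.hdt
  have hd1 := h.hd1
  have hdn := h.hdn
  have hk := h.hk
  have hR := h.hR
  have hd0 : (0 : ℝ) < d := by exact_mod_cast hd1
  have hMt : (M.card : ℝ) = (t : ℝ) - 1 := by
    rw [← hc]
    push_cast
    ring
  have hpe : ∀ x : Fin n → Bool, pev (fP M) x = fM M (wt x) := fun x => fP_eval M _
  -- the even half
  have h1 := even_half (n := n) (s := M.card) (fP M) (fP_natDegree M).le (by omega)
  simp only [hpe] at h1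
  rw [← hS] at h1
  have h2 := edge_mass hM
  rw [← hS, hMt] at h2
  set Em : ℝ := ∑ x : Fin n → Bool,
    (if ∃ m ∈ M, wt x = m + 1 ∨ wt x + 1 = m then fM M (wt x) ^ 2 else 0) with hEm
  have h2' : Em ≤ 2 * ((t : ℝ) - 1) / d * S := by
    rw [div_mul_eq_mul_div, le_div_iff₀ hd0]
    linarith
  -- lower bound for the sum of q
  have h3 : 1 / 2 * (1 / 2 - 2 * ((t : ℝ) - 1) / d) * S
      ≤ ∑ x : Fin n → Bool, (if Even (wt x) then qM M (wt x) else 0) := by
    have h4 : ∑ x : Fin n → Bool, 1 / 2 * ((if Even (wt x) then fM M (wt x) ^ 2 else 0)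
        - (if ∃ m ∈ M, wt x = m + 1 ∨ wt x + 1 = m then fM M (wt x) ^ 2 else 0))
        ≤ ∑ x : Fin n → Bool, (if Even (wt x) then qM M (wt x) else 0) := by
      apply Finset.sum_le_sum
      intro x _
      by_cases hx : Even (wt x)
      · rw [if_pos hx, if_pos hx]
        by_cases hxM : ∃ m ∈ M, wt x = m + 1 ∨ wt x + 1 = m
        · rw [if_pos hxM, sub_self, mul_zero]
          exact qM_nonneg hM hx
        · rw [if_neg hxM, sub_zero]
          exact qM_ge hM hx hxM
      · rw [if_neg hx, if_neg hx]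
        have : 0 ≤ (if ∃ m ∈ M, wt x = m + 1 ∨ wt x + 1 = m then fM M (wt x : ℝ) ^ 2 else 0) := by
          split_ifs
          · positivity
          · exact le_rfl
        linarith
    rw [← Finset.mul_sum, Finset.sum_sub_distrib, ← hEm] at h4
    refine le_trans ?_ h4
    have : ∑ x : Fin n → Bool, (if Even (wt x) then fM M (wt x : ℝ) ^ 2 else 0) = S / 2 := by
      linarith
    rw [this]
    linarith
  -- the tail
  set η : ℝ := (4 * ((t : ℝ) + k) * ((n : ℝ) - (t + k) + 1) / R) ^ k with hη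
  have h5 : ∑ x : Fin n → Bool, (if R < ((n : ℝ) - 2 * wt x) ^ 2 then fM M (wt x) ^ 2 else 0)
      ≤ η * S := by
    have h6 := norm_mul (n := n) (s := M.card) (k := k) (T := t + k) (fP M) (fP_natDegree M).le
      (by omega) (by omega)
    simp only [hpe] at h6
    rw [← hS] at h6
    have h7 : R ^ k * ∑ x : Fin n → Bool,
        (if R < ((n : ℝ) - 2 * wt x) ^ 2 then fM M (wt x) ^ 2 else 0)
        ≤ ∑ x : Fin n → Bool, (((n : ℝ) - 2 * wt x) ^ k * fM M (wt x)) ^ 2 := by
      rw [Finset.mul_sum]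
      apply Finset.sum_le_sum
      intro x _
      split_ifs with hx
      · have h8 : R ^ k ≤ (((n : ℝ) - 2 * wt x) ^ 2) ^ k := pow_le_pow_left₀ hR.le hx.le k
        have h9 : (((n : ℝ) - 2 * wt x) ^ k * fM M (wt x)) ^ 2
            = (((n : ℝ) - 2 * wt x) ^ 2) ^ k * fM M (wt x) ^ 2 := by
          rw [mul_pow, ← pow_mul, ← pow_mul, mul_comm k 2]
        rw [h9]
        exact mul_le_mul_of_nonneg_right h8 (sq_nonneg _)
      · rw [mul_zero]
        positivity
    have hRk : 0 < R ^ k := pow_pos hR k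
    have h8 := h7.trans h6
    rw [hη, div_pow, div_mul_eq_mul_div, le_div_iff₀ hRk, mul_comm]
    refine h8.trans (le_of_eq ?_)
    push_cast
    ring
  -- combination
  have h6 : (((n : ℝ) - 2 * d) ^ 2 - R) * ∑ x : Fin n → Bool,
      (if Even (wt x) then qM M (wt x) else 0)
      - (n : ℝ) ^ 2 * ∑ x : Fin n → Bool,
        (if R < ((n : ℝ) - 2 * wt x) ^ 2 then fM M (wt x) ^ 2 else 0)
      ≤ 4 * ∑ x : Fin n → Bool, (if Even (wt x) then
      ((wt x : ℝ) - d) * ((n : ℝ) - d - wt x) * qM M (wt x) else 0) := by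
    rw [Finset.mul_sum, Finset.mul_sum, Finset.mul_sum, ← Finset.sum_sub_distrib]
    apply Finset.sum_le_sum
    intro x _
    have hwn : (wt x : ℝ) ≤ n := by exact_mod_cast wt_le x
    have hw0 : (0 : ℝ) ≤ wt x := by positivity
    by_cases hx : Even (wt x)
    · rw [if_pos hx, if_pos hx]
      have hq0 := qM_nonneg hM hx
      have hq1 := qM_le hM hx
      have hid : 4 * (((wt x : ℝ) - d) * ((n : ℝ) - d - wt x) * qM M (wt x))
          = (((n : ℝ) - 2 * d) ^ 2 - ((n : ℝ) - 2 * wt x) ^ 2) * qM M (wt x) := by ring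
      rw [hid]
      by_cases hr : R < ((n : ℝ) - 2 * wt x) ^ 2
      · rw [if_pos hr]
        have h7 : ((n : ℝ) - 2 * wt x) ^ 2 ≤ (n : ℝ) ^ 2 := by nlinarith
        have h8 : (((n : ℝ) - 2 * wt x) ^ 2 - R) * qM M (wt x)
            ≤ (n : ℝ) ^ 2 * fM M (wt x) ^ 2 := by
          apply mul_le_mul _ hq1 hq0 (by positivity)
          linarith
        linarith
      · rw [if_neg hr, mul_zero, sub_zero]
        push Not at hr
        apply mul_le_mul_of_nonneg_right _ hq0
        linarith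
    · rw [if_neg hx, if_neg hx, mul_zero, mul_zero, zero_sub, neg_nonpos]
      apply mul_nonneg (by positivity)
      split_ifs
      · positivity
      · exact le_rfl
  have h7 := h.heta
  rw [← hη] at h7
  have hRD := h.hRD
  have h8 : (((n : ℝ) - 2 * d) ^ 2 - R) * (1 / 2 * (1 / 2 - 2 * ((t : ℝ) - 1) / d) * S)
      ≤ (((n : ℝ) - 2 * d) ^ 2 - R) * ∑ x : Fin n → Bool,
      (if Even (wt x) then qM M (wt x) else 0) :=
    mul_le_mul_of_nonneg_left h3 (by linarith)
  have h9 : (n : ℝ) ^ 2 * ∑ x : Fin n → Bool,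
      (if R < ((n : ℝ) - 2 * wt x) ^ 2 then fM M (wt x) ^ 2 else 0) ≤ (n : ℝ) ^ 2 * (η * S) :=
    mul_le_mul_of_nonneg_left h5 (by positivity)
  have h10 := mul_le_mul_of_nonneg_right h7 hS0
  have hη0 : 0 ≤ (n : ℝ) ^ 2 * (η * S) := by
    refine le_trans ?_ h9
    apply mul_nonneg (by positivity)
    apply Finset.sum_nonneg
    intro x _
    split_ifs
    · positivity
    · exact le_rfl
  nlinarith


namespace LfPosAux

/-- there is a word of every weight -/
theorem exists_wt {n a : ℕ} (ha : a ≤ n) : ∃ x : Fin n → Bool, wt x = a := by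
  refine ⟨fun i => decide ((i : ℕ) < a), ?_⟩
  unfold wt
  have : (univ.filter fun i : Fin n => decide ((i : ℕ) < a) = true)
      = univ.filter fun i : Fin n => (i : ℕ) < a := by
    ext i
    simp
  rw [this, Fin.card_filter_val_lt]
  omega

theorem qM_eq_zero {M : Finset ℕ} {x : ℕ} (h : qM M x = 0) :
    x ∈ M.image (fun m => m + 1) ∪ M.image (fun m => m - 1) := by
  unfold qM at h
  rw [Finset.prod_eq_zero_iff] at h
  obtain ⟨m, hm, h0⟩ := h
  have h1 : ((x : ℝ) - m - 1) * ((x : ℝ) - m + 1) = 0 := by linarith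
  rw [Finset.mem_union, Finset.mem_image, Finset.mem_image]
  rcases mul_eq_zero.1 h1 with h2 | h2
  · left
    refine ⟨m, hm, ?_⟩
    have : (x : ℝ) = ((m + 1 : ℕ) : ℝ) := by push_cast; linarith
    exact_mod_cast this.symm
  · right
    refine ⟨m, hm, ?_⟩
    have : (m : ℝ) = ((x + 1 : ℕ) : ℝ) := by push_cast; linarith
    have : m = x + 1 := by exact_mod_cast this
    omega

end LfPosAux

open LfPosAux

theorem card_Ev' {n d t : ℕ} (hd : Even d) (hdn : 2 * d ≤ n)
    (hc : 4 * t ≤ n - 2 * d) : 2 * t < (Ev n d).card := by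
  have hinj : Set.InjOn (fun i : ℕ => d + 2 * i) (Finset.range (2 * t + 1) : Set ℕ) := by
    intro i _ j _ hij
    simp only at hij
    omega
  have hsub : (Finset.range (2 * t + 1)).image (fun i : ℕ => d + 2 * i) ⊆ Ev n d := by
    intro a ha
    rw [Finset.mem_image] at ha
    obtain ⟨i, hi, rfl⟩ := ha
    rw [Finset.mem_range] at hi
    unfold Ev
    rw [Finset.mem_filter, Finset.mem_range]
    refine ⟨by omega, ?_, by omega, by omega⟩
    obtain ⟨k, hk⟩ := hd
    exact ⟨k + i, by omega⟩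
  have h1 := Finset.card_le_card hsub
  rw [Finset.card_image_of_injOn hinj, Finset.card_range] at h1
  omega

theorem sum_qM_pos {n d t : ℕ} {M : Finset ℕ} (hd : Even d) (hdn : 2 * d ≤ n)
    (hc : 4 * t ≤ n - 2 * d) (hM : Adm n d M) (hMc : M.card ≤ t) :
    0 < ∑ x : Fin n → Bool, if Even (wt x) then qM M (wt x) else 0 := by
  have h0 : ∀ x ∈ (univ : Finset (Fin n → Bool)), 0 ≤ (if Even (wt x) then qM M (wt x) else 0) := by
    intro x _
    split_ifs with h
    · exact qM_nonneg hM h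
    · exact le_rfl
  obtain ⟨a, haE, haq⟩ : ∃ a ∈ Ev n d, qM M a ≠ 0 := by
    by_contra hcon
    push Not at hcon
    have hsub : Ev n d ⊆ M.image (fun m => m + 1) ∪ M.image (fun m => m - 1) :=
      fun a ha => qM_eq_zero (hcon a ha)
    have h1 := Finset.card_le_card hsub
    have h2 := Finset.card_union_le (M.image (fun m => m + 1)) (M.image (fun m => m - 1))
    have h3 := Finset.card_image_le (s := M) (f := fun m => m + 1)
    have h4 := Finset.card_image_le (s := M) (f := fun m => m - 1)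
    have h5 := card_Ev' hd hdn hc
    omega
  have haE' := haE
  unfold Ev at haE'
  rw [Finset.mem_filter, Finset.mem_range] at haE'
  obtain ⟨x, hx⟩ := exists_wt (n := n) (a := a) (by omega)
  apply Finset.sum_pos' h0
  refine ⟨x, Finset.mem_univ _, ?_⟩
  rw [hx, if_pos haE'.2.1]
  exact lt_of_le_of_ne (qM_nonneg hM haE'.2.1) (Ne.symm haq)

theorem case_two_pos {n d t k : ℕ} {R : ℝ} (h : NC n d t k R) {M : Finset ℕ} (hM : Adm n d M)
    (hc : M.card + 1 = t) :
    0 < ∑ x : Fin n → Bool, if Even (wt x) then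
      ((wt x : ℝ) - d) * ((n : ℝ) - d - wt x) * qM M (wt x) else 0 := by
  have h1 := case_two_strong h hM hc
  have hd1 := h.hd1
  have hdn := h.hdn
  have ht := h.ht
  have hk := h.hk
  have hn0 : (0 : ℝ) < n := by
    have : 0 < n := by omega
    exact_mod_cast this
  have hS : 0 < ∑ x : Fin n → Bool, fM M (wt x) ^ 2 := by
    apply Finset.sum_pos' (fun x _ => sq_nonneg _)
    refine ⟨fun _ => false, Finset.mem_univ _, ?_⟩
    have hw0 : wt (fun _ : Fin n => false) = 0 := by
      unfold wt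
      simp
    rw [hw0]
    have : fM M ((0 : ℕ) : ℝ) ≠ 0 := by
      unfold fM
      rw [Finset.prod_ne_zero_iff]
      intro m hm
      have := hM.lo m hm
      have : (0 : ℝ) < m := by
        have : 0 < m := by omega
        exact_mod_cast this
      push_cast
      linarith
    positivity
  have hη : 0 < (4 * ((t : ℝ) + k) * ((n : ℝ) - (t + k) + 1) / R) ^ k := by
    apply pow_pos
    apply div_pos _ h.hR
    have ht0 : (1 : ℝ) ≤ t := by exact_mod_cast ht
    have hk0 : (2 : ℝ) * ((t : ℝ) + k) ≤ n := by exact_mod_cast hk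
    have hk1 : (0 : ℝ) ≤ k := by positivity
    apply mul_pos
    · positivity
    · linarith
  have h2 : 0 < (n : ℝ) ^ 2 * ((4 * ((t : ℝ) + k) * ((n : ℝ) - (t + k) + 1) / R) ^ k
        * ∑ x : Fin n → Bool, fM M (wt x) ^ 2) := by positivity
  linarith

theorem Lf_pos {n d t k : ℕ} {R : ℝ} (h : NC n d t k R) (P : ℝ[X]) (hP0 : P ≠ 0)
    (hP : P.natDegree ≤ 2 * t) (hpos : ∀ a ∈ Ev n d, 0 ≤ P.eval (a : ℝ)) : 0 < Lf n P := by
  refine pos_of_extreme_strict (Ev n d) (2 * t) (card_Ev' h.hd h.hdn h.hcard) (Lf n) ?_ P hP0 hP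
    hpos
  intro P hP0 hP hpos hz
  rcases structure_ext h.hn h.hd h.hdn h.ht h.hcard P hP hpos hz with h0 | ⟨c, M, hc, hM, hMc, hq⟩ |
    ⟨c, M, hc, hM, hMc, hq⟩
  · exact absurd h0 hP0
  · change 0 < (2 / 2 ^ n : ℝ) * ∑ x : Fin n → Bool, if Even (wt x) then P.eval (wt x : ℝ) else 0
    refine mul_pos (by positivity) ?_
    have h3 : (∑ x : Fin n → Bool, if Even (wt x) then P.eval (wt x : ℝ) else 0)
        = c * ∑ x : Fin n → Bool, if Even (wt x) then qM M (wt x) else 0 := by
      rw [Finset.mul_sum]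
      refine Finset.sum_congr rfl fun x _ => ?_
      split_ifs
      · rw [hq]
      · rw [mul_zero]
    rw [h3]
    exact mul_pos hc (sum_qM_pos h.hd h.hdn h.hcard hM hMc.le)
  · change 0 < (2 / 2 ^ n : ℝ) * ∑ x : Fin n → Bool, if Even (wt x) then P.eval (wt x : ℝ) else 0
    refine mul_pos (by positivity) ?_
    have h3 : (∑ x : Fin n → Bool, if Even (wt x) then P.eval (wt x : ℝ) else 0)
        = c * ∑ x : Fin n → Bool, if Even (wt x) then
          ((wt x : ℝ) - d) * ((n : ℝ) - d - wt x) * qM M (wt x) else 0 := by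
      rw [Finset.mul_sum]
      refine Finset.sum_congr rfl fun x _ => ?_
      split_ifs
      · rw [hq]
      · rw [mul_zero]
    rw [h3]
    exact mul_pos hc (case_two_pos h hM hMc)

end Pool.Agent.Lib.MP_0430e4_lc.LPL
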