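import Pool.Agent.Lib.MP_0430e4_lc.LPL.Defs

set_option autoImplicit false

namespace Pool.Agent.Lib.MP_0430e4_lc.LPL

open Finset Filter Topology Polynomial
open Tensor (chi flp)
open Impr (wt lpBound)

namespace QF

lemma odd_sq {x m : ℕ} (hx : Even x) (hm : Odd m) : (1 : ℝ) ≤ ((x : ℝ) - m) ^ 2 := by
  have h1 : (x : ℤ) ≠ m := by
    intro h
    have h2 : x = m := by exact_mod_cast h
    rw [h2] at hx
    exact (Nat.not_even_iff_odd.mpr hm) hx
  have h2 : (1 : ℤ) ≤ ((x : ℤ) - m) ^ 2 := by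
    have h3 : (x : ℤ) - m ≠ 0 := sub_ne_zero.mpr h1
    have h4 : 0 < ((x : ℤ) - m) ^ 2 := by positivity
    omega
  have h3 : ((1 : ℤ) : ℝ) ≤ ((((x : ℤ) - m) ^ 2 : ℤ) : ℝ) := by exact_mod_cast h2
  push_cast at h3
  exact h3

lemma one_sub_sum_le (M : Finset ℕ) (a : ℕ → ℝ) (h0 : ∀ m ∈ M, 0 ≤ a m) (h1 : ∀ m ∈ M, a m ≤ 1) :
    1 - ∑ m ∈ M, a m ≤ ∏ m ∈ M, (1 - a m) := by
  have key : 1 - ∑ m ∈ M, a m ≤ ∏ m ∈ M, (1 - a m) ∧ ∏ m ∈ M, (1 - a m) ≤ 1 := by
    induction M using Finset.induction_on with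
    | empty => simp
    | insert b M hb ih =>
      obtain ⟨h2, h3⟩ := ih (fun m hm => h0 m (Finset.mem_insert_of_mem hm))
        (fun m hm => h1 m (Finset.mem_insert_of_mem hm))
      rw [Finset.sum_insert hb, Finset.prod_insert hb]
      have h4 := h0 b (Finset.mem_insert_self b M)
      have h5 := h1 b (Finset.mem_insert_self b M)
      have h6 : 0 ≤ ∏ m ∈ M, (1 - a m) := Finset.prod_nonneg fun m hm => by
        have := h1 m (Finset.mem_insert_of_mem hm); linarith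
      constructor
      · nlinarith
      · nlinarith
  exact key.1

lemma tele {u : ℝ} (hu : 3 ≤ u) : 1 / u ^ 2 ≤ 1 / (4 * (u - 2)) - 1 / (4 * (u + 2)) := by
  have h1 : 0 < u - 2 := by linarith
  have h2 : 0 < u + 2 := by linarith
  have h3 : 1 / (4 * (u - 2)) - 1 / (4 * (u + 2)) = 1 / ((u - 2) * (u + 2)) := by
    field_simp
    ring
  rw [h3]
  apply one_div_le_one_div_of_le (by positivity)
  nlinarith

lemma right (x : ℕ) (S : Finset ℕ) : ∀ a : ℕ, 3 ≤ a → (∀ m ∈ S, x + a ≤ m) →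
    (∀ m ∈ S, ∀ m' ∈ S, m < m' → m + 4 ≤ m') →
    ∑ m ∈ S, 1 / ((x : ℝ) - m) ^ 2 ≤ 1 / (4 * ((a : ℝ) - 2)) := by
  induction S using Finset.induction_on_min with
  | empty =>
    intro a ha _ _
    have : (3 : ℝ) ≤ a := by exact_mod_cast ha
    simp only [Finset.sum_empty]
    apply div_nonneg zero_le_one
    linarith
  | insert b S hb ih =>
    intro a ha hlo hsep
    have hbS : b ∉ S := fun h => lt_irrefl _ (hb b h)
    rw [Finset.sum_insert hbS]
    have hb1 := hlo b (Finset.mem_insert_self b S)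
    obtain ⟨u, hu⟩ := Nat.exists_eq_add_of_le hb1
    have h1 := ih (a + u + 4) (by omega) (fun m hm => by
      have := hsep b (Finset.mem_insert_self b S) m (Finset.mem_insert_of_mem hm) (hb m hm)
      omega) (fun m hm m' hm' => hsep m (Finset.mem_insert_of_mem hm) m'
        (Finset.mem_insert_of_mem hm'))
    have ha' : (3 : ℝ) ≤ a := by exact_mod_cast ha
    have hu0 : (0 : ℝ) ≤ u := by positivity
    have h2 : ((x : ℝ) - b) ^ 2 = ((a : ℝ) + u) ^ 2 := by
      rw [hu]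
      push_cast
      ring
    have h3 := tele (u := (a : ℝ) + u) (by linarith)
    have h4 : (1 : ℝ) / (4 * (((a + u + 4 : ℕ) : ℝ) - 2)) = 1 / (4 * ((a : ℝ) + u + 2)) := by
      push_cast
      congr 2
      ring
    rw [h4] at h1
    have h5 : 1 / (4 * ((a : ℝ) + u - 2)) ≤ 1 / (4 * ((a : ℝ) - 2)) := by
      apply one_div_le_one_div_of_le
      · linarith
      · linarith
    rw [h2]
    linarith

lemma left (x : ℕ) (S : Finset ℕ) : ∀ a : ℕ, 3 ≤ a → (∀ m ∈ S, m + a ≤ x) →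
    (∀ m ∈ S, ∀ m' ∈ S, m < m' → m + 4 ≤ m') →
    ∑ m ∈ S, 1 / ((x : ℝ) - m) ^ 2 ≤ 1 / (4 * ((a : ℝ) - 2)) := by
  induction S using Finset.induction_on_max with
  | empty =>
    intro a ha _ _
    have : (3 : ℝ) ≤ a := by exact_mod_cast ha
    simp only [Finset.sum_empty]
    apply div_nonneg zero_le_one
    linarith
  | insert b S hb ih =>
    intro a ha hlo hsep
    have hbS : b ∉ S := fun h => lt_irrefl _ (hb b h)
    rw [Finset.sum_insert hbS]
    have hb1 := hlo b (Finset.mem_insert_self b S)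
    obtain ⟨u, hu⟩ := Nat.exists_eq_add_of_le hb1
    have h1 := ih (a + u + 4) (by omega) (fun m hm => by
      have := hsep m (Finset.mem_insert_of_mem hm) b (Finset.mem_insert_self b S) (hb m hm)
      omega) (fun m hm m' hm' => hsep m (Finset.mem_insert_of_mem hm) m'
        (Finset.mem_insert_of_mem hm'))
    have ha' : (3 : ℝ) ≤ a := by exact_mod_cast ha
    have hu0 : (0 : ℝ) ≤ u := by positivity
    have h2 : ((x : ℝ) - b) ^ 2 = ((a : ℝ) + u) ^ 2 := by
      rw [hu]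
      push_cast
      ring
    have h3 := tele (u := (a : ℝ) + u) (by linarith)
    have h4 : (1 : ℝ) / (4 * (((a + u + 4 : ℕ) : ℝ) - 2)) = 1 / (4 * ((a : ℝ) + u + 2)) := by
      push_cast
      congr 2
      ring
    rw [h4] at h1
    have h5 : 1 / (4 * ((a : ℝ) + u - 2)) ≤ 1 / (4 * ((a : ℝ) - 2)) := by
      apply one_div_le_one_div_of_le
      · linarith
      · linarith
    rw [h2]
    linarith

end QF

theorem qM_nonneg {n d : ℕ} {M : Finset ℕ} (hM : Adm n d M) {x : ℕ} (hx : Even x) :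
    0 ≤ qM M x :=
  Finset.prod_nonneg fun m hm => by
    have := QF.odd_sq hx (hM.odd m hm)
    linarith

theorem qM_le {n d : ℕ} {M : Finset ℕ} (hM : Adm n d M) {x : ℕ} (hx : Even x) :
    qM M x ≤ fM M x ^ 2 := by
  unfold qM fM
  rw [← Finset.prod_pow]
  apply Finset.prod_le_prod
  · intro m hm
    have := QF.odd_sq hx (hM.odd m hm)
    linarith
  · intro m _
    linarith

/-- distances `|x - m|` are odd, at least 3 and 4-separated on each side of `x`:
`q/f^2 = ∏ (1 - 1/(x-m)^2) ≥ 1 - ∑ 1/(x-m)^2 ≥ 1 - 2 ∑_{j ≥ 0} 1/(3+4j)^2 ≥ 1/2`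
(`(3+4j)^2 ≥ (4j+1)(4j+5)` telescopes). -/
theorem qM_ge {n d : ℕ} {M : Finset ℕ} (hM : Adm n d M) {x : ℕ} (hx : Even x)
    (hxM : ¬ ∃ m ∈ M, x = m + 1 ∨ x + 1 = m) :
    1 / 2 * fM M x ^ 2 ≤ qM M x := by
  have hne : ∀ m ∈ M, (0 : ℝ) < ((x : ℝ) - m) ^ 2 := fun m hm =>
    lt_of_lt_of_le one_pos (QF.odd_sq hx (hM.odd m hm))
  have h1 : qM M x = fM M x ^ 2 * ∏ m ∈ M, (1 - 1 / ((x : ℝ) - m) ^ 2) := by
    unfold qM fM
    rw [← Finset.prod_pow, ← Finset.prod_mul_distrib]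
    apply Finset.prod_congr rfl
    intro m hm
    have := (hne m hm).ne'
    rw [mul_sub, mul_one, mul_one_div, div_self this]
  have h2 := QF.one_sub_sum_le M (fun m => 1 / ((x : ℝ) - m) ^ 2)
    (fun m hm => by have := hne m hm; positivity)
    (fun m hm => by
      rw [div_le_one (hne m hm)]
      exact QF.odd_sq hx (hM.odd m hm))
  have h3 : ∑ m ∈ M, 1 / ((x : ℝ) - m) ^ 2 ≤ 1 / 2 := by
    rw [← Finset.sum_filter_add_sum_filter_not M (fun m => x < m)]
    have hodd : ∀ m ∈ M, m ≠ x ∧ m ≠ x + 1 ∧ m + 1 ≠ x ∧ m ≠ x + 2 ∧ m + 2 ≠ x := by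
      intro m hm
      obtain ⟨j, hj⟩ := hM.odd m hm
      obtain ⟨i, hi⟩ := hx
      push Not at hxM
      obtain ⟨h4, h5⟩ := hxM m hm
      omega
    have h4 := QF.right x (M.filter fun m => x < m) 3 le_rfl (fun m hm => by
      rw [Finset.mem_filter] at hm
      have := hodd m hm.1
      omega) (fun m hm m' hm' => hM.sep m (Finset.mem_filter.mp hm).1 m'
        (Finset.mem_filter.mp hm').1)
    have h5 := QF.left x (M.filter fun m => ¬ x < m) 3 le_rfl (fun m hm => by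
      rw [Finset.mem_filter] at hm
      have := hodd m hm.1
      omega) (fun m hm m' hm' => hM.sep m (Finset.mem_filter.mp hm).1 m'
        (Finset.mem_filter.mp hm').1)
    have h6 : (1 : ℝ) / (4 * (((3 : ℕ) : ℝ) - 2)) = 1 / 4 := by norm_num
    rw [h6] at h4 h5
    linarith
  rw [h1, mul_comm]
  apply mul_le_mul_of_nonneg_left _ (sq_nonneg _)
  linarith

end Pool.Agent.Lib.MP_0430e4_lc.LPL
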