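import Pool.Agent.Lib.MP_0430e4_lc.LPL.Defs

/-!
# The ratio of the entropies tends to one
-/

set_option autoImplicit false

namespace Pool.Agent.Lib.MP_0430e4_lc.LPL

open Finset Filter Topology

theorem tendsto_ent_div :
    Tendsto (fun x : ℝ => Real.binEntropy x / (x * -Real.log x)) (𝓝[>] 0) (𝓝 1) := by
  have hlog : Tendsto (fun x : ℝ => -Real.log x) (𝓝[>] 0) atTop :=
    tendsto_neg_atBot_atTop.comp Real.tendsto_log_nhdsGT_zero
  have hinv : Tendsto (fun x : ℝ => 1 + (-Real.log x)⁻¹) (𝓝[>] 0) (𝓝 1) := by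
    have := (tendsto_inv_atTop_zero.comp hlog).const_add (1 : ℝ)
    simpa using this
  refine tendsto_of_tendsto_of_tendsto_of_le_of_le' tendsto_const_nhds hinv ?_ ?_
  · have hmem : Set.Ioo (0 : ℝ) 1 ∈ 𝓝[>] (0 : ℝ) := Ioo_mem_nhdsGT one_pos
    filter_upwards [hmem] with x hx
    have hl : 0 < -Real.log x := by
      have := Real.log_neg hx.1 hx.2
      linarith
    rw [le_div_iff₀ (mul_pos hx.1 hl), one_mul]
    unfold Real.binEntropy
    rw [Real.log_inv, Real.log_inv]
    have h1 : Real.log (1 - x) ≤ 0 := Real.log_nonpos (by linarith [hx.2]) (by linarith [hx.1])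
    have h2 : 0 ≤ (1 - x) * -Real.log (1 - x) := mul_nonneg (by linarith [hx.2]) (by linarith)
    linarith
  · have hmem : Set.Ioo (0 : ℝ) 1 ∈ 𝓝[>] (0 : ℝ) := Ioo_mem_nhdsGT one_pos
    filter_upwards [hmem] with x hx
    have hl : 0 < -Real.log x := by
      have := Real.log_neg hx.1 hx.2
      linarith
    have h1x : 0 < 1 - x := by linarith [hx.2]
    rw [div_le_iff₀ (mul_pos hx.1 hl)]
    have e1 : (1 + (-Real.log x)⁻¹) * (x * -Real.log x) = x * -Real.log x + x := by
      generalize -Real.log x = L at hl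
      field_simp
    rw [e1]
    unfold Real.binEntropy
    rw [Real.log_inv, Real.log_inv]
    have h2 : (1 - x) * -Real.log (1 - x) ≤ x := by
      have h3 : -Real.log (1 - x) ≤ (1 - x)⁻¹ - 1 := by
        rw [← Real.log_inv]
        exact Real.log_le_sub_one_of_pos (inv_pos.2 h1x)
      calc (1 - x) * -Real.log (1 - x) ≤ (1 - x) * ((1 - x)⁻¹ - 1) :=
            mul_le_mul_of_nonneg_left h3 h1x.le
        _ = x := by
            field_simp
            ring
    linarith

theorem ratio_tendsto :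
    Tendsto (fun x : ℝ => Real.binEntropy (2 * x) / (2 * Real.binEntropy x)) (𝓝[>] 0) (𝓝 1) := by
  have h1 := tendsto_ent_div
  have h2 : Tendsto (fun x : ℝ => 2 * x) (𝓝[>] 0) (𝓝[>] 0) := by
    apply tendsto_nhdsWithin_of_tendsto_nhds_of_eventually_within
    · have : Tendsto (fun x : ℝ => 2 * x) (𝓝 0) (𝓝 (2 * 0)) :=
        (continuous_const.mul continuous_id).tendsto 0
      rw [mul_zero] at this
      exact this.mono_left nhdsWithin_le_nhds
    · filter_upwards [self_mem_nhdsWithin] with x hx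
      have : (0 : ℝ) < x := hx
      exact Set.mem_Ioi.2 (by linarith)
  have h3 := h1.comp h2
  have hlog : Tendsto (fun x : ℝ => -Real.log x) (𝓝[>] 0) atTop :=
    tendsto_neg_atBot_atTop.comp Real.tendsto_log_nhdsGT_zero
  have h4 : Tendsto (fun x : ℝ => 1 - Real.log 2 * (-Real.log x)⁻¹) (𝓝[>] 0) (𝓝 1) := by
    have := ((tendsto_inv_atTop_zero.comp hlog).const_mul (Real.log 2)).const_sub (1 : ℝ)
    simpa using this
  have h5 := (h3.mul h4).div h1 one_ne_zero
  rw [mul_one, div_one] at h5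
  refine h5.congr' ?_
  have hmem : Set.Ioo (0 : ℝ) (1 / 2) ∈ 𝓝[>] (0 : ℝ) := Ioo_mem_nhdsGT (by norm_num)
  filter_upwards [hmem] with x hx
  have hl : -Real.log x ≠ 0 := by
    have := Real.log_neg hx.1 (by linarith [hx.2])
    linarith
  have hl2 : -Real.log (2 * x) ≠ 0 := by
    have := Real.log_neg (x := 2 * x) (by linarith [hx.1]) (by linarith [hx.2])
    linarith
  have hx0 : x ≠ 0 := hx.1.ne'
  have hb : Real.binEntropy x ≠ 0 := (Real.binEntropy_pos hx.1 (by linarith [hx.2])).ne'
  have e2 : -Real.log (2 * x) = -Real.log x - Real.log 2 := by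
    rw [Real.log_mul (by norm_num) hx0]
    ring
  have e3 : 1 - Real.log 2 * (-Real.log x)⁻¹ = -Real.log (2 * x) / -Real.log x := by
    rw [e2]
    generalize -Real.log x = L at hl
    field_simp
  show Real.binEntropy (2 * x) / (2 * x * -Real.log (2 * x)) * (1 - Real.log 2 * (-Real.log x)⁻¹)
    / (Real.binEntropy x / (x * -Real.log x)) = Real.binEntropy (2 * x) / (2 * Real.binEntropy x)
  rw [e3]
  clear e2 e3
  generalize -Real.log (2 * x) = L2 at hl2
  generalize -Real.log x = L1 at hl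
  generalize Real.binEntropy x = B1 at hb
  field_simp

end Pool.Agent.Lib.MP_0430e4_lc.LPL
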